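import Pool.Agent.Helper14.RO.Defs

/-!
# Block 1: the measure of the up-sets and down-sets
-/

namespace Pool.Agent.Helper14.RO

open MeasureTheory Set
open scoped ENNReal

theorem b01_mu1_Iic {t : ℝ} (ht : t ∈ Ioo (0 : ℝ) 1) : mu1 (Iic t) = ENNReal.ofReal t := by
  rw [mu1, Measure.restrict_apply measurableSet_Iic]
  have h : Iic t ∩ Ioo (0 : ℝ) 1 = Ioc 0 t := by
    ext x
    simp only [mem_inter_iff, mem_Iic, mem_Ioo, mem_Ioc]
    constructor
    · rintro ⟨h1, h2, _⟩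
      exact ⟨h2, h1⟩
    · rintro ⟨h1, h2⟩
      exact ⟨h2, h1, lt_of_le_of_lt h2 ht.2⟩
  rw [h, Real.volume_Ioc, sub_zero]

theorem b01_mu1_Ici {t : ℝ} (ht : t ∈ Ioo (0 : ℝ) 1) : mu1 (Ici t) = ENNReal.ofReal (1 - t) := by
  rw [mu1, Measure.restrict_apply measurableSet_Ici]
  have h : Ici t ∩ Ioo (0 : ℝ) 1 = Ico t 1 := by
    ext x
    simp only [mem_inter_iff, mem_Ici, mem_Ioo, mem_Ico]
    constructor
    · rintro ⟨h1, _, h2⟩
      exact ⟨h1, h2⟩
    · rintro ⟨h1, h2⟩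
      exact ⟨h1, lt_of_lt_of_le ht.1 h1, h2⟩
  rw [h, Real.volume_Ico]

theorem b01_set_le {d : ℕ} (a : Fin d → ℝ) : {w | w ≤ a} = Set.pi univ fun i => Iic (a i) := by
  ext w
  simp [Pi.le_def]

theorem b01_set_ge {d : ℕ} (a : Fin d → ℝ) : {w | a ≤ w} = Set.pi univ fun i => Ici (a i) := by
  ext w
  simp [Pi.le_def]

theorem b01_meas_le {d : ℕ} (a : Fin d → ℝ) : MeasurableSet {w | w ≤ a} := by
  rw [b01_set_le]
  exact MeasurableSet.univ_pi fun i => measurableSet_Iic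

theorem b01_meas_ge {d : ℕ} (a : Fin d → ℝ) : MeasurableSet {w | a ≤ w} := by
  rw [b01_set_ge]
  exact MeasurableSet.univ_pi fun i => measurableSet_Ici

theorem mu_le {d : ℕ} {a : Fin d → ℝ} (ha : a ∈ Cube d) :
    mu d {w | w ≤ a} = ENNReal.ofReal (X a) := by
  rw [b01_set_le, mu, Measure.pi_pi, X, ENNReal.ofReal_prod_of_nonneg fun i _ => (ha i).1.le]
  exact Finset.prod_congr rfl fun i _ => b01_mu1_Iic (ha i)

theorem mu_ge {d : ℕ} {a : Fin d → ℝ} (ha : a ∈ Cube d) :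
    mu d {w | a ≤ w} = ENNReal.ofReal (Y a) := by
  rw [b01_set_ge, mu, Measure.pi_pi, Y,
    ENNReal.ofReal_prod_of_nonneg fun i _ => (sub_pos.2 (ha i).2).le]
  exact Finset.prod_congr rfl fun i _ => b01_mu1_Ici (ha i)

theorem b01_inf {d : ℕ} {a b : Fin d → ℝ} (ha : a ∈ Cube d) (hb : b ∈ Cube d) :
    a ⊓ b ∈ Cube d := fun i =>
  ⟨lt_min (ha i).1 (hb i).1, lt_of_le_of_lt (min_le_left _ _) (ha i).2⟩

theorem b01_sup {d : ℕ} {a b : Fin d → ℝ} (ha : a ∈ Cube d) (hb : b ∈ Cube d) :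
    a ⊔ b ∈ Cube d := fun i =>
  ⟨lt_of_lt_of_le (ha i).1 (le_max_left _ _), max_lt (ha i).2 (hb i).2⟩

theorem b01_X_nonneg {d : ℕ} {a : Fin d → ℝ} (ha : a ∈ Cube d) : 0 ≤ X a :=
  Finset.prod_nonneg fun i _ => (ha i).1.le

theorem b01_Y_nonneg {d : ℕ} {a : Fin d → ℝ} (ha : a ∈ Cube d) : 0 ≤ Y a :=
  Finset.prod_nonneg fun i _ => (sub_pos.2 (ha i).2).le

theorem b01_real_le {d : ℕ} {a : Fin d → ℝ} (ha : a ∈ Cube d) :
    (mu d).real {w | w ≤ a} = X a := by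
  rw [Measure.real, mu_le ha, ENNReal.toReal_ofReal (b01_X_nonneg ha)]

theorem b01_real_ge {d : ℕ} {a : Fin d → ℝ} (ha : a ∈ Cube d) :
    (mu d).real {w | a ≤ w} = Y a := by
  rw [Measure.real, mu_ge ha, ENNReal.toReal_ofReal (b01_Y_nonneg ha)]

theorem b01_symm {d : ℕ} {A B : Set (Fin d → ℝ)} (hA : MeasurableSet A) (hB : MeasurableSet B) :
    (mu d).real ((A \ B) ∪ (B \ A)) =
      (mu d).real A + (mu d).real B - 2 * (mu d).real (A ∩ B) := by
  have h1 : (mu d).real ((A \ B) ∪ (B \ A)) = (mu d).real (A \ B) + (mu d).real (B \ A) := by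
    refine measureReal_union ?_ (hB.diff hA)
    exact disjoint_sdiff_sdiff
  have h2 : (mu d).real (A ∩ B) + (mu d).real (A \ B) = (mu d).real A :=
    measureReal_inter_add_sdiff hB
  have h3 : (mu d).real (B ∩ A) + (mu d).real (B \ A) = (mu d).real B :=
    measureReal_inter_add_sdiff hA
  rw [inter_comm] at h3
  linarith

theorem mu_ff {d : ℕ} {a b : Fin d → ℝ} (ha : a ∈ Cube d) (hb : b ∈ Cube d) :
    mu d {w | ff a b w ≠ 0} = ENNReal.ofReal (pp a b) := by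
  have h0 : {w | ff a b w ≠ 0} = ({w | w ≤ a} \ {w | w ≤ b}) ∪ ({w | w ≤ b} \ {w | w ≤ a}) := by
    ext w
    simp only [ff, mem_ofPred_eq, mem_union, mem_sdiff]
    by_cases h1 : w ≤ a <;> by_cases h2 : w ≤ b <;> simp [h1, h2]
  have h1 := b01_symm (b01_meas_le a) (b01_meas_le b)
  have h2 : {w | w ≤ a} ∩ {w | w ≤ b} = {w | w ≤ a ⊓ b} := by
    ext w
    simp
  rw [h2, b01_real_le ha, b01_real_le hb, b01_real_le (b01_inf ha hb), ← h0] at h1
  rw [pp, ← h1, Measure.real, ENNReal.ofReal_toReal (measure_ne_top _ _)]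

theorem mu_gg {d : ℕ} {a b : Fin d → ℝ} (ha : a ∈ Cube d) (hb : b ∈ Cube d) :
    mu d {w | gg a b w ≠ 0} = ENNReal.ofReal (qq a b) := by
  have h0 : {w | gg a b w ≠ 0} = ({w | a ≤ w} \ {w | b ≤ w}) ∪ ({w | b ≤ w} \ {w | a ≤ w}) := by
    ext w
    simp only [gg, mem_ofPred_eq, mem_union, mem_sdiff]
    by_cases h1 : a ≤ w <;> by_cases h2 : b ≤ w <;> simp [h1, h2]
  have h1 := b01_symm (b01_meas_ge a) (b01_meas_ge b)
  have h2 : {w | a ≤ w} ∩ {w | b ≤ w} = {w | a ⊔ b ≤ w} := by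
    ext w
    simp
  rw [h2, b01_real_ge ha, b01_real_ge hb, b01_real_ge (b01_sup ha hb), ← h0] at h1
  rw [qq, ← h1, Measure.real, ENNReal.ofReal_toReal (measure_ne_top _ _)]

theorem b01_int {d : ℕ} {A B : Set (Fin d → ℝ)} (hA : MeasurableSet A) (hB : MeasurableSet B) :
    ∫ w, (A.indicator (fun _ => (1 : ℝ)) w - B.indicator (fun _ => (1 : ℝ)) w) ∂mu d =
      (mu d).real A - (mu d).real B := by
  rw [integral_sub ((integrable_const _).indicator hA) ((integrable_const _).indicator hB),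
    integral_indicator hA, integral_indicator hB]
  simp

theorem int_ff {d : ℕ} {a b : Fin d → ℝ} (ha : a ∈ Cube d) (hb : b ∈ Cube d) :
    ∫ w, (ff a b w : ℝ) ∂mu d = X a - X b := by
  have h := b01_int (b01_meas_le a) (b01_meas_le b)
  rw [b01_real_le ha, b01_real_le hb] at h
  rw [← h]
  refine integral_congr_ae (Filter.Eventually.of_forall fun w => ?_)
  by_cases h1 : w ≤ a <;> by_cases h2 : w ≤ b <;> simp [ff, indicator, h1, h2]

theorem int_gg {d : ℕ} {a b : Fin d → ℝ} (ha : a ∈ Cube d) (hb : b ∈ Cube d) :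
    ∫ w, (gg a b w : ℝ) ∂mu d = Y a - Y b := by
  have h := b01_int (b01_meas_ge a) (b01_meas_ge b)
  rw [b01_real_ge ha, b01_real_ge hb] at h
  rw [← h]
  refine integral_congr_ae (Filter.Eventually.of_forall fun w => ?_)
  by_cases h1 : a ≤ w <;> by_cases h2 : b ≤ w <;> simp [gg, indicator, h1, h2]

end Pool.Agent.Helper14.RO
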