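import Pool.Agent.Helper14.RO.Defs

/-!
# Block 2: measurability
-/

namespace Pool.Agent.Helper14.RO

open MeasureTheory Set
open scoped ENNReal

theorem ae_cube (d : ℕ) : ∀ᵐ a ∂mu d, a ∈ Cube d := by
  have h : ∀ i : Fin d, ∀ᵐ a ∂mu d, a i ∈ Ioo (0 : ℝ) 1 := fun i =>
    (Measure.tendsto_eval_ae_ae (μ := fun _ : Fin d => mu1) (i := i)).eventually
      (ae_restrict_mem measurableSet_Ioo)
  exact ae_all_iff.2 h

theorem meas_X (d : ℕ) : Measurable (X : (Fin d → ℝ) → ℝ) :=
  Finset.measurable_prod _ fun i _ => measurable_pi_apply i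

theorem meas_Y (d : ℕ) : Measurable (Y : (Fin d → ℝ) → ℝ) :=
  Finset.measurable_prod _ fun i _ => measurable_const.sub (measurable_pi_apply i)

theorem b02_inf (d : ℕ) : Measurable fun z : (Fin d → ℝ) × (Fin d → ℝ) => z.1 ⊓ z.2 := by
  refine measurable_pi_lambda _ fun i => ?_
  exact ((measurable_pi_apply i).comp measurable_fst).min ((measurable_pi_apply i).comp measurable_snd)

theorem b02_sup (d : ℕ) : Measurable fun z : (Fin d → ℝ) × (Fin d → ℝ) => z.1 ⊔ z.2 := by
  refine measurable_pi_lambda _ fun i => ?_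
  exact ((measurable_pi_apply i).comp measurable_fst).max ((measurable_pi_apply i).comp measurable_snd)

theorem meas_pp (d : ℕ) : Measurable fun z : (Fin d → ℝ) × (Fin d → ℝ) => pp z.1 z.2 :=
  (((meas_X d).comp measurable_fst).add ((meas_X d).comp measurable_snd)).sub
    (((meas_X d).comp (b02_inf d)).const_mul 2)

theorem meas_qq (d : ℕ) : Measurable fun z : (Fin d → ℝ) × (Fin d → ℝ) => qq z.1 z.2 :=
  (((meas_Y d).comp measurable_fst).add ((meas_Y d).comp measurable_snd)).sub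
    (((meas_Y d).comp (b02_sup d)).const_mul 2)

theorem b02_ffj (d : ℕ) :
    Measurable fun z : (Fin d → ℝ) × (Fin d → ℝ) × (Fin d → ℝ) => ff z.1 z.2.1 z.2.2 := by
  unfold ff
  refine Measurable.sub ?_ ?_
  · exact Measurable.ite (measurableSet_le measurable_snd.snd measurable_fst)
      measurable_const measurable_const
  · exact Measurable.ite (measurableSet_le measurable_snd.snd measurable_snd.fst)
      measurable_const measurable_const

theorem b02_ggj (d : ℕ) :
    Measurable fun z : (Fin d → ℝ) × (Fin d → ℝ) × (Fin d → ℝ) => gg z.1 z.2.1 z.2.2 := by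
  unfold gg
  refine Measurable.sub ?_ ?_
  · exact Measurable.ite (measurableSet_le measurable_fst measurable_snd.snd)
      measurable_const measurable_const
  · exact Measurable.ite (measurableSet_le measurable_snd.fst measurable_snd.snd)
      measurable_const measurable_const

theorem meas_ff {d : ℕ} (a b : Fin d → ℝ) : Measurable (ff a b) :=
  (b02_ffj d).comp (measurable_const.prodMk (measurable_const.prodMk measurable_id))

theorem meas_gg {d : ℕ} (a b : Fin d → ℝ) : Measurable (gg a b) :=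
  (b02_ggj d).comp (measurable_const.prodMk (measurable_const.prodMk measurable_id))

theorem meas_Bal {d : ℕ} (s : ℝ) :
    MeasurableSet {z : (Fin d → ℝ) × (Fin d → ℝ) | Bal s z.1 z.2} := by
  have hX : Measurable fun z : (Fin d → ℝ) × (Fin d → ℝ) => (X z.1 - X z.2) ^ 2 :=
    (((meas_X d).comp measurable_fst).sub ((meas_X d).comp measurable_snd)).pow_const 2
  have hY : Measurable fun z : (Fin d → ℝ) × (Fin d → ℝ) => (Y z.1 - Y z.2) ^ 2 :=
    (((meas_Y d).comp measurable_fst).sub ((meas_Y d).comp measurable_snd)).pow_const 2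
  exact (measurableSet_le measurable_const (meas_pp d)).inter
    ((measurableSet_le measurable_const (meas_qq d)).inter
      ((measurableSet_le hX ((meas_pp d).const_mul _)).inter
        (measurableSet_le hY ((meas_qq d).const_mul _))))

theorem b02_coord {d N : ℕ} (k : Fin N) :
    Measurable fun z : (Fin d → ℝ) × (Fin d → ℝ) × (Fin N → Fin d → ℝ) =>
      ((z.1, z.2.1, z.2.2 k) : (Fin d → ℝ) × (Fin d → ℝ) × (Fin d → ℝ)) :=
  measurable_fst.prodMk (measurable_snd.fst.prodMk
    ((measurable_pi_apply k).comp measurable_snd.snd))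

theorem meas_Col {d N : ℕ} (K : ℕ) :
    MeasurableSet (Col K : Set ((Fin d → ℝ) × (Fin d → ℝ) × (Fin N → Fin d → ℝ))) := by
  have h1 : Measurable fun z : (Fin d → ℝ) × (Fin d → ℝ) × (Fin N → Fin d → ℝ) =>
      ∑ k, ff z.1 z.2.1 (z.2.2 k) :=
    Finset.measurable_sum _ fun k _ => (b02_ffj d).comp (b02_coord k)
  have h2 : Measurable fun z : (Fin d → ℝ) × (Fin d → ℝ) × (Fin N → Fin d → ℝ) =>
      ∑ k, gg z.1 z.2.1 (z.2.2 k) :=
    Finset.measurable_sum _ fun k _ => (b02_ggj d).comp (b02_coord k)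
  exact (h1 (MeasurableSet.of_discrete (s := {n : ℤ | |n| ≤ K}))).inter
    (h2 (MeasurableSet.of_discrete (s := {n : ℤ | |n| ≤ K})))

theorem meas_Tw {d N : ℕ} (m : ℕ) :
    MeasurableSet (Tw m : Set ((Fin d → ℝ) × (Fin d → ℝ) × (Fin N → Fin d → ℝ))) := by
  classical
  have h1 : Measurable fun z : (Fin d → ℝ) × (Fin d → ℝ) × (Fin N → Fin d → ℝ) =>
      ∑ k, if ff z.1 z.2.1 (z.2.2 k) ≠ 0 ∨ gg z.1 z.2.1 (z.2.2 k) ≠ 0 then 1 else 0 := by
    refine Finset.measurable_sum _ fun k _ => ?_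
    refine Measurable.ite ?_ measurable_const measurable_const
    have h2 : MeasurableSet {z : (Fin d → ℝ) × (Fin d → ℝ) × (Fin N → Fin d → ℝ) |
        ff z.1 z.2.1 (z.2.2 k) ≠ 0} :=
      ((b02_ffj d).comp (b02_coord k)) (MeasurableSet.of_discrete (s := {n : ℤ | n ≠ 0}))
    have h3 : MeasurableSet {z : (Fin d → ℝ) × (Fin d → ℝ) × (Fin N → Fin d → ℝ) |
        gg z.1 z.2.1 (z.2.2 k) ≠ 0} :=
      ((b02_ggj d).comp (b02_coord k)) (MeasurableSet.of_discrete (s := {n : ℤ | n ≠ 0}))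
    exact h2.union h3
  have h4 : (Tw m : Set ((Fin d → ℝ) × (Fin d → ℝ) × (Fin N → Fin d → ℝ))) =
      (fun z : (Fin d → ℝ) × (Fin d → ℝ) × (Fin N → Fin d → ℝ) =>
      ∑ k, if ff z.1 z.2.1 (z.2.2 k) ≠ 0 ∨ gg z.1 z.2.1 (z.2.2 k) ≠ 0 then 1 else 0) ⁻¹'
        {n : ℕ | n ≤ m} := by
    ext z
    change _ ≤ m ↔ _ ≤ m
    rw [Finset.card_filter]
  rw [h4]
  exact h1 MeasurableSet.of_discrete

end Pool.Agent.Helper14.RO
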