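import Pool.Agent.Helper14.RO.Defs

/-!
# Block 3: geometry of the cube (no measure theory)
-/

namespace Pool.Agent.Helper14.RO

variable {d : ℕ} {a b : Fin d → ℝ}

theorem X_pos (ha : a ∈ Cube d) : 0 < X a := Finset.prod_pos fun i _ => (ha i).1
theorem Y_pos (ha : a ∈ Cube d) : 0 < Y a :=
  Finset.prod_pos fun i _ => sub_pos.mpr (ha i).2
theorem X_le_one (ha : a ∈ Cube d) : X a ≤ 1 :=
  Finset.prod_le_one (fun i _ => (ha i).1.le) fun i _ => (ha i).2.le
theorem Y_le_one (ha : a ∈ Cube d) : Y a ≤ 1 :=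
  Finset.prod_le_one (fun i _ => (sub_pos.mpr (ha i).2).le)
    fun i _ => by have := (ha i).1; linarith

theorem Cube_refl (ha : a ∈ Cube d) : (fun i => 1 - a i) ∈ Cube d := fun i =>
  ⟨sub_pos.mpr (ha i).2, by have := (ha i).1; show 1 - a i < 1; linarith⟩
theorem X_refl (a : Fin d → ℝ) : X (fun i => 1 - a i) = Y a := rfl
theorem Y_refl (a : Fin d → ℝ) : Y (fun i => 1 - a i) = X a := by
  unfold X Y
  exact Finset.prod_congr rfl fun i _ => by ring

private theorem b03_inf_refl (a b : Fin d → ℝ) :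
    (fun i => 1 - a i) ⊓ (fun i => 1 - b i) = fun i => 1 - (a ⊔ b) i := by
  funext i
  show min (1 - a i) (1 - b i) = 1 - max (a i) (b i)
  rcases le_total (a i) (b i) with h | h
  · rw [max_eq_right h, min_eq_right (by linarith)]
  · rw [max_eq_left h, min_eq_left (by linarith)]

private theorem b03_sup_refl (a b : Fin d → ℝ) :
    (fun i => 1 - a i) ⊔ (fun i => 1 - b i) = fun i => 1 - (a ⊓ b) i := by
  funext i
  show max (1 - a i) (1 - b i) = 1 - min (a i) (b i)
  rcases le_total (a i) (b i) with h | h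
  · rw [min_eq_left h, max_eq_left (by linarith)]
  · rw [min_eq_right h, max_eq_right (by linarith)]

theorem pp_refl (a b : Fin d → ℝ) : pp (fun i => 1 - a i) (fun i => 1 - b i) = qq a b := by
  unfold pp qq
  rw [b03_inf_refl, X_refl, X_refl, X_refl]
theorem qq_refl (a b : Fin d → ℝ) : qq (fun i => 1 - a i) (fun i => 1 - b i) = pp a b := by
  unfold pp qq
  rw [b03_sup_refl, Y_refl, Y_refl, Y_refl]
theorem pp_comm (a b : Fin d → ℝ) : pp a b = pp b a := by
  unfold pp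
  rw [inf_comm]
  ring
theorem qq_comm (a b : Fin d → ℝ) : qq a b = qq b a := by
  unfold qq
  rw [sup_comm]
  ring

private theorem b03_inf_cube (ha : a ∈ Cube d) (hb : b ∈ Cube d) : a ⊓ b ∈ Cube d := fun i =>
  ⟨lt_min (ha i).1 (hb i).1, lt_of_le_of_lt (min_le_left _ _) (ha i).2⟩

private theorem b03_mono (ha : a ∈ Cube d) (h : a ≤ b) : X a ≤ X b :=
  Finset.prod_le_prod (fun i _ => (ha i).1.le) fun i _ => h i

theorem pp_nonneg (ha : a ∈ Cube d) (hb : b ∈ Cube d) : 0 ≤ pp a b := by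
  have h1 := b03_mono (b03_inf_cube ha hb) (inf_le_left : a ⊓ b ≤ a)
  have h2 := b03_mono (b03_inf_cube ha hb) (inf_le_right : a ⊓ b ≤ b)
  unfold pp
  linarith
theorem qq_nonneg (ha : a ∈ Cube d) (hb : b ∈ Cube d) : 0 ≤ qq a b := by
  rw [← pp_refl]
  exact pp_nonneg (Cube_refl ha) (Cube_refl hb)
theorem abs_X_sub_le (ha : a ∈ Cube d) (hb : b ∈ Cube d) : |X a - X b| ≤ pp a b := by
  have h1 := b03_mono (b03_inf_cube ha hb) (inf_le_left : a ⊓ b ≤ a)
  have h2 := b03_mono (b03_inf_cube ha hb) (inf_le_right : a ⊓ b ≤ b)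
  unfold pp
  rw [abs_le]
  constructor <;> linarith
theorem abs_Y_sub_le (ha : a ∈ Cube d) (hb : b ∈ Cube d) : |Y a - Y b| ≤ qq a b := by
  rw [← pp_refl, ← X_refl a, ← X_refl b]
  exact abs_X_sub_le (Cube_refl ha) (Cube_refl hb)

/-- The quotient of the two products is at most that of the coordinates `i`. -/
private theorem b03_key (ha : a ∈ Cube d) (hb : b ∈ Cube d) (i : Fin d) (h : b i ≤ a i) :
    X (a ⊓ b) * a i ≤ X a * b i := by
  have e1 : X (a ⊓ b) = b i * ∏ j ∈ Finset.univ.erase i, (a ⊓ b) j := by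
    unfold X
    rw [← Finset.mul_prod_erase Finset.univ (fun j => (a ⊓ b) j) (Finset.mem_univ i)]
    congr 1
    exact min_eq_right h
  have e2 : X a = a i * ∏ j ∈ Finset.univ.erase i, a j := by
    unfold X
    rw [← Finset.mul_prod_erase Finset.univ (fun j => a j) (Finset.mem_univ i)]
  have h3 : ∏ j ∈ Finset.univ.erase i, (a ⊓ b) j ≤ ∏ j ∈ Finset.univ.erase i, a j :=
    Finset.prod_le_prod (fun j _ => (b03_inf_cube ha hb j).1.le) fun j _ => min_le_left _ _
  have h4 : 0 ≤ b i * a i := mul_nonneg (hb i).1.le (ha i).1.le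
  rw [e1, e2]
  have := mul_le_mul_of_nonneg_left h3 h4
  linarith

/-- The strong form of G1. -/
private theorem b03_G1 (ha : a ∈ Cube d) (hb : b ∈ Cube d) (i : Fin d) (h : b i ≤ a i) :
    X a * (a i - b i) ≤ a i * pp a b := by
  have h1 := b03_key ha hb i h
  have h2 := b03_mono (b03_inf_cube ha hb) (inf_le_right : a ⊓ b ≤ b)
  have h3 : X a - X (a ⊓ b) ≤ pp a b := by unfold pp; linarith
  have h4 := mul_le_mul_of_nonneg_left h3 (ha i).1.le
  linarith

private theorem b03_G1' (ha : a ∈ Cube d) (hb : b ∈ Cube d) (i : Fin d) (h : b i ≤ a i) :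
    X a * (a i - b i) ≤ pp a b := by
  have h1 := b03_G1 ha hb i h
  have h2 := mul_le_mul_of_nonneg_right (ha i).2.le (pp_nonneg ha hb)
  linarith

/-- G1 -/
theorem G1 (ha : a ∈ Cube d) (hb : b ∈ Cube d) (i : Fin d) :
    min (X a) (X b) * |a i - b i| ≤ pp a b := by
  rcases le_total (b i) (a i) with h | h
  · rw [abs_of_nonneg (sub_nonneg.mpr h)]
    exact le_trans (mul_le_mul_of_nonneg_right (min_le_left _ _) (sub_nonneg.mpr h))
      (b03_G1' ha hb i h)
  · rw [abs_sub_comm, abs_of_nonneg (sub_nonneg.mpr h), pp_comm]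
    exact le_trans (mul_le_mul_of_nonneg_right (min_le_right _ _) (sub_nonneg.mpr h))
      (b03_G1' hb ha i h)
private theorem b03_refl_sub (a b : Fin d → ℝ) (i : Fin d) :
    |(1 - a i) - (1 - b i)| = |a i - b i| := by
  rw [show (1 - a i) - (1 - b i) = -(a i - b i) by ring, abs_neg]

theorem G1q (ha : a ∈ Cube d) (hb : b ∈ Cube d) (i : Fin d) :
    min (Y a) (Y b) * |a i - b i| ≤ qq a b := by
  have h := G1 (Cube_refl ha) (Cube_refl hb) i
  rw [pp_refl, X_refl, X_refl] at h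
  rwa [b03_refl_sub] at h

private theorem b03_tel (x y : Fin d → ℝ) (s : Finset (Fin d)) (h0 : ∀ i, 0 ≤ x i)
    (h : ∀ i, x i ≤ y i) (h1 : ∀ i, y i ≤ 1) :
    ∏ i ∈ s, y i - ∏ i ∈ s, x i ≤ ∑ i ∈ s, (y i - x i) := by
  classical
  induction s using Finset.induction_on with
  | empty => simp
  | insert i s hi ih =>
    rw [Finset.prod_insert hi, Finset.prod_insert hi, Finset.sum_insert hi]
    have p1 : ∏ j ∈ s, x j ≤ ∏ j ∈ s, y j := Finset.prod_le_prod (fun j _ => h0 j) fun j _ => h j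
    have p2 : ∏ j ∈ s, x j ≤ 1 := Finset.prod_le_one (fun j _ => h0 j) fun j _ => (h j).trans (h1 j)
    have p3 : (y i - x i) * ∏ j ∈ s, x j ≤ (y i - x i) * 1 :=
      mul_le_mul_of_nonneg_left p2 (sub_nonneg.mpr (h i))
    have p4 : y i * (∏ j ∈ s, y j - ∏ j ∈ s, x j) ≤ 1 * (∏ j ∈ s, y j - ∏ j ∈ s, x j) :=
      mul_le_mul_of_nonneg_right (h1 i) (sub_nonneg.mpr p1)
    nlinarith

/-- G2 -/
theorem G2 (ha : a ∈ Cube d) (hb : b ∈ Cube d) : pp a b ≤ d * ‖a - b‖ := by
  have hc := b03_inf_cube ha hb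
  have h1 := b03_tel (a ⊓ b) a Finset.univ (fun i => (hc i).1.le) (fun i => min_le_left _ _)
    fun i => (ha i).2.le
  have h2 := b03_tel (a ⊓ b) b Finset.univ (fun i => (hc i).1.le) (fun i => min_le_right _ _)
    fun i => (hb i).2.le
  have h3 : pp a b ≤ ∑ i, ((a i - (a ⊓ b) i) + (b i - (a ⊓ b) i)) := by
    rw [Finset.sum_add_distrib]
    unfold pp
    have e : ∀ c : Fin d → ℝ, X c = ∏ i, c i := fun _ => rfl
    rw [e a, e b, e (a ⊓ b)]
    linarith
  have h4 : ∀ i, (a i - (a ⊓ b) i) + (b i - (a ⊓ b) i) ≤ ‖a - b‖ := by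
    intro i
    have h5 : ‖(a - b) i‖ ≤ ‖a - b‖ := norm_le_pi_norm (a - b) i
    have h6 : (a - b) i = a i - b i := rfl
    rw [h6, Real.norm_eq_abs] at h5
    have h7 : (a ⊓ b) i = min (a i) (b i) := rfl
    rw [h7]
    refine le_trans ?_ h5
    rcases le_total (a i) (b i) with h | h
    · rw [min_eq_left h, abs_sub_comm, abs_of_nonneg (sub_nonneg.mpr h)]
      linarith
    · rw [min_eq_right h, abs_of_nonneg (sub_nonneg.mpr h)]
      linarith
  calc pp a b ≤ ∑ i, ((a i - (a ⊓ b) i) + (b i - (a ⊓ b) i)) := h3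
    _ ≤ ∑ _i : Fin d, ‖a - b‖ := Finset.sum_le_sum fun i _ => h4 i
    _ = d * ‖a - b‖ := by simp
theorem G2q (ha : a ∈ Cube d) (hb : b ∈ Cube d) : qq a b ≤ d * ‖a - b‖ := by
  have h := G2 (Cube_refl ha) (Cube_refl hb)
  rw [pp_refl] at h
  have e : (fun i => 1 - a i) - (fun i => 1 - b i) = -(a - b) := by
    funext i
    show (1 - a i) - (1 - b i) = -(a i - b i)
    ring
  rwa [e, norm_neg] at h

/-- G3: if `pp a b` is small then each coordinate of `b` is relatively close to the coordinate of `a`. -/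
theorem G3 (ha : a ∈ Cube d) (hb : b ∈ Cube d) {κ : ℝ} (h : pp a b < κ) (hκ : 4 * κ ≤ X a) (i : Fin d) :
    |a i - b i| ≤ 2 * κ * a i / X a := by
  have hX := X_pos ha
  have hai := (ha i).1
  have hbi := (hb i).1
  have h0 := pp_nonneg ha hb
  have hκ0 : 0 < κ := lt_of_le_of_lt h0 h
  rw [le_div_iff₀ hX]
  rcases le_total (b i) (a i) with hab | hab
  · rw [abs_of_nonneg (sub_nonneg.mpr hab)]
    have h1 := b03_G1 ha hb i hab
    have h2 := mul_le_mul_of_nonneg_left h.le hai.le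
    have h3 : 0 ≤ κ * a i := mul_nonneg hκ0.le hai.le
    linarith
  · rw [abs_sub_comm, abs_of_nonneg (sub_nonneg.mpr hab)]
    have h1 := b03_G1 hb ha i hab
    rw [pp_comm] at h1
    have h2 := mul_le_mul_of_nonneg_left h.le hbi.le
    have h3 : X a - κ ≤ X b := by
      have := abs_le.mp (abs_X_sub_le ha hb)
      linarith [this.2]
    have h4 : 3 / 4 * X a ≤ X b := by linarith
    have hd : 0 ≤ b i - a i := sub_nonneg.mpr hab
    have h5 : 3 / 4 * X a * (b i - a i) ≤ b i * κ := by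
      have := mul_le_mul_of_nonneg_right h4 hd
      linarith
    -- `b i ≤ (3/2) a i`
    have h6 : b i * κ ≤ b i * (X a / 4) := mul_le_mul_of_nonneg_left (by linarith) hbi.le
    have h7 : X a * (3 * (b i - a i)) ≤ X a * b i := by linarith
    have h8 : 3 * (b i - a i) ≤ b i := le_of_mul_le_mul_left h7 hX
    have h9 : b i ≤ 3 / 2 * a i := by linarith
    have h10 : b i * κ ≤ 3 / 2 * a i * κ := mul_le_mul_of_nonneg_right h9 hκ0.le
    linarith
theorem G3q (ha : a ∈ Cube d) (hb : b ∈ Cube d) {κ : ℝ} (h : qq a b < κ) (hκ : 4 * κ ≤ Y a) (i : Fin d) :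
    |a i - b i| ≤ 2 * κ * (1 - a i) / Y a := by
  have h1 := G3 (Cube_refl ha) (Cube_refl hb) (κ := κ) (by rwa [pp_refl]) (by rwa [X_refl]) i
  rw [X_refl] at h1
  rwa [b03_refl_sub] at h1

end Pool.Agent.Helper14.RO
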