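import Pool.Agent.Helper14.RO.Defs

/-!
# Block 4: the basic integral is finite
-/

namespace Pool.Agent.Helper14.RO

open MeasureTheory Set
open scoped ENNReal

theorem b04_th_pos : (0 : ℝ) < th := by norm_num [th]

theorem b04_int_left : Integrable (fun t : ℝ => t ^ (th - 1)) mu1 ∧ ∫ t, t ^ (th - 1) ∂mu1 = th⁻¹ := by
  have hth := b04_th_pos
  have h1 : IntervalIntegrable (fun t : ℝ => t ^ (th - 1)) volume 0 1 :=
    intervalIntegral.intervalIntegrable_rpow' (by linarith)
  constructor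
  · have h2 := (intervalIntegrable_iff_integrableOn_Ioo_of_le (zero_le_one)).1 h1
    exact h2
  · have h3 : ∫ t, t ^ (th - 1) ∂mu1 = ∫ t in (0 : ℝ)..1, t ^ (th - 1) := by
      rw [intervalIntegral.integral_of_le zero_le_one, MeasureTheory.integral_Ioc_eq_integral_Ioo]
      rfl
    rw [h3, integral_rpow (Or.inl (by linarith))]
    have h4 : th - 1 + 1 = th := by ring
    rw [h4, Real.one_rpow, Real.zero_rpow hth.ne']
    simp

theorem b04_int_right : Integrable (fun t : ℝ => (1 - t) ^ (th - 1)) mu1 ∧ ∫ t, (1 - t) ^ (th - 1) ∂mu1 = th⁻¹ := by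
  have hth := b04_th_pos
  have h1 : IntervalIntegrable (fun t : ℝ => t ^ (th - 1)) volume 0 1 :=
    intervalIntegral.intervalIntegrable_rpow' (by linarith)
  constructor
  · have h2 := (h1.comp_sub_left 1).symm
    rw [sub_zero, sub_self] at h2
    have h3 := (intervalIntegrable_iff_integrableOn_Ioo_of_le (zero_le_one)).1 h2
    exact h3
  · have h3 : ∫ t, (1 - t) ^ (th - 1) ∂mu1 = ∫ t in (0 : ℝ)..1, (1 - t) ^ (th - 1) := by
      rw [intervalIntegral.integral_of_le zero_le_one, MeasureTheory.integral_Ioc_eq_integral_Ioo]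
      rfl
    rw [h3, intervalIntegral.integral_comp_sub_left (fun x : ℝ => x ^ (th - 1)) 1, sub_self, sub_zero,
      integral_rpow (Or.inl (by linarith))]
    have h4 : th - 1 + 1 = th := by ring
    rw [h4, Real.one_rpow, Real.zero_rpow hth.ne']
    simp

theorem b04_int_both : Integrable (fun t : ℝ => (t * (1 - t)) ^ (th - 1)) mu1 := by
  have hth := b04_th_pos
  have hth1 : th - 1 ≤ 0 := by norm_num [th]
  have h1 := (b04_int_left.1.add b04_int_right.1).const_mul ((1 / 2 : ℝ) ^ (th - 1))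
  refine h1.mono ?_ ?_
  · exact ((measurable_id.mul (measurable_const.sub measurable_id)).pow_const (th - 1)).aestronglyMeasurable
  · refine (ae_restrict_mem measurableSet_Ioo).mono fun t ht => ?_
    have ht0 : 0 < t := ht.1
    have ht1 : 0 < 1 - t := by linarith [ht.2]
    have e1 : (t * (1 - t)) ^ (th - 1) = t ^ (th - 1) * (1 - t) ^ (th - 1) := Real.mul_rpow ht0.le ht1.le
    have p1 : 0 < t ^ (th - 1) := Real.rpow_pos_of_pos ht0 _
    have p2 : 0 < (1 - t) ^ (th - 1) := Real.rpow_pos_of_pos ht1 _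
    have p3 : 0 < (1 / 2 : ℝ) ^ (th - 1) := Real.rpow_pos_of_pos (by norm_num) _
    rw [Real.norm_of_nonneg (Real.rpow_nonneg (by positivity) _), Pi.add_apply,
      Real.norm_of_nonneg (by positivity), e1]
    rcases le_total (1 / 2) t with h | h
    · have h2 : t ^ (th - 1) ≤ (1 / 2 : ℝ) ^ (th - 1) := Real.rpow_le_rpow_of_nonpos (by norm_num) h hth1
      nlinarith [mul_le_mul_of_nonneg_right h2 p2.le, mul_pos p3 p1]
    · have h2 : (1 - t) ^ (th - 1) ≤ (1 / 2 : ℝ) ^ (th - 1) :=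
        Real.rpow_le_rpow_of_nonpos (by norm_num) (by linarith) hth1
      nlinarith [mul_le_mul_of_nonneg_left h2 p1.le, mul_pos p3 p2]

theorem b04_ae_cube (d : ℕ) : ∀ᵐ a ∂mu d, ∀ i, a i ∈ Ioo (0 : ℝ) 1 := by
  rw [ae_all_iff]
  intro i
  unfold mu
  exact (Measure.quasiMeasurePreserving_eval (fun _ : Fin d => mu1) i).ae (ae_restrict_mem measurableSet_Ioo)

theorem J_ne_top (d : ℕ) : J d ≠ ⊤ := by
  have h1 : Integrable (fun a : Fin d → ℝ => ∏ i, (a i * (1 - a i)) ^ (th - 1)) (mu d) := by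
    unfold mu
    exact Integrable.fintype_prod (f := fun _ t => (t * (1 - t)) ^ (th - 1)) (fun _ => b04_int_both)
  have h2 : J d = ∫⁻ a, ENNReal.ofReal (∏ i, (a i * (1 - a i)) ^ (th - 1)) ∂mu d := by
    unfold J
    refine lintegral_congr_ae ?_
    filter_upwards [b04_ae_cube d] with a ha
    congr 1
    unfold X Y
    rw [← Finset.prod_mul_distrib]
    exact (Real.finsetProd_rpow _ _ (fun i _ => mul_nonneg (ha i).1.le (by linarith [(ha i).2])) _).symm
  rw [h2]
  exact h1.lintegral_lt_top.ne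

theorem lint_X (k : ℕ) :
    ∫⁻ a, ENNReal.ofReal (X a ^ (th - 1)) ∂mu k ≤ ENNReal.ofReal (th⁻¹ ^ k) := by
  have h1 : Integrable (fun a : Fin k → ℝ => ∏ i, (a i) ^ (th - 1)) (mu k) := by
    unfold mu
    exact Integrable.fintype_prod (f := fun _ t => t ^ (th - 1)) (fun _ => b04_int_left.1)
  have h2 : ∫⁻ a, ENNReal.ofReal (X a ^ (th - 1)) ∂mu k = ∫⁻ a, ENNReal.ofReal (∏ i, (a i) ^ (th - 1)) ∂mu k := by
    refine lintegral_congr_ae ?_
    filter_upwards [b04_ae_cube k] with a ha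
    congr 1
    unfold X
    exact (Real.finsetProd_rpow _ _ (fun i _ => (ha i).1.le) _).symm
  have h3 : 0 ≤ᵐ[mu k] fun a : Fin k → ℝ => ∏ i, (a i) ^ (th - 1) := by
    filter_upwards [b04_ae_cube k] with a ha
    exact Finset.prod_nonneg fun i _ => Real.rpow_nonneg (ha i).1.le _
  rw [h2, ← ofReal_integral_eq_lintegral_ofReal h1 h3]
  refine ENNReal.ofReal_le_ofReal (le_of_eq ?_)
  unfold mu
  rw [integral_fintype_prod_eq_prod (fun _ t => t ^ (th - 1))]
  simp [b04_int_left.2]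

theorem lint_Y (k : ℕ) :
    ∫⁻ a, ENNReal.ofReal (Y a ^ (th - 1)) ∂mu k ≤ ENNReal.ofReal (th⁻¹ ^ k) := by
  have h1 : Integrable (fun a : Fin k → ℝ => ∏ i, (1 - a i) ^ (th - 1)) (mu k) := by
    unfold mu
    exact Integrable.fintype_prod (f := fun _ t => (1 - t) ^ (th - 1)) (fun _ => b04_int_right.1)
  have h2 : ∫⁻ a, ENNReal.ofReal (Y a ^ (th - 1)) ∂mu k = ∫⁻ a, ENNReal.ofReal (∏ i, (1 - a i) ^ (th - 1)) ∂mu k := by
    refine lintegral_congr_ae ?_
    filter_upwards [b04_ae_cube k] with a ha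
    congr 1
    unfold Y
    exact (Real.finsetProd_rpow _ _ (fun i _ => by linarith [(ha i).2]) _).symm
  have h3 : 0 ≤ᵐ[mu k] fun a : Fin k → ℝ => ∏ i, (1 - a i) ^ (th - 1) := by
    filter_upwards [b04_ae_cube k] with a ha
    exact Finset.prod_nonneg fun i _ => Real.rpow_nonneg (by linarith [(ha i).2]) _
  rw [h2, ← ofReal_integral_eq_lintegral_ofReal h1 h3]
  refine ENNReal.ofReal_le_ofReal (le_of_eq ?_)
  unfold mu
  rw [integral_fintype_prod_eq_prod (fun _ t => (1 - t) ^ (th - 1))]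
  simp [b04_int_right.2]

end Pool.Agent.Helper14.RO
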