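import Pool.Agent.Helper14.RO.Defs

/-!
# Block 20: reflection, boxes and balls
-/

namespace Pool.Agent.Helper14.RO

open MeasureTheory Set
open scoped ENNReal

theorem b20_mp1 : MeasurePreserving (fun t : ℝ => 1 - t) mu1 mu1 := by
  have h := (Measure.measurePreserving_sub_left (volume : Measure ℝ) 1).restrict_preimage
    (measurableSet_Ioo (a := (0 : ℝ)) (b := 1))
  have hpre : (fun t : ℝ => 1 - t) ⁻¹' Ioo (0 : ℝ) 1 = Ioo (0 : ℝ) 1 := by
    ext t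
    simp only [mem_preimage, mem_Ioo]
    constructor <;> rintro ⟨h1, h2⟩ <;> constructor <;> linarith
  rw [hpre] at h
  exact h

/-- The reflection of the cube. -/
theorem refl_mp (d : ℕ) :
    MeasurePreserving (fun (a : Fin d → ℝ) i => 1 - a i) (mu d) (mu d) :=
  measurePreserving_pi (fun _ => mu1) (fun _ => mu1) fun _ => b20_mp1

theorem b20_seg (x c : ℝ) : mu1 {t | |x - t| ≤ c} ≤ ENNReal.ofReal (2 * c) := by
  have h1 : {t : ℝ | |x - t| ≤ c} = Metric.closedBall x c := by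
    ext t
    rw [mem_ofPred_eq, Metric.mem_closedBall, dist_comm, Real.dist_eq]
  rw [h1]
  calc mu1 (Metric.closedBall x c) ≤ volume (Metric.closedBall x c) :=
        Measure.restrict_apply_le _ _
    _ = ENNReal.ofReal (2 * c) := Real.volume_closedBall x c

theorem mu_box {d : ℕ} (a c : Fin d → ℝ) (hc : ∀ i, 0 ≤ c i) :
    mu d {b | ∀ i, |a i - b i| ≤ c i} ≤ ENNReal.ofReal (∏ i, 2 * c i) := by
  have h1 : {b : Fin d → ℝ | ∀ i, |a i - b i| ≤ c i} =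
      Set.pi univ fun i => {t : ℝ | |a i - t| ≤ c i} := by
    ext b
    simp [Set.mem_pi]
  rw [h1, mu, Measure.pi_pi, ENNReal.ofReal_prod_of_nonneg fun i _ => by
    have := hc i
    positivity]
  exact Finset.prod_le_prod' fun i _ => b20_seg (a i) (c i)

theorem mu_ball {d : ℕ} (a : Fin d → ℝ) {δ : ℝ} (hδ : 0 ≤ δ) :
    mu d {b | ‖a - b‖ ≤ δ} ≤ ENNReal.ofReal ((2 * δ) ^ d) := by
  have h1 : {b : Fin d → ℝ | ‖a - b‖ ≤ δ} = {b | ∀ i, |a i - b i| ≤ δ} := by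
    ext b
    simp only [mem_ofPred_eq]
    rw [pi_norm_le_iff_of_nonneg hδ]
    simp [Real.norm_eq_abs]
  rw [h1]
  refine (mu_box a (fun _ => δ) fun _ => hδ).trans ?_
  simp

theorem ball2 {d : ℕ} {δ : ℝ} (hδ : 0 ≤ δ) :
    ((mu d).prod (mu d)) {z | ‖z.1 - z.2‖ ≤ δ} ≤ ENNReal.ofReal ((2 * δ) ^ d) := by
  have hm : MeasurableSet {z : (Fin d → ℝ) × (Fin d → ℝ) | ‖z.1 - z.2‖ ≤ δ} :=
    (isClosed_le (by fun_prop) continuous_const).measurableSet
  rw [Measure.prod_apply hm]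
  calc ∫⁻ a, mu d (Prod.mk a ⁻¹' {z : (Fin d → ℝ) × (Fin d → ℝ) | ‖z.1 - z.2‖ ≤ δ}) ∂mu d
      ≤ ∫⁻ _, ENNReal.ofReal ((2 * δ) ^ d) ∂mu d := lintegral_mono fun a => mu_ball a hδ
    _ = ENNReal.ofReal ((2 * δ) ^ d) := by simp

end Pool.Agent.Helper14.RO
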