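import Pool.Agent.Helper14.RO.B02
import Pool.Agent.Helper14.RO.B03
import Pool.Agent.Helper14.RO.B20

/-!
# Block 5: tails of the volumes of up-sets and down-sets
-/

namespace Pool.Agent.Helper14.RO

open MeasureTheory Set
open scoped ENNReal

/-- Markov type bound with the basic integral. -/
theorem b05_main {d : ℕ} {S : Set (Fin d → ℝ)} (hS : MeasurableSet S) (g : (Fin d → ℝ) → ℝ)
    {C : ℝ} (hC : 0 ≤ C) (h : ∀ a ∈ Cube d, a ∈ S → g a ≤ C * (X a * Y a) ^ (th - 1)) :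
    ∫⁻ a in S, ENNReal.ofReal (g a) ∂mu d ≤ ENNReal.ofReal C * J d := by
  calc ∫⁻ a in S, ENNReal.ofReal (g a) ∂mu d
      ≤ ∫⁻ a in S, ENNReal.ofReal C * ENNReal.ofReal ((X a * Y a) ^ (th - 1)) ∂mu d := by
        refine setLIntegral_mono_ae' hS ?_
        filter_upwards [ae_cube d] with a ha haS
        rw [← ENNReal.ofReal_mul hC]
        exact ENNReal.ofReal_le_ofReal (h a ha haS)
    _ ≤ ∫⁻ a, ENNReal.ofReal C * ENNReal.ofReal ((X a * Y a) ^ (th - 1)) ∂mu d :=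
        setLIntegral_le_lintegral _ _
    _ = ENNReal.ofReal C * J d := by
        rw [lintegral_const_mul' _ _ ENNReal.ofReal_ne_top]
        rfl

theorem b05_th : th = 1 / 1000 := rfl

theorem b05_XY_le_X {d : ℕ} {a : Fin d → ℝ} (ha : a ∈ Cube d) : X a * Y a ≤ X a :=
  mul_le_of_le_one_right (X_pos ha).le (Y_le_one ha)

theorem b05_mul_neg {w : ℝ} (hw : 0 < w) : w ^ (1 - th) * w ^ (th - 1) = 1 := by
  rw [← Real.rpow_add hw, sub_add_sub_cancel', sub_self, Real.rpow_zero]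

theorem tail_X (d : ℕ) {x : ℝ} (hx : 0 < x) :
    mu d {a | X a < x} ≤ ENNReal.ofReal (x ^ (1 - th)) * J d := by
  have hS : MeasurableSet {a : Fin d → ℝ | X a < x} := measurableSet_lt (meas_X d) measurable_const
  have h := b05_main hS (fun _ => 1) (Real.rpow_nonneg hx.le (1 - th)) (by
    intro a ha haS
    have hw : 0 < X a * Y a := mul_pos (X_pos ha) (Y_pos ha)
    have h1 : X a * Y a ≤ x := (b05_XY_le_X ha).trans (le_of_lt haS)
    have h2 : (X a * Y a) ^ (1 - th) ≤ x ^ (1 - th) :=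
      Real.rpow_le_rpow hw.le h1 (by rw [b05_th]; norm_num)
    calc (1 : ℝ) = (X a * Y a) ^ (1 - th) * (X a * Y a) ^ (th - 1) := (b05_mul_neg hw).symm
      _ ≤ _ := mul_le_mul_of_nonneg_right h2 (Real.rpow_nonneg hw.le _))
  simpa using h

theorem tail_XY (d : ℕ) {x : ℝ} (hx : 0 < x) :
    mu d {a | X a < x ∧ Y a < x} ≤ ENNReal.ofReal (x ^ (2 - 2 * th)) * J d := by
  have hS : MeasurableSet {a : Fin d → ℝ | X a < x ∧ Y a < x} :=
    (measurableSet_lt (meas_X d) measurable_const).inter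
      (measurableSet_lt (meas_Y d) measurable_const)
  have h := b05_main hS (fun _ => 1) (Real.rpow_nonneg hx.le (2 - 2 * th)) (by
    intro a ha haS
    have hw : 0 < X a * Y a := mul_pos (X_pos ha) (Y_pos ha)
    have h1 : X a * Y a ≤ x ^ (2 : ℝ) := by
      rw [Real.rpow_two, sq]
      exact mul_le_mul (le_of_lt haS.1) (le_of_lt haS.2) (Y_pos ha).le hx.le
    have h2 : (X a * Y a) ^ (1 - th) ≤ x ^ (2 - 2 * th) := by
      have h3 : x ^ (2 - 2 * th) = (x ^ (2 : ℝ)) ^ (1 - th) := by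
        rw [← Real.rpow_mul hx.le]
        ring_nf
      rw [h3]
      exact Real.rpow_le_rpow hw.le h1 (by rw [b05_th]; norm_num)
    calc (1 : ℝ) = (X a * Y a) ^ (1 - th) * (X a * Y a) ^ (th - 1) := (b05_mul_neg hw).symm
      _ ≤ _ := mul_le_mul_of_nonneg_right h2 (Real.rpow_nonneg hw.le _))
  simpa using h

theorem tail_powX {d : ℕ} (hd : 2 ≤ d) {t : ℝ} (ht : 0 < t) :
    ∫⁻ a in {a | t ≤ X a}, ENNReal.ofReal (X a ^ (1 - d : ℝ)) ∂mu d ≤
      ENNReal.ofReal (t ^ (2 - d - th)) * J d := by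
  have hd' : (2 : ℝ) ≤ d := by exact_mod_cast hd
  have hS : MeasurableSet {a : Fin d → ℝ | t ≤ X a} := measurableSet_le measurable_const (meas_X d)
  refine b05_main hS (fun a => X a ^ (1 - d : ℝ)) (Real.rpow_nonneg ht.le _) ?_
  intro a ha haS
  have hX := X_pos ha
  have hw : 0 < X a * Y a := mul_pos hX (Y_pos ha)
  have h1 : X a ^ (1 - d : ℝ) = X a ^ (2 - d - th : ℝ) * X a ^ (th - 1) := by
    rw [← Real.rpow_add hX]
    ring_nf
  have h2 : X a ^ (2 - d - th : ℝ) ≤ t ^ (2 - d - th : ℝ) :=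
    Real.rpow_le_rpow_of_nonpos ht haS (by rw [b05_th]; linarith)
  have h3 : X a ^ (th - 1) ≤ (X a * Y a) ^ (th - 1) :=
    Real.rpow_le_rpow_of_nonpos hw (b05_XY_le_X ha) (by rw [b05_th]; norm_num)
  change X a ^ (1 - d : ℝ) ≤ _
  rw [h1]
  exact mul_le_mul h2 h3 (Real.rpow_nonneg hX.le _) (Real.rpow_nonneg ht.le _)

theorem tail_powY {d : ℕ} (hd : 3 ≤ d) {y : ℝ} (hy : 0 < y) :
    ∫⁻ a in {a | y ≤ Y a ∧ X a ≤ Y a}, ENNReal.ofReal (Y a ^ (1 - d : ℝ)) ∂mu d ≤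
      ENNReal.ofReal (y ^ (3 - d - 2 * th)) * J d := by
  have hd' : (3 : ℝ) ≤ d := by exact_mod_cast hd
  have hS : MeasurableSet {a : Fin d → ℝ | y ≤ Y a ∧ X a ≤ Y a} :=
    (measurableSet_le measurable_const (meas_Y d)).inter (measurableSet_le (meas_X d) (meas_Y d))
  refine b05_main hS (fun a => Y a ^ (1 - d : ℝ)) (Real.rpow_nonneg hy.le _) ?_
  intro a ha haS
  have hY := Y_pos ha
  have hw : 0 < X a * Y a := mul_pos (X_pos ha) hY
  have h1 : Y a ^ (1 - d : ℝ) = Y a ^ (3 - d - 2 * th : ℝ) * (Y a ^ (2 : ℝ)) ^ (th - 1) := by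
    rw [← Real.rpow_mul hY.le, ← Real.rpow_add hY]
    ring_nf
  have h2 : Y a ^ (3 - d - 2 * th : ℝ) ≤ y ^ (3 - d - 2 * th : ℝ) :=
    Real.rpow_le_rpow_of_nonpos hy haS.1 (by rw [b05_th]; linarith)
  have h4 : X a * Y a ≤ Y a ^ (2 : ℝ) := by
    rw [Real.rpow_two, sq]
    exact mul_le_mul_of_nonneg_right haS.2 hY.le
  have h3 : (Y a ^ (2 : ℝ)) ^ (th - 1) ≤ (X a * Y a) ^ (th - 1) :=
    Real.rpow_le_rpow_of_nonpos hw h4 (by rw [b05_th]; norm_num)
  change Y a ^ (1 - d : ℝ) ≤ _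
  rw [h1]
  exact mul_le_mul h2 h3 (Real.rpow_nonneg (Real.rpow_nonneg hY.le _) _) (Real.rpow_nonneg hy.le _)

end Pool.Agent.Helper14.RO
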