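import Pool.Agent.Helper14.RO.B05

/-!
# Block 6: few pairs of points have up-sets or down-sets with a small symmetric difference
-/

namespace Pool.Agent.Helper14.RO

open MeasureTheory Set
open scoped ENNReal

theorem b06_prod {d : ℕ} {κ x : ℝ} (hx : 0 < x) (c : Fin d → ℝ) (hc : ∏ i, c i = x) :
    ∏ i, 2 * (2 * κ * c i / x) = (4 * κ) ^ d * x ^ (1 - d : ℝ) := by
  have h1 : ∀ i, 2 * (2 * κ * c i / x) = (4 * κ / x) * c i := fun i => by ring
  rw [Finset.prod_congr rfl fun i _ => h1 i, Finset.prod_mul_distrib, hc, Finset.prod_const, Finset.card_univ,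
    Fintype.card_fin, Real.rpow_sub hx, Real.rpow_one, Real.rpow_natCast, div_pow]
  ring

theorem b06_slice {d : ℕ} {a : Fin d → ℝ} (ha : a ∈ Cube d) {κ : ℝ} (hκ : 0 < κ) (h4 : 4 * κ ≤ X a) :
    mu d {b | pp a b < κ} ≤ ENNReal.ofReal ((4 * κ) ^ d) * ENNReal.ofReal (X a ^ (1 - d : ℝ)) := by
  have hX := X_pos ha
  have h1 : mu d {b | pp a b < κ} ≤ mu d {b | ∀ i, |a i - b i| ≤ 2 * κ * a i / X a} := by
    refine measure_mono_ae ?_
    filter_upwards [ae_cube d] with b hb h i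
    exact G3 ha hb h h4 i
  refine h1.trans ((mu_box a (fun i => 2 * κ * a i / X a) fun i => ?_).trans (le_of_eq ?_))
  · have h2 := (ha i).1
    positivity
  · rw [b06_prod hX a rfl, ENNReal.ofReal_mul (by positivity)]

theorem b06_sliceq {d : ℕ} {a : Fin d → ℝ} (ha : a ∈ Cube d) {κ : ℝ} (hκ : 0 < κ) (h4 : 4 * κ ≤ Y a) :
    mu d {b | qq a b < κ} ≤ ENNReal.ofReal ((4 * κ) ^ d) * ENNReal.ofReal (Y a ^ (1 - d : ℝ)) := by
  have hY := Y_pos ha
  have h1 : mu d {b | qq a b < κ} ≤ mu d {b | ∀ i, |a i - b i| ≤ 2 * κ * (1 - a i) / Y a} := by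
    refine measure_mono_ae ?_
    filter_upwards [ae_cube d] with b hb h i
    exact G3q ha hb h h4 i
  refine h1.trans ((mu_box a (fun i => 2 * κ * (1 - a i) / Y a) fun i => ?_).trans (le_of_eq ?_))
  · have h2 : 0 < 1 - a i := by
      have := (ha i).2
      linarith
    positivity
  · rw [b06_prod hY (fun i => 1 - a i) rfl, ENNReal.ofReal_mul (by positivity)]

theorem b06_int {d : ℕ} {A : Set (Fin d → ℝ)} (hA : MeasurableSet A) {S : Set ((Fin d → ℝ) × (Fin d → ℝ))}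
    (hS : MeasurableSet S) (f : (Fin d → ℝ) → ℝ≥0∞) (h : ∀ a ∈ Cube d, a ∈ A → mu d {b | (a, b) ∈ S} ≤ f a)
    (hSA : ∀ z ∈ S, z.1 ∈ A) : ((mu d).prod (mu d)) S ≤ ∫⁻ a in A, f a ∂mu d := by
  rw [Measure.prod_apply hS, ← lintegral_indicator hA]
  refine lintegral_mono_ae ?_
  filter_upwards [ae_cube d] with a ha
  by_cases haA : a ∈ A
  · rw [indicator_of_mem haA]
    exact h a ha haA
  · have h1 : Prod.mk a ⁻¹' S = ∅ := by
      rw [Set.eq_empty_iff_forall_notMem]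
      intro b hb
      exact haA (hSA _ hb)
    rw [h1, measure_empty]
    exact zero_le

theorem b06_const {d : ℕ} {A : Set (Fin d → ℝ)} (c : ℝ) (f : (Fin d → ℝ) → ℝ) (hf : Measurable f)
    {u : ℝ} {K : ℝ≥0∞} (hc : 0 ≤ c) (h : ∫⁻ a in A, ENNReal.ofReal (f a) ∂mu d ≤ ENNReal.ofReal u * K) :
    ∫⁻ a in A, ENNReal.ofReal c * ENNReal.ofReal (f a) ∂mu d ≤ ENNReal.ofReal (c * u) * K := by
  rw [lintegral_const_mul _ hf.ennreal_ofReal, ENNReal.ofReal_mul hc, mul_assoc]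
  exact mul_le_mul_right h _

theorem small_pp {d : ℕ} (hd : 2 ≤ d) {κ : ℝ} (hκ : 0 < κ) :
    ((mu d).prod (mu d)) {z | pp z.1 z.2 < κ} ≤
      ENNReal.ofReal ((4 * κ) ^ (2 - th)) * J d + (ENNReal.ofReal ((5 * κ) ^ (1 - th)) * J d) ^ 2 := by
  have hm : MeasurableSet {z : (Fin d → ℝ) × (Fin d → ℝ) | pp z.1 z.2 < κ} := measurableSet_lt (meas_pp d) measurable_const
  have hX1 : Measurable fun z : (Fin d → ℝ) × (Fin d → ℝ) => X z.1 := (meas_X d).comp measurable_fst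
  have hsub : {z : (Fin d → ℝ) × (Fin d → ℝ) | pp z.1 z.2 < κ} ⊆
      {z | pp z.1 z.2 < κ ∧ 4 * κ ≤ X z.1} ∪ {z | pp z.1 z.2 < κ ∧ X z.1 < 4 * κ} := by
    intro z hz
    rcases le_or_gt (4 * κ) (X z.1) with h | h
    · exact Or.inl ⟨hz, h⟩
    · exact Or.inr ⟨hz, h⟩
  refine (measure_mono hsub).trans ((measure_union_le _ _).trans (add_le_add ?_ ?_))
  · have h1 := b06_int (A := {a : Fin d → ℝ | 4 * κ ≤ X a}) (measurableSet_le measurable_const (meas_X d))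
      (S := {z | pp z.1 z.2 < κ ∧ 4 * κ ≤ X z.1}) (hm.inter (measurableSet_le measurable_const hX1))
      (fun a => ENNReal.ofReal ((4 * κ) ^ d) * ENNReal.ofReal (X a ^ (1 - d : ℝ)))
      (fun a ha h4 => (measure_mono fun b hb => hb.1).trans (b06_slice ha hκ h4)) (fun z hz => hz.2)
    refine h1.trans ((b06_const ((4 * κ) ^ d) (fun a => X a ^ (1 - d : ℝ)) ((meas_X d).pow_const _) (by positivity)
      (tail_powX hd (by positivity : (0 : ℝ) < 4 * κ))).trans (le_of_eq ?_))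
    congr 2
    rw [← Real.rpow_natCast, ← Real.rpow_add (by positivity)]
    congr 1
    ring
  · have h1 : ((mu d).prod (mu d)) {z | pp z.1 z.2 < κ ∧ X z.1 < 4 * κ} ≤
        ((mu d).prod (mu d)) ({a | X a < 5 * κ} ×ˢ {a | X a < 5 * κ}) := by
      refine measure_mono_ae ?_
      have hc1 : ∀ᵐ z ∂((mu d).prod (mu d)), z.1 ∈ Cube d := Measure.quasiMeasurePreserving_fst.ae (ae_cube d)
      have hc2 : ∀ᵐ z ∂((mu d).prod (mu d)), z.2 ∈ Cube d := Measure.quasiMeasurePreserving_snd.ae (ae_cube d)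
      filter_upwards [hc1, hc2] with z h1 h2 h3
      have h3' : pp z.1 z.2 < κ ∧ X z.1 < 4 * κ := h3
      have h4 := abs_le.1 (abs_X_sub_le h1 h2)
      refine ⟨?_, ?_⟩
      · change X z.1 < 5 * κ
        linarith [h3'.2]
      · change X z.2 < 5 * κ
        linarith [h3'.2, h3'.1, h4.1]
    refine h1.trans ?_
    rw [Measure.prod_prod, sq]
    have h2 := tail_X d (by positivity : (0 : ℝ) < 5 * κ)
    exact mul_le_mul' h2 h2

theorem b06_refl2 (d : ℕ) : MeasurePreserving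
    (fun z : (Fin d → ℝ) × (Fin d → ℝ) => ((fun i => 1 - z.1 i : Fin d → ℝ), (fun i => 1 - z.2 i : Fin d → ℝ)))
    ((mu d).prod (mu d)) ((mu d).prod (mu d)) :=
  (refl_mp d).prod (refl_mp d)

theorem small_qq {d : ℕ} (hd : 2 ≤ d) {κ : ℝ} (hκ : 0 < κ) :
    ((mu d).prod (mu d)) {z | qq z.1 z.2 < κ} ≤
      ENNReal.ofReal ((4 * κ) ^ (2 - th)) * J d + (ENNReal.ofReal ((5 * κ) ^ (1 - th)) * J d) ^ 2 := by
  have hm : MeasurableSet {z : (Fin d → ℝ) × (Fin d → ℝ) | pp z.1 z.2 < κ} := measurableSet_lt (meas_pp d) measurable_const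
  have h1 := (b06_refl2 d).measure_preimage hm.nullMeasurableSet
  have h2 : (fun z : (Fin d → ℝ) × (Fin d → ℝ) => ((fun i => 1 - z.1 i : Fin d → ℝ), (fun i => 1 - z.2 i : Fin d → ℝ))) ⁻¹'
      {z | pp z.1 z.2 < κ} = {z | qq z.1 z.2 < κ} := by
    ext z
    change pp (fun i => 1 - z.1 i) (fun i => 1 - z.2 i) < κ ↔ qq z.1 z.2 < κ
    rw [pp_refl]
  rw [← h2, h1]
  exact small_pp hd hκ

theorem b06_halfq {d : ℕ} (hd : 3 ≤ d) {κ y : ℝ} (hκ : 0 < κ) (hy : 4 * κ ≤ y) :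
    ((mu d).prod (mu d)) {z | qq z.1 z.2 < κ ∧ y ≤ Y z.1 ∧ X z.1 ≤ Y z.1} ≤
      ENNReal.ofReal ((4 * κ) ^ d * y ^ (3 - d - 2 * th)) * J d := by
  have hy0 : 0 < y := by linarith
  have hX1 : Measurable fun z : (Fin d → ℝ) × (Fin d → ℝ) => X z.1 := (meas_X d).comp measurable_fst
  have hY1 : Measurable fun z : (Fin d → ℝ) × (Fin d → ℝ) => Y z.1 := (meas_Y d).comp measurable_fst
  have h1 := b06_int (A := {a : Fin d → ℝ | y ≤ Y a ∧ X a ≤ Y a})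
    ((measurableSet_le measurable_const (meas_Y d)).inter (measurableSet_le (meas_X d) (meas_Y d)))
    (S := {z | qq z.1 z.2 < κ ∧ y ≤ Y z.1 ∧ X z.1 ≤ Y z.1})
    ((measurableSet_lt (meas_qq d) measurable_const).inter
      ((measurableSet_le measurable_const hY1).inter (measurableSet_le hX1 hY1)))
    (fun a => ENNReal.ofReal ((4 * κ) ^ d) * ENNReal.ofReal (Y a ^ (1 - d : ℝ)))
    (fun a ha h4 => (measure_mono fun b hb => hb.1).trans (b06_sliceq ha hκ (hy.trans h4.1))) (fun z hz => hz.2)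
  exact h1.trans (b06_const ((4 * κ) ^ d) (fun a => Y a ^ (1 - d : ℝ)) ((meas_Y d).pow_const _) (by positivity)
    (tail_powY hd hy0))

theorem b06_halfp {d : ℕ} (hd : 3 ≤ d) {κ y : ℝ} (hκ : 0 < κ) (hy : 4 * κ ≤ y) :
    ((mu d).prod (mu d)) {z | pp z.1 z.2 < κ ∧ y ≤ X z.1 ∧ Y z.1 ≤ X z.1} ≤
      ENNReal.ofReal ((4 * κ) ^ d * y ^ (3 - d - 2 * th)) * J d := by
  have hX1 : Measurable fun z : (Fin d → ℝ) × (Fin d → ℝ) => X z.1 := (meas_X d).comp measurable_fst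
  have hY1 : Measurable fun z : (Fin d → ℝ) × (Fin d → ℝ) => Y z.1 := (meas_Y d).comp measurable_fst
  have hm : MeasurableSet {z : (Fin d → ℝ) × (Fin d → ℝ) | qq z.1 z.2 < κ ∧ y ≤ Y z.1 ∧ X z.1 ≤ Y z.1} :=
    (measurableSet_lt (meas_qq d) measurable_const).inter
      ((measurableSet_le measurable_const hY1).inter (measurableSet_le hX1 hY1))
  have h1 := (b06_refl2 d).measure_preimage hm.nullMeasurableSet
  have h2 : (fun z : (Fin d → ℝ) × (Fin d → ℝ) => ((fun i => 1 - z.1 i : Fin d → ℝ), (fun i => 1 - z.2 i : Fin d → ℝ))) ⁻¹'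
      {z | qq z.1 z.2 < κ ∧ y ≤ Y z.1 ∧ X z.1 ≤ Y z.1} = {z | pp z.1 z.2 < κ ∧ y ≤ X z.1 ∧ Y z.1 ≤ X z.1} := by
    ext z
    change qq (fun i => 1 - z.1 i) (fun i => 1 - z.2 i) < κ ∧ y ≤ Y (fun i => 1 - z.1 i) ∧
      X (fun i => 1 - z.1 i) ≤ Y (fun i => 1 - z.1 i) ↔ pp z.1 z.2 < κ ∧ y ≤ X z.1 ∧ Y z.1 ≤ X z.1
    rw [qq_refl, X_refl, Y_refl]
  rw [← h2, h1]
  exact b06_halfq hd hκ hy

theorem small_both {d : ℕ} (hd : 3 ≤ d) {κ y : ℝ} (hκ : 0 < κ) (hy : 4 * κ ≤ y) :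
    ((mu d).prod (mu d)) {z | pp z.1 z.2 < κ ∧ qq z.1 z.2 < κ ∧ (y ≤ X z.1 ∨ y ≤ Y z.1)} ≤
      2 * (ENNReal.ofReal ((4 * κ) ^ d * y ^ (3 - d - 2 * th)) * J d) := by
  have hsub : {z : (Fin d → ℝ) × (Fin d → ℝ) | pp z.1 z.2 < κ ∧ qq z.1 z.2 < κ ∧ (y ≤ X z.1 ∨ y ≤ Y z.1)} ⊆
      {z | qq z.1 z.2 < κ ∧ y ≤ Y z.1 ∧ X z.1 ≤ Y z.1} ∪ {z | pp z.1 z.2 < κ ∧ y ≤ X z.1 ∧ Y z.1 ≤ X z.1} := by
    rintro z ⟨h1, h2, h3⟩
    rcases le_total (X z.1) (Y z.1) with h | h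
    · refine Or.inl ⟨h2, ?_, h⟩
      rcases h3 with h3 | h3
      · exact h3.trans h
      · exact h3
    · refine Or.inr ⟨h1, ?_, h⟩
      rcases h3 with h3 | h3
      · exact h3
      · exact h3.trans h
  refine (measure_mono hsub).trans ((measure_union_le _ _).trans ?_)
  rw [two_mul]
  exact add_le_add (b06_halfq hd hκ hy) (b06_halfp hd hκ hy)

end Pool.Agent.Helper14.RO
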