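import Pool.Agent.Helper14.RO.Defs

/-!
# Block 7: an area lemma
-/

namespace Pool.Agent.Helper14.RO

open MeasureTheory Set
open scoped ENNReal

/-- the set of `t` with `(t-m)^2` in an interval of length `δ` -/
lemma b07_slice (m a δ : ℝ) (hδ : 0 ≤ δ) :
    (volume : Measure ℝ) {t | a ≤ (t - m) ^ 2 ∧ (t - m) ^ 2 ≤ a + δ} ≤ ENNReal.ofReal (2 * Real.sqrt δ) := by
  have hsub : Real.sqrt (a + δ) ≤ Real.sqrt a + Real.sqrt δ := by
    rcases le_or_gt 0 a with ha | ha
    · rw [Real.sqrt_le_left (by positivity)]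
      nlinarith [Real.sq_sqrt ha, Real.sq_sqrt hδ, Real.sqrt_nonneg a, Real.sqrt_nonneg δ]
    · rw [Real.sqrt_eq_zero_of_nonpos ha.le, zero_add]
      exact Real.sqrt_le_sqrt (by linarith)
  have h1 : {t | a ≤ (t - m) ^ 2 ∧ (t - m) ^ 2 ≤ a + δ} ⊆
      Icc (m + Real.sqrt a) (m + Real.sqrt (a + δ)) ∪ Icc (m - Real.sqrt (a + δ)) (m - Real.sqrt a) := by
    rintro t ⟨h2, h3⟩
    have h4 : Real.sqrt a ≤ |t - m| := by
      rw [← Real.sqrt_sq_eq_abs]
      exact Real.sqrt_le_sqrt h2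
    have h5 : |t - m| ≤ Real.sqrt (a + δ) := by
      rw [← Real.sqrt_sq_eq_abs]
      exact Real.sqrt_le_sqrt h3
    rcases le_total 0 (t - m) with h6 | h6
    · left
      rw [abs_of_nonneg h6] at h4 h5
      exact ⟨by linarith, by linarith⟩
    · right
      rw [abs_of_nonpos h6] at h4 h5
      exact ⟨by linarith, by linarith⟩
  calc (volume : Measure ℝ) {t | a ≤ (t - m) ^ 2 ∧ (t - m) ^ 2 ≤ a + δ}
      ≤ volume (Icc (m + Real.sqrt a) (m + Real.sqrt (a + δ)) ∪ Icc (m - Real.sqrt (a + δ)) (m - Real.sqrt a)) :=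
        measure_mono h1
    _ ≤ volume (Icc (m + Real.sqrt a) (m + Real.sqrt (a + δ))) + volume (Icc (m - Real.sqrt (a + δ)) (m - Real.sqrt a)) :=
        measure_union_le _ _
    _ = ENNReal.ofReal (Real.sqrt (a + δ) - Real.sqrt a) + ENNReal.ofReal (Real.sqrt (a + δ) - Real.sqrt a) := by
        rw [Real.volume_Icc, Real.volume_Icc]
        congr 2 <;> ring
    _ ≤ ENNReal.ofReal (Real.sqrt δ) + ENNReal.ofReal (Real.sqrt δ) :=
        add_le_add (ENNReal.ofReal_le_ofReal (by linarith)) (ENNReal.ofReal_le_ofReal (by linarith))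
    _ = ENNReal.ofReal (2 * Real.sqrt δ) := by
        rw [← ENNReal.ofReal_add (Real.sqrt_nonneg _) (Real.sqrt_nonneg _)]
        congr 1
        ring

theorem area {h c e x₀ y₀ : ℝ} (hh : 0 < h) (hc : 0 < c) (he : 0 < e) :
    (mu1.prod mu1) {z | |c * (z.1 * z.2) - x₀| ≤ h ∧ |e * ((1 - z.1) * (1 - z.2)) - y₀| ≤ h} ≤
      ENNReal.ofReal (8 * (h / c + h / e) ^ (3 / 2 : ℝ)) := by
  set E : Set (ℝ × ℝ) := {z | |c * (z.1 * z.2) - x₀| ≤ h ∧ |e * ((1 - z.1) * (1 - z.2)) - y₀| ≤ h} with hE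
  have hEm : MeasurableSet E := by
    have c1 : Continuous fun z : ℝ × ℝ => |c * (z.1 * z.2) - x₀| := by fun_prop
    have c2 : Continuous fun z : ℝ × ℝ => |e * ((1 - z.1) * (1 - z.2)) - y₀| := by fun_prop
    exact (isClosed_le c1 continuous_const).measurableSet.inter
      (isClosed_le c2 continuous_const).measurableSet
  set r : ℝ := h / c + h / e with hr
  have hr0 : 0 < r := by positivity
  have hle : (mu1.prod mu1) E ≤ ((volume : Measure ℝ).prod (volume : Measure ℝ)) E := by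
    unfold mu1
    rw [Measure.prod_restrict]
    exact Measure.restrict_le_self E
  refine hle.trans ?_
  -- shear
  have hmp := measurePreserving_prod_neg_add (volume : Measure ℝ) (volume : Measure ℝ)
  rw [← hmp.measure_preimage hEm.nullMeasurableSet]
  have hpm : MeasurableSet ((fun z : ℝ × ℝ => (z.1, -z.1 + z.2)) ⁻¹' E) := hmp.measurable hEm
  rw [Measure.prod_apply_symm hpm]
  set I : Set ℝ := Icc (1 + (x₀ / c - h / c) - (y₀ / e + h / e)) (1 + (x₀ / c + h / c) - (y₀ / e - h / e)) with hI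
  have hbound : ∀ S : ℝ, (volume : Measure ℝ) ((fun x => (x, S)) ⁻¹' ((fun z : ℝ × ℝ => (z.1, -z.1 + z.2)) ⁻¹' E))
      ≤ I.indicator (fun _ => ENNReal.ofReal (2 * Real.sqrt (2 * r))) S := by
    intro S
    have key : ∀ t : ℝ, (t, -t + S) ∈ E → (x₀ / c - h / c ≤ t * (-t + S) ∧ t * (-t + S) ≤ x₀ / c + h / c) ∧
        (y₀ / e - h / e ≤ (1 - t) * (1 - (-t + S)) ∧ (1 - t) * (1 - (-t + S)) ≤ y₀ / e + h / e) := by
      rintro t ⟨h1, h2⟩
      rw [abs_le] at h1 h2
      simp only at h1 h2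
      refine ⟨⟨?_, ?_⟩, ?_, ?_⟩
      · rw [← sub_div, div_le_iff₀ hc]
        nlinarith [h1.1]
      · rw [← add_div, le_div_iff₀ hc]
        nlinarith [h1.2]
      · rw [← sub_div, div_le_iff₀ he]
        nlinarith [h2.1]
      · rw [← add_div, le_div_iff₀ he]
        nlinarith [h2.2]
    by_cases hS : S ∈ I
    · rw [Set.indicator_of_mem hS]
      refine (measure_mono (t := {t | (S ^ 2 / 4 - x₀ / c - h / c) ≤ (t - S / 2) ^ 2 ∧
        (t - S / 2) ^ 2 ≤ (S ^ 2 / 4 - x₀ / c - h / c) + 2 * (h / c)}) ?_).trans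
        ((b07_slice (S / 2) _ (2 * (h / c)) (by positivity)).trans ?_)
      · intro t ht
        obtain ⟨⟨h1, h2⟩, -⟩ := key t ht
        constructor
        · nlinarith
        · nlinarith
      · apply ENNReal.ofReal_le_ofReal
        apply mul_le_mul_of_nonneg_left _ (by norm_num)
        apply Real.sqrt_le_sqrt
        have : 0 < h / e := by positivity
        rw [hr]
        linarith
    · rw [Set.indicator_of_notMem hS]
      have hemp : (fun x => (x, S)) ⁻¹' ((fun z : ℝ × ℝ => (z.1, -z.1 + z.2)) ⁻¹' E) = ∅ := by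
        apply Set.eq_empty_of_forall_notMem
        intro t ht
        obtain ⟨⟨h1, h2⟩, h3, h4⟩ := key t ht
        apply hS
        constructor
        · nlinarith
        · nlinarith
      rw [hemp, measure_empty]
  refine (lintegral_mono hbound).trans ?_
  rw [lintegral_indicator measurableSet_Icc, setLIntegral_const, Real.volume_Icc,
    ← ENNReal.ofReal_mul (by positivity)]
  apply ENNReal.ofReal_le_ofReal
  have h1 : 1 + (x₀ / c + h / c) - (y₀ / e - h / e) - (1 + (x₀ / c - h / c) - (y₀ / e + h / e)) = 2 * r := by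
    rw [hr]; ring
  rw [h1]
  have h2 : r ^ (3 / 2 : ℝ) = r * Real.sqrt r := by
    rw [Real.sqrt_eq_rpow, ← Real.rpow_one_add' hr0.le (by norm_num)]
    norm_num
  rw [h2, Real.sqrt_mul (by norm_num)]
  have h3 : Real.sqrt 2 ≤ 2 := by
    rw [Real.sqrt_le_left (by norm_num)]
    norm_num
  have h4 : 0 ≤ r * Real.sqrt r := by positivity
  nlinarith [mul_le_mul_of_nonneg_right h3 h4]

end Pool.Agent.Helper14.RO
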