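import Pool.Agent.Helper14.RO.B02
import Pool.Agent.Helper14.RO.B03
import Pool.Agent.Helper14.RO.B20
import Pool.Agent.Helper14.RO.B04
import Pool.Agent.Helper14.RO.B07

/-!
# Block 8: the slices
-/

namespace Pool.Agent.Helper14.RO

open MeasureTheory Set
open scoped ENNReal

/-- The point with two coordinates added. -/
def b08_F {k : ℕ} (z : (ℝ × ℝ) × (Fin k → ℝ)) : Fin (k + 2) → ℝ :=
  Fin.cons z.1.1 (Fin.cons z.1.2 z.2)

theorem b08_mp (k : ℕ) :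
    MeasurePreserving (b08_F (k := k)) ((mu1.prod mu1).prod (mu k)) (mu (k + 2)) := by
  have h1 : MeasurePreserving (MeasurableEquiv.piFinSuccAbove (fun _ : Fin (k + 1) => ℝ) 0).symm
      (mu1.prod (mu k)) (mu (k + 1)) :=
    (measurePreserving_piFinSuccAbove (fun _ : Fin (k + 1) => mu1) 0).symm _
  have h2 : MeasurePreserving (MeasurableEquiv.piFinSuccAbove (fun _ : Fin (k + 2) => ℝ) 0).symm
      (mu1.prod (mu (k + 1))) (mu (k + 2)) :=
    (measurePreserving_piFinSuccAbove (fun _ : Fin (k + 2) => mu1) 0).symm _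
  have h3 : MeasurePreserving (Prod.map (id : ℝ → ℝ)
      (MeasurableEquiv.piFinSuccAbove (fun _ : Fin (k + 1) => ℝ) 0).symm)
      (mu1.prod (mu1.prod (mu k))) (mu1.prod (mu (k + 1))) := (MeasurePreserving.id mu1).prod h1
  have h4 : MeasurePreserving (MeasurableEquiv.prodAssoc : (ℝ × ℝ) × (Fin k → ℝ) ≃ᵐ ℝ × ℝ × (Fin k → ℝ))
      ((mu1.prod mu1).prod (mu k)) (mu1.prod (mu1.prod (mu k))) :=
    measurePreserving_prodAssoc mu1 mu1 (mu k)
  have h5 := h2.comp (h3.comp h4)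
  have e : (b08_F (k := k)) = (MeasurableEquiv.piFinSuccAbove (fun _ : Fin (k + 2) => ℝ) 0).symm ∘
      (Prod.map (id : ℝ → ℝ) (MeasurableEquiv.piFinSuccAbove (fun _ : Fin (k + 1) => ℝ) 0).symm) ∘
      (MeasurableEquiv.prodAssoc : (ℝ × ℝ) × (Fin k → ℝ) ≃ᵐ ℝ × ℝ × (Fin k → ℝ)) := by
    funext z
    obtain ⟨⟨t, u⟩, v⟩ := z
    change (Fin.cons t (Fin.cons u v) : Fin (k + 2) → ℝ) =
      Fin.insertNth 0 t (Fin.insertNth 0 u v : Fin (k + 1) → ℝ)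
    rw [Fin.insertNth_zero', Fin.insertNth_zero']
  rw [e]
  exact h5

theorem b08_X {k : ℕ} (z : (ℝ × ℝ) × (Fin k → ℝ)) : X (b08_F z) = z.1.1 * (z.1.2 * X z.2) := by
  unfold X b08_F
  rw [Fin.prod_univ_succ, Fin.prod_univ_succ]
  simp

theorem b08_Y {k : ℕ} (z : (ℝ × ℝ) × (Fin k → ℝ)) :
    Y (b08_F z) = (1 - z.1.1) * ((1 - z.1.2) * Y z.2) := by
  unfold Y b08_F
  rw [Fin.prod_univ_succ, Fin.prod_univ_succ]
  simp

theorem b08_ae : ∀ᵐ z ∂(mu1.prod mu1), z ∈ Ioo (0 : ℝ) 1 ×ˢ Ioo (0 : ℝ) 1 := by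
  unfold mu1
  rw [Measure.prod_restrict]
  exact ae_restrict_mem (measurableSet_Ioo.prod measurableSet_Ioo)

theorem b08_three : (3 : ℝ) ^ (1 / 2 + th) ≤ 7 / 4 := by
  have h1 : (3 : ℝ) ^ (1 / 2 + th) ≤ (3 : ℝ) ^ (101 / 200 : ℝ) := by
    refine Real.rpow_le_rpow_of_exponent_le (by norm_num) ?_
    unfold th
    norm_num
  refine h1.trans ?_
  have h2 : ((3 : ℝ) ^ (101 / 200 : ℝ)) ^ 200 ≤ (7 / 4 : ℝ) ^ 200 := by
    rw [← Real.rpow_natCast, ← Real.rpow_mul (by norm_num)]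
    have e : (101 / 200 : ℝ) * ((200 : ℕ) : ℝ) = ((101 : ℕ) : ℝ) := by norm_num
    rw [e, Real.rpow_natCast]
    norm_num
  exact le_of_pow_le_pow_left₀ (by norm_num) (by norm_num) h2

theorem b08_pow {x y : ℝ} (hx : 0 ≤ x) (hy : 0 ≤ y) :
    (x + y) ^ (3 / 2 : ℝ) ≤ (2 : ℝ) ^ (1 / 2 : ℝ) * (x ^ (3 / 2 : ℝ) + y ^ (3 / 2 : ℝ)) := by
  lift x to NNReal using hx
  lift y to NNReal using hy
  have h := NNReal.rpow_add_le_mul_rpow_add_rpow x y (p := 3 / 2) (by norm_num)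
  have h3 := NNReal.coe_le_coe.2 h
  push_cast at h3
  have e : (3 / 2 : ℝ) - 1 = 1 / 2 := by norm_num
  rw [e] at h3
  exact h3

theorem b08_one {h c A : ℝ} (hh : 0 < h) (hA : 0 < A) (hc : A ≤ 3 * c) :
    (h / c) ^ (3 / 2 : ℝ) ≤ h ^ (3 / 2 : ℝ) * (7 / 4 * A ^ (-(1 / 2) - th) * c ^ (th - 1)) := by
  have hc0 : 0 < c := by linarith
  rw [Real.div_rpow hh.le hc0.le, div_eq_mul_inv, ← Real.rpow_neg hc0.le]
  refine mul_le_mul_of_nonneg_left ?_ (Real.rpow_nonneg hh.le _)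
  have e : (-(3 / 2) : ℝ) = (-(1 / 2) - th) + (th - 1) := by ring
  rw [e, Real.rpow_add hc0]
  refine mul_le_mul_of_nonneg_right ?_ (Real.rpow_nonneg hc0.le _)
  have hneg : (-(1 / 2) - th : ℝ) ≤ 0 := by
    unfold th
    norm_num
  have h1 : c ^ (-(1 / 2) - th : ℝ) ≤ (A / 3) ^ (-(1 / 2) - th : ℝ) :=
    Real.rpow_le_rpow_of_nonpos (by positivity) (by linarith) hneg
  refine h1.trans ?_
  rw [Real.div_rpow hA.le (by norm_num)]
  have e2 : A ^ (-(1 / 2) - th : ℝ) / (3 : ℝ) ^ (-(1 / 2) - th : ℝ) =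
      (3 : ℝ) ^ (1 / 2 + th : ℝ) * A ^ (-(1 / 2) - th : ℝ) := by
    have e3 : (-(1 / 2) - th : ℝ) = -(1 / 2 + th) := by ring
    rw [e3, Real.rpow_neg (by norm_num : (0 : ℝ) ≤ 3), div_inv_eq_mul, mul_comm]
  rw [e2]
  exact mul_le_mul_of_nonneg_right b08_three (Real.rpow_nonneg hA.le _)

theorem b08_num {h c e A B : ℝ} (hh : 0 < h) (hA : 0 < A) (hB : 0 < B) (hc : A ≤ 3 * c)
    (he : B ≤ 3 * e) : 8 * (h / c + h / e) ^ (3 / 2 : ℝ) ≤
      20 * h ^ (3 / 2 : ℝ) * A ^ (-(1 / 2) - th) * c ^ (th - 1) +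
      20 * h ^ (3 / 2 : ℝ) * B ^ (-(1 / 2) - th) * e ^ (th - 1) := by
  have hc0 : 0 < c := by linarith
  have he0 : 0 < e := by linarith
  have h1 := b08_pow (x := h / c) (y := h / e) (by positivity) (by positivity)
  have h2 := b08_one hh hA hc
  have h3 := b08_one hh hB he
  have h4 : (2 : ℝ) ^ (1 / 2 : ℝ) ≤ 1.415 := by
    rw [← Real.sqrt_eq_rpow, Real.sqrt_le_left (by norm_num)]
    norm_num
  have h5 : 0 ≤ (h / c) ^ (3 / 2 : ℝ) + (h / e) ^ (3 / 2 : ℝ) := by positivity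
  have h6 : (h / c + h / e) ^ (3 / 2 : ℝ) ≤ 1.415 * ((h / c) ^ (3 / 2 : ℝ) + (h / e) ^ (3 / 2 : ℝ)) :=
    h1.trans (mul_le_mul_of_nonneg_right h4 h5)
  have p1 : 0 ≤ h ^ (3 / 2 : ℝ) * (A ^ (-(1 / 2) - th) * c ^ (th - 1)) := by positivity
  have p2 : 0 ≤ h ^ (3 / 2 : ℝ) * (B ^ (-(1 / 2) - th) * e ^ (th - 1)) := by positivity
  nlinarith

theorem slice {k : ℕ} {a : Fin (k + 2) → ℝ} (ha : a ∈ Cube (k + 2)) {h : ℝ} (hh : 0 < h) :
    mu (k + 2) {b | |X b - X a| ≤ h ∧ |Y b - Y a| ≤ h ∧ X a ≤ 3 * X b ∧ Y a ≤ 3 * Y b} ≤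
      ENNReal.ofReal (20 * th⁻¹ ^ k * h ^ (3 / 2 : ℝ) *
        (X a ^ (-(1 / 2) - th) + Y a ^ (-(1 / 2) - th))) := by
  have hX : 0 < X a := X_pos ha
  have hY : 0 < Y a := Y_pos ha
  have hth : 0 < th := by
    unfold th
    norm_num
  set S : Set (Fin (k + 2) → ℝ) := {b | |X b - X a| ≤ h ∧ |Y b - Y a| ≤ h ∧ X a ≤ 3 * X b ∧ Y a ≤ 3 * Y b} with hSd
  have hS : MeasurableSet S := by
    have m1 : Measurable fun b : Fin (k + 2) → ℝ => |X b - X a| :=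
      continuous_abs.measurable.comp ((meas_X (k + 2)).sub_const _)
    have m2 : Measurable fun b : Fin (k + 2) → ℝ => |Y b - Y a| :=
      continuous_abs.measurable.comp ((meas_Y (k + 2)).sub_const _)
    exact (measurableSet_le m1 measurable_const).inter ((measurableSet_le m2 measurable_const).inter
      ((measurableSet_le measurable_const ((meas_X (k + 2)).const_mul 3)).inter
        (measurableSet_le measurable_const ((meas_Y (k + 2)).const_mul 3))))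
  have hG := b08_mp k
  rw [← hG.measure_preimage hS.nullMeasurableSet, Measure.prod_apply_symm (hG.measurable hS)]
  set KA : ℝ := 20 * h ^ (3 / 2 : ℝ) * X a ^ (-(1 / 2) - th) with hKA
  set KB : ℝ := 20 * h ^ (3 / 2 : ℝ) * Y a ^ (-(1 / 2) - th) with hKB
  have hKA0 : 0 ≤ KA := by positivity
  have hKB0 : 0 ≤ KB := by positivity
  have hbound : ∀ᵐ v ∂mu k, (mu1.prod mu1) ((fun z => (z, v)) ⁻¹' (b08_F ⁻¹' S)) ≤
      ENNReal.ofReal KA * ENNReal.ofReal (X v ^ (th - 1)) + ENNReal.ofReal KB * ENNReal.ofReal (Y v ^ (th - 1)) := by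
    filter_upwards [ae_cube k] with v hv
    have hc : 0 < X v := X_pos hv
    have he : 0 < Y v := Y_pos hv
    have hsub : ∀ z : ℝ × ℝ, (z, v) ∈ b08_F ⁻¹' S → |X v * (z.1 * z.2) - X a| ≤ h ∧
        |Y v * ((1 - z.1) * (1 - z.2)) - Y a| ≤ h ∧ X a ≤ 3 * (X v * (z.1 * z.2)) ∧
          Y a ≤ 3 * (Y v * ((1 - z.1) * (1 - z.2))) := by
      intro z hz
      have e1 : X (b08_F (z, v)) = X v * (z.1 * z.2) := by
        rw [b08_X]
        ring
      have e2 : Y (b08_F (z, v)) = Y v * ((1 - z.1) * (1 - z.2)) := by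
        rw [b08_Y]
        ring
      have h1 : |X (b08_F (z, v)) - X a| ≤ h ∧ |Y (b08_F (z, v)) - Y a| ≤ h ∧ X a ≤ 3 * X (b08_F (z, v)) ∧
          Y a ≤ 3 * Y (b08_F (z, v)) := hz
      rw [e1, e2] at h1
      exact h1
    by_cases hcase : X a ≤ 3 * X v ∧ Y a ≤ 3 * Y v
    · calc (mu1.prod mu1) ((fun z => (z, v)) ⁻¹' (b08_F ⁻¹' S))
          ≤ (mu1.prod mu1) {z | |X v * (z.1 * z.2) - X a| ≤ h ∧ |Y v * ((1 - z.1) * (1 - z.2)) - Y a| ≤ h} :=
            measure_mono fun z hz => ⟨(hsub z hz).1, (hsub z hz).2.1⟩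
        _ ≤ ENNReal.ofReal (8 * (h / X v + h / Y v) ^ (3 / 2 : ℝ)) := area hh hc he
        _ ≤ ENNReal.ofReal (KA * X v ^ (th - 1) + KB * Y v ^ (th - 1)) :=
            ENNReal.ofReal_le_ofReal (b08_num hh hX hY hcase.1 hcase.2)
        _ = _ := by
            rw [ENNReal.ofReal_add (mul_nonneg hKA0 (Real.rpow_nonneg hc.le _))
              (mul_nonneg hKB0 (Real.rpow_nonneg he.le _)), ENNReal.ofReal_mul hKA0, ENNReal.ofReal_mul hKB0]
    · have h0 : (mu1.prod mu1) ((fun z => (z, v)) ⁻¹' (b08_F ⁻¹' S)) = 0 := by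
        have h1 : ∀ᵐ z ∂(mu1.prod mu1), z ∉ ((fun z => (z, v)) ⁻¹' (b08_F ⁻¹' S)) := by
          filter_upwards [b08_ae] with z hz hzS
          obtain ⟨-, -, h3, h4⟩ := hsub z hzS
          obtain ⟨⟨z1, z2⟩, z3, z4⟩ := hz
          refine hcase ⟨h3.trans ?_, h4.trans ?_⟩
          · have h5 : z.1 * z.2 ≤ 1 := mul_le_one₀ z2.le z3.le z4.le
            nlinarith
          · have h5 : (1 - z.1) * (1 - z.2) ≤ 1 :=
              mul_le_one₀ (by linarith) (by linarith) (by linarith)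
            nlinarith
        exact measure_eq_zero_iff_ae_notMem.2 h1
      rw [h0]
      exact zero_le
  refine (lintegral_mono_ae hbound).trans ?_
  have mX : Measurable fun v : Fin k → ℝ => ENNReal.ofReal (X v ^ (th - 1)) :=
    ((meas_X k).pow_const _).ennreal_ofReal
  have mY : Measurable fun v : Fin k → ℝ => ENNReal.ofReal (Y v ^ (th - 1)) :=
    ((meas_Y k).pow_const _).ennreal_ofReal
  rw [lintegral_add_left (mX.const_mul _), lintegral_const_mul _ mX, lintegral_const_mul _ mY]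
  have hk0 : 0 ≤ th⁻¹ ^ k := pow_nonneg (inv_nonneg.2 hth.le) _
  calc ENNReal.ofReal KA * ∫⁻ v, ENNReal.ofReal (X v ^ (th - 1)) ∂mu k +
        ENNReal.ofReal KB * ∫⁻ v, ENNReal.ofReal (Y v ^ (th - 1)) ∂mu k
      ≤ ENNReal.ofReal KA * ENNReal.ofReal (th⁻¹ ^ k) + ENNReal.ofReal KB * ENNReal.ofReal (th⁻¹ ^ k) := by
        gcongr
        · exact lint_X k
        · exact lint_Y k
    _ = ENNReal.ofReal (20 * th⁻¹ ^ k * h ^ (3 / 2 : ℝ) * (X a ^ (-(1 / 2) - th) + Y a ^ (-(1 / 2) - th))) := by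
        rw [← ENNReal.ofReal_mul hKA0, ← ENNReal.ofReal_mul hKB0,
          ← ENNReal.ofReal_add (mul_nonneg hKA0 hk0) (mul_nonneg hKB0 hk0)]
        congr 1
        rw [hKA, hKB]
        ring

end Pool.Agent.Helper14.RO
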