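import Pool.Agent.Helper14.RO.B03

/-!
# Block 21: balanced pairs of points (no measure theory)
-/

namespace Pool.Agent.Helper14.RO

variable {d : ℕ} {a b : Fin d → ℝ}

/-- The basic square root step. -/
theorem b21_sq {s p x : ℝ} (hs : 0 < s) (hp : 4 * s ^ 2 ≤ p) (hx : x ^ 2 ≤ s ^ 2 * p) :
    |x| ≤ p / 2 := by
  have hp0 : 0 ≤ p := le_trans (by positivity) hp
  have h1 : x ^ 2 ≤ (p / 2) ^ 2 := by nlinarith
  exact abs_le_of_sq_le_sq h1 (by linarith)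

theorem b21_abs {s p x D : ℝ} (hs : 0 < s) (hx : x ^ 2 ≤ s ^ 2 * p) (hD : p ≤ D) :
    |x| ≤ s * √D := by
  have h1 : |x| = √(x ^ 2) := (Real.sqrt_sq_eq_abs x).symm
  have h2 : s * √D = √(s ^ 2 * D) := by
    rw [Real.sqrt_mul (by positivity), Real.sqrt_sq hs.le]
  rw [h1, h2]
  exact Real.sqrt_le_sqrt (le_trans hx (mul_le_mul_of_nonneg_left hD (by positivity)))

theorem b21_X_inf_nonneg (ha : a ∈ Cube d) (hb : b ∈ Cube d) : 0 ≤ X (a ⊓ b) := by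
  unfold X
  exact Finset.prod_nonneg fun i _ => by
    simp only [Pi.inf_apply]
    exact le_inf (ha i).1.le (hb i).1.le

theorem b21_Y_sup_nonneg (ha : a ∈ Cube d) (hb : b ∈ Cube d) : 0 ≤ Y (a ⊔ b) := by
  unfold Y
  exact Finset.prod_nonneg fun i _ => by
    simp only [Pi.sup_apply]
    have := sup_lt_iff.2 ⟨(ha i).2, (hb i).2⟩
    linarith

/-! Balanced pairs. -/

theorem Bal.symm {s : ℝ} (h : Bal s a b) : Bal s b a := by
  obtain ⟨h1, h2, h3, h4⟩ := h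
  refine ⟨by rwa [pp_comm], by rwa [qq_comm], ?_, ?_⟩
  · rw [pp_comm b a]
    calc (X b - X a) ^ 2 = (X a - X b) ^ 2 := by ring
      _ ≤ _ := h3
  · rw [qq_comm b a]
    calc (Y b - Y a) ^ 2 = (Y a - Y b) ^ 2 := by ring
      _ ≤ _ := h4

theorem Bal.half {s : ℝ} (hs : 0 < s) (h : Bal s a b) :
    |X a - X b| ≤ pp a b / 2 ∧ |Y a - Y b| ≤ qq a b / 2 :=
  ⟨b21_sq hs h.1 h.2.2.1, b21_sq hs h.2.1 h.2.2.2⟩

theorem Bal.comp (ha : a ∈ Cube d) (hb : b ∈ Cube d) {s : ℝ} (hs : 0 < s) (h : Bal s a b) :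
    X a ≤ 3 * X b ∧ Y a ≤ 3 * Y b ∧ s ^ 2 ≤ X a ∧ s ^ 2 ≤ Y a := by
  obtain ⟨h5, h6⟩ := h.half hs
  obtain ⟨h1, h2, h3, h4⟩ := h
  have e1 : pp a b ≤ X a + X b := by
    have := b21_X_inf_nonneg ha hb
    unfold pp
    linarith
  have e2 : qq a b ≤ Y a + Y b := by
    have := b21_Y_sup_nonneg ha hb
    unfold qq
    linarith
  have h5' := abs_le.1 h5
  have h6' := abs_le.1 h6
  refine ⟨?_, ?_, ?_, ?_⟩ <;> linarith

theorem Bal.incomp (ha : a ∈ Cube d) (hb : b ∈ Cube d) {s : ℝ} (hs : 0 < s) (h : Bal s a b) :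
    ¬ a ≤ b ∧ ¬ b ≤ a := by
  have key : ∀ {a b : Fin d → ℝ}, Bal s a b → ¬ a ≤ b := by
    intro a b h hab
    have e1 : pp a b = X b - X a := by
      unfold pp
      rw [inf_eq_left.2 hab]
      ring
    have h5 := (abs_le.1 (h.half hs).1).1
    have h1 := h.1
    have : 0 < s ^ 2 := by positivity
    linarith
  exact ⟨key h, key h.symm⟩

/-- A point other than `a`, `b` is not both below exactly one of `a`, `b` and above exactly one of `a`, `b`. -/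
theorem ff_mul_gg (h : ¬ a ≤ b) (h' : ¬ b ≤ a) {w : Fin d → ℝ} (hwa : w ≠ a) (hwb : w ≠ b) :
    ff a b w * gg a b w = 0 := by
  classical
  unfold ff gg
  by_cases h1 : w ≤ a <;> by_cases h2 : w ≤ b <;> by_cases h3 : a ≤ w <;> by_cases h4 : b ≤ w <;>
    simp [h1, h2, h3, h4]
  all_goals first
    | exact absurd (h3.trans h2) h
    | exact absurd (h4.trans h1) h'
    | exact absurd (le_antisymm h1 h3) hwa
    | exact absurd (le_antisymm h2 h4) hwb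

theorem Bal.abs (ha : a ∈ Cube d) (hb : b ∈ Cube d) {s : ℝ} (hs : 0 < s) (h : Bal s a b) {ε : ℝ}
    (hε : ‖a - b‖ ≤ ε) : |X a - X b| ≤ s * √(d * ε) ∧ |Y a - Y b| ≤ s * √(d * ε) := by
  have hd : (0 : ℝ) ≤ d := Nat.cast_nonneg d
  have e := mul_le_mul_of_nonneg_left hε hd
  exact ⟨b21_abs hs h.2.2.1 ((G2 ha hb).trans e), b21_abs hs h.2.2.2 ((G2q ha hb).trans e)⟩

theorem Bal.sep (hd : 0 < d) (ha : a ∈ Cube d) (hb : b ∈ Cube d) {s : ℝ} (hs : 0 < s) (h : Bal s a b) :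
    ‖a - b‖ / 3 * √(X a * Y a) ≤ √(pp a b * qq a b) := by
  obtain ⟨c1, c2, -, -⟩ := h.comp ha hb hs
  have hXa := X_pos ha
  have hYa := Y_pos ha
  have hpp := pp_nonneg ha hb
  have hqq := qq_nonneg ha hb
  have m1 : X a / 3 ≤ min (X a) (X b) := le_min (by linarith) (by linarith)
  have m2 : Y a / 3 ≤ min (Y a) (Y b) := le_min (by linarith) (by linarith)
  have hN : 0 ≤ ‖a - b‖ := norm_nonneg _
  -- norm is attained
  have : Nonempty (Fin d) := ⟨⟨0, hd⟩⟩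
  obtain ⟨i, hi⟩ : ∃ i, ‖a - b‖ = |a i - b i| := by
    obtain ⟨i, -, hi⟩ := Finset.exists_mem_eq_sup Finset.univ Finset.univ_nonempty
      (fun j => ‖(a - b) j‖₊)
    refine ⟨i, ?_⟩
    rw [Pi.norm_def, hi]
    simp
  have g1 := G1 ha hb i
  have g2 := G1q ha hb i
  rw [← hi] at g1 g2
  have k1 : X a / 3 * ‖a - b‖ ≤ pp a b := (mul_le_mul_of_nonneg_right m1 hN).trans g1
  have k2 : Y a / 3 * ‖a - b‖ ≤ qq a b := (mul_le_mul_of_nonneg_right m2 hN).trans g2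
  have e1 : ‖a - b‖ / 3 * √(X a * Y a) = √((X a / 3 * ‖a - b‖) * (Y a / 3 * ‖a - b‖)) := by
    have e2 : (X a / 3 * ‖a - b‖) * (Y a / 3 * ‖a - b‖) = (‖a - b‖ / 3) ^ 2 * (X a * Y a) := by
      ring
    rw [e2, Real.sqrt_mul (sq_nonneg (‖a - b‖ / 3)), Real.sqrt_sq (by positivity)]
  rw [e1]
  exact Real.sqrt_le_sqrt (mul_le_mul k1 k2 (by positivity) hpp)

end Pool.Agent.Helper14.RO
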