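import Pool.Agent.Helper14.RO.B08
import Pool.Agent.Helper14.RO.B21

/-!
# Block 9: the balanced pairs at a given distance
-/

namespace Pool.Agent.Helper14.RO

open MeasureTheory Set
open scoped ENNReal

theorem b09_cube (d : ℕ) : MeasurableSet (Cube d) := by
  have h : Cube d = ⋂ i, (fun a : Fin d → ℝ => a i) ⁻¹' Ioo (0 : ℝ) 1 := by
    ext a
    simp [Cube]
  rw [h]
  exact MeasurableSet.iInter fun i => measurable_pi_apply i measurableSet_Ioo

theorem b09_set {d : ℕ} (s δ ε : ℝ) :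
    MeasurableSet {z : (Fin d → ℝ) × (Fin d → ℝ) | Bal s z.1 z.2 ∧ δ < ‖z.1 - z.2‖ ∧ ‖z.1 - z.2‖ ≤ ε} := by
  have hn : Measurable fun z : (Fin d → ℝ) × (Fin d → ℝ) => ‖z.1 - z.2‖ :=
    (measurable_fst.sub measurable_snd).norm
  exact (meas_Bal s).inter ((measurableSet_lt measurable_const hn).inter
    (measurableSet_le hn measurable_const))

/-- Fubini for the balanced pairs at a given distance. -/
theorem b09_main {d : ℕ} (hd : 0 < d) {s δ ε : ℝ} (hs : 0 < s) (hδ : 0 < δ) (C : ℝ≥0∞)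
    (hC : ∀ a ∈ Cube d, ENNReal.ofReal (3 / δ * (1 / √(X a * Y a))) *
      mu d {b | b ∈ Cube d ∧ Bal s a b ∧ δ < ‖a - b‖ ∧ ‖a - b‖ ≤ ε} ≤
        C * ENNReal.ofReal ((X a * Y a) ^ (th - 1))) :
    ∫⁻ z in {z : (Fin d → ℝ) × (Fin d → ℝ) | Bal s z.1 z.2 ∧ δ < ‖z.1 - z.2‖ ∧ ‖z.1 - z.2‖ ≤ ε},
        ENNReal.ofReal (1 / √(pp z.1 z.2 * qq z.1 z.2)) ∂((mu d).prod (mu d)) ≤ C * J d := by
  set S : Set ((Fin d → ℝ) × (Fin d → ℝ)) :=
    {z | Bal s z.1 z.2 ∧ δ < ‖z.1 - z.2‖ ∧ ‖z.1 - z.2‖ ≤ ε} with hS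
  have hSm : MeasurableSet S := b09_set s δ ε
  set S' : Set ((Fin d → ℝ) × (Fin d → ℝ)) := {z | z.2 ∈ Cube d} ∩ S with hS'
  have hSm' : MeasurableSet S' := (measurable_snd (b09_cube d)).inter hSm
  have hG : Measurable fun a : Fin d → ℝ => ENNReal.ofReal (3 / δ * (1 / √(X a * Y a))) :=
    ((((meas_X d).mul (meas_Y d)).sqrt.const_div 1).const_mul _).ennreal_ofReal
  have hP : Measurable fun a : Fin d → ℝ => ENNReal.ofReal ((X a * Y a) ^ (th - 1)) :=
    (((meas_X d).mul (meas_Y d)).pow_const _).ennreal_ofReal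
  have h1 : ∀ᵐ z ∂((mu d).prod (mu d)), z.1 ∈ Cube d :=
    Measure.quasiMeasurePreserving_fst.ae (ae_cube d)
  have h2 : ∀ᵐ z ∂((mu d).prod (mu d)), z.2 ∈ Cube d :=
    Measure.quasiMeasurePreserving_snd.ae (ae_cube d)
  rw [← lintegral_indicator hSm]
  calc ∫⁻ z, S.indicator (fun z => ENNReal.ofReal (1 / √(pp z.1 z.2 * qq z.1 z.2))) z
          ∂((mu d).prod (mu d))
      ≤ ∫⁻ z, S'.indicator (fun z => ENNReal.ofReal (3 / δ * (1 / √(X z.1 * Y z.1)))) z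
          ∂((mu d).prod (mu d)) := by
        refine lintegral_mono_ae ?_
        filter_upwards [h1, h2] with z hz1 hz2
        by_cases hz : z ∈ S
        · have hz' : z ∈ S' := ⟨hz2, hz⟩
          rw [indicator_of_mem hz, indicator_of_mem hz']
          refine ENNReal.ofReal_le_ofReal ?_
          have hsep := hz.1.sep hd hz1 hz2 hs
          have hXY : 0 < √(X z.1 * Y z.1) := Real.sqrt_pos.mpr (mul_pos (X_pos hz1) (Y_pos hz1))
          have h3 : δ / 3 * √(X z.1 * Y z.1) ≤ √(pp z.1 z.2 * qq z.1 z.2) := by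
            refine le_trans ?_ hsep
            refine mul_le_mul_of_nonneg_right ?_ hXY.le
            linarith [hz.2.1]
          have h4 : 0 < δ / 3 * √(X z.1 * Y z.1) := by positivity
          calc 1 / √(pp z.1 z.2 * qq z.1 z.2) ≤ 1 / (δ / 3 * √(X z.1 * Y z.1)) :=
                one_div_le_one_div_of_le h4 h3
            _ = 3 / δ * (1 / √(X z.1 * Y z.1)) := by
                field_simp
        · rw [indicator_of_notMem hz]
          exact zero_le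
    _ = ∫⁻ a, ∫⁻ b, S'.indicator (fun z => ENNReal.ofReal (3 / δ * (1 / √(X z.1 * Y z.1)))) (a, b)
          ∂mu d ∂mu d :=
        lintegral_prod _ (((hG.comp measurable_fst).indicator hSm').aemeasurable)
    _ = ∫⁻ a, ENNReal.ofReal (3 / δ * (1 / √(X a * Y a))) *
          mu d {b | b ∈ Cube d ∧ Bal s a b ∧ δ < ‖a - b‖ ∧ ‖a - b‖ ≤ ε} ∂mu d := by
        refine lintegral_congr fun a => ?_
        have h5 : (fun b => S'.indicator
            (fun z => ENNReal.ofReal (3 / δ * (1 / √(X z.1 * Y z.1)))) (a, b)) =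
            (Prod.mk a ⁻¹' S').indicator
              (fun _ => ENNReal.ofReal (3 / δ * (1 / √(X a * Y a)))) := by
          funext b
          by_cases hb : (a, b) ∈ S'
          · rw [indicator_of_mem hb, indicator_of_mem (by exact hb)]
          · rw [indicator_of_notMem hb, indicator_of_notMem (by exact hb)]
        rw [h5, lintegral_indicator_const (measurable_prodMk_left hSm')]
        rfl
    _ ≤ ∫⁻ a, C * ENNReal.ofReal ((X a * Y a) ^ (th - 1)) ∂mu d := by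
        refine lintegral_mono_ae ?_
        filter_upwards [ae_cube d] with a ha
        exact hC a ha
    _ = C * J d := by
        rw [lintegral_const_mul _ hP]
        rfl

/-- `(XY) ^ (-1/2) ≤ (XY) ^ (th - 1)` on the cube. -/
theorem b09_inv {d : ℕ} {a : Fin d → ℝ} (ha : a ∈ Cube d) :
    1 / √(X a * Y a) ≤ (X a * Y a) ^ (th - 1) := by
  have h0 : 0 < X a * Y a := mul_pos (X_pos ha) (Y_pos ha)
  have h1 : X a * Y a ≤ 1 := by
    calc X a * Y a ≤ 1 * 1 := mul_le_mul (X_le_one ha) (Y_le_one ha) (Y_pos ha).le zero_le_one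
      _ = 1 := one_mul 1
  rw [Real.sqrt_eq_rpow, one_div, ← Real.rpow_neg h0.le]
  refine Real.rpow_le_rpow_of_exponent_ge h0 h1 ?_
  norm_num [th]

theorem far {d : ℕ} (hd : 2 ≤ d) {s δ ε : ℝ} (hs : 0 < s) (hδ : 0 < δ) (hε : 0 < ε) :
    ∫⁻ z in {z : (Fin d → ℝ) × (Fin d → ℝ) | Bal s z.1 z.2 ∧ δ < ‖z.1 - z.2‖ ∧ ‖z.1 - z.2‖ ≤ ε},
        ENNReal.ofReal (1 / √(pp z.1 z.2 * qq z.1 z.2)) ∂((mu d).prod (mu d)) ≤
      ENNReal.ofReal (3 / δ * (40 * th⁻¹ ^ (d - 2) * (s * √(d * ε)) ^ (3 / 2 : ℝ) * s ^ (-4 * th))) * J d := by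
  obtain ⟨k, rfl⟩ := Nat.exists_eq_add_of_le' hd
  have hth : 0 < th := by norm_num [th]
  have hd0 : (0 : ℝ) < ((k + 2 : ℕ) : ℝ) := by positivity
  have hh : 0 < s * √(((k + 2 : ℕ) : ℝ) * ε) := by positivity
  set h := s * √(((k + 2 : ℕ) : ℝ) * ε) with hhdef
  refine b09_main (by omega) hs hδ _ fun a ha => ?_
  have hX0 := X_pos ha
  have hY0 := Y_pos ha
  by_cases hab : s ^ 2 ≤ X a ∧ s ^ 2 ≤ Y a
  · have hm : mu (k + 2) {b | b ∈ Cube (k + 2) ∧ Bal s a b ∧ δ < ‖a - b‖ ∧ ‖a - b‖ ≤ ε} ≤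
        ENNReal.ofReal (20 * th⁻¹ ^ k * h ^ (3 / 2 : ℝ) *
          (X a ^ (-(1 / 2) - th) + Y a ^ (-(1 / 2) - th))) := by
      refine le_trans (measure_mono ?_) (slice ha hh)
      rintro b ⟨hb, hBal, _, hbε⟩
      have h1 := hBal.abs ha hb hs hbε
      have h2 := hBal.comp ha hb hs
      refine ⟨?_, ?_, h2.1, h2.2.1⟩
      · rw [abs_sub_comm]
        exact h1.1
      · rw [abs_sub_comm]
        exact h1.2
    refine le_trans (mul_le_mul_right hm _) ?_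
    rw [← ENNReal.ofReal_mul (by positivity), ← ENNReal.ofReal_mul (by positivity)]
    refine ENNReal.ofReal_le_ofReal ?_
    have key : ∀ x y : ℝ, 0 < x → x ≤ 1 → 0 < y → y ≤ 1 → s ^ 2 ≤ x →
        (1 / √(x * y)) * x ^ (-(1 / 2) - th) ≤ s ^ (-4 * th) * (x * y) ^ (th - 1) := by
      intro x y hx hx1 hy hy1 hsx
      have e1 : (1 / √(x * y)) * x ^ (-(1 / 2) - th) =
          x ^ (-2 * th) * x ^ (th - 1) * y ^ (-(1 / 2) : ℝ) := by
        rw [Real.sqrt_eq_rpow, one_div, ← Real.rpow_neg (mul_pos hx hy).le,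
          Real.mul_rpow hx.le hy.le, mul_right_comm, ← Real.rpow_add hx, ← Real.rpow_add hx]
        congr 2
        ring
      have e2 : s ^ (-4 * th) = (s ^ 2) ^ (-2 * th) := by
        rw [← Real.rpow_natCast s 2, ← Real.rpow_mul hs.le]
        congr 1
        push_cast
        ring
      have i1 : x ^ (-2 * th) ≤ (s ^ 2) ^ (-2 * th) :=
        Real.rpow_le_rpow_of_nonpos (by positivity) hsx (by linarith)
      have i2 : y ^ (-(1 / 2) : ℝ) ≤ y ^ (th - 1) :=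
        Real.rpow_le_rpow_of_exponent_ge hy hy1 (by norm_num [th])
      rw [e1, e2, Real.mul_rpow hx.le hy.le, ← mul_assoc]
      gcongr
    have k1 := key (X a) (Y a) hX0 (X_le_one ha) hY0 (Y_le_one ha) hab.1
    have k2 := key (Y a) (X a) hY0 (Y_le_one ha) hX0 (X_le_one ha) hab.2
    rw [mul_comm (Y a) (X a)] at k2
    have e : (k + 2 - 2 : ℕ) = k := by omega
    rw [e]
    calc 3 / δ * (1 / √(X a * Y a)) * (20 * th⁻¹ ^ k * h ^ (3 / 2 : ℝ) *
          (X a ^ (-(1 / 2) - th) + Y a ^ (-(1 / 2) - th)))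
        = 3 / δ * (20 * th⁻¹ ^ k * h ^ (3 / 2 : ℝ)) *
          ((1 / √(X a * Y a)) * X a ^ (-(1 / 2) - th) +
            (1 / √(X a * Y a)) * Y a ^ (-(1 / 2) - th)) := by ring
      _ ≤ 3 / δ * (20 * th⁻¹ ^ k * h ^ (3 / 2 : ℝ)) *
          (s ^ (-4 * th) * (X a * Y a) ^ (th - 1) + s ^ (-4 * th) * (X a * Y a) ^ (th - 1)) := by
          refine mul_le_mul_of_nonneg_left (add_le_add k1 k2) (by positivity)
      _ = 3 / δ * (40 * th⁻¹ ^ k * h ^ (3 / 2 : ℝ) * s ^ (-4 * th)) * (X a * Y a) ^ (th - 1) := by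
          ring
  · have hm : {b | b ∈ Cube (k + 2) ∧ Bal s a b ∧ δ < ‖a - b‖ ∧ ‖a - b‖ ≤ ε} = ∅ := by
      refine eq_empty_iff_forall_notMem.mpr ?_
      rintro b ⟨hb, hBal, _, _⟩
      exact hab (hBal.comp ha hb hs).2.2
    rw [hm, measure_empty, mul_zero]
    exact zero_le

theorem near {d : ℕ} (hd : 0 < d) {s δ ε : ℝ} (hs : 0 < s) (hδ : 0 < δ) (hε : 0 < ε) :
    ∫⁻ z in {z : (Fin d → ℝ) × (Fin d → ℝ) | Bal s z.1 z.2 ∧ δ < ‖z.1 - z.2‖ ∧ ‖z.1 - z.2‖ ≤ ε},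
        ENNReal.ofReal (1 / √(pp z.1 z.2 * qq z.1 z.2)) ∂((mu d).prod (mu d)) ≤
      ENNReal.ofReal (3 / δ * (2 * ε) ^ d) * J d := by
  refine b09_main hd hs hδ _ fun a ha => ?_
  have hm : mu d {b | b ∈ Cube d ∧ Bal s a b ∧ δ < ‖a - b‖ ∧ ‖a - b‖ ≤ ε} ≤
      ENNReal.ofReal ((2 * ε) ^ d) :=
    le_trans (measure_mono fun b hb => hb.2.2.2) (mu_ball a hε.le)
  have hXY : 0 < X a * Y a := mul_pos (X_pos ha) (Y_pos ha)
  refine le_trans (mul_le_mul_right hm _) ?_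
  rw [← ENNReal.ofReal_mul (by positivity), ← ENNReal.ofReal_mul (by positivity)]
  refine ENNReal.ofReal_le_ofReal ?_
  calc 3 / δ * (1 / √(X a * Y a)) * (2 * ε) ^ d = 3 / δ * (2 * ε) ^ d * (1 / √(X a * Y a)) := by
        ring
    _ ≤ 3 / δ * (2 * ε) ^ d * (X a * Y a) ^ (th - 1) :=
        mul_le_mul_of_nonneg_left (b09_inv ha) (by positivity)

end Pool.Agent.Helper14.RO
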