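import Pool.Agent.Helper14.RO.Defs

/-!
# Block 10: large deviation bounds for sums of independent variables
-/

namespace Pool.Agent.Helper14.RO

open MeasureTheory Set
open scoped ENNReal

variable {α : Type*} [MeasurableSpace α] (μ : Measure α) [IsProbabilityMeasure μ]

/-- The mean of `f` is large compared with the square root of `p`: the sum is not small. -/
theorem mgf_bound {f : α → ℤ} (hf : Measurable f) (hv : ∀ x, |f x| ≤ 1) (N K : ℕ) {p s : ℝ}
    (hp : (μ {x | f x ≠ 0}).toReal ≤ p) (hs : 0 < s) (hm : s ^ 2 * p < (∫ x, (f x : ℝ) ∂μ) ^ 2) :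
    (Measure.pi fun _ : Fin N => μ) {w | |∑ k, f (w k)| ≤ K} ≤
      ENNReal.ofReal (Real.exp (K / 2 - N * s ^ 2 / 4)) := by
  set q : ℝ := (μ {x | f x ≠ 0}).toReal with hq
  have hq0 : 0 ≤ q := ENNReal.toReal_nonneg
  set m : ℝ := ∫ x, (f x : ℝ) ∂μ with hmd
  have hfm : Measurable fun x => (f x : ℝ) := (measurable_from_top (f := fun z : ℤ => (z : ℝ))).comp hf
  have hf1 : ∀ x, |(f x : ℝ)| ≤ 1 := fun x => by exact_mod_cast hv x
  have hint : Integrable (fun x => (f x : ℝ)) μ :=
    Integrable.of_bound hfm.aestronglyMeasurable 1 (ae_of_all _ fun x => by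
      rw [Real.norm_eq_abs]
      exact hf1 x)
  have hset : MeasurableSet {x | f x ≠ 0} := hf (measurableSet_singleton (0 : ℤ)).compl
  have hind : (fun x => (f x : ℝ) ^ 2) = ({x | f x ≠ 0} : Set α).indicator (fun _ => (1 : ℝ)) := by
    funext x
    by_cases h : f x = 0
    · rw [indicator_of_notMem (by simpa using h), h]
      norm_num
    · rw [indicator_of_mem (by simpa using h)]
      have h1 := abs_le.1 (hv x)
      have h2 : f x = 1 ∨ f x = -1 := by omega
      rcases h2 with h2 | h2 <;> rw [h2] <;> norm_num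
  have hsq : ∫ x, (f x : ℝ) ^ 2 ∂μ = q := by
    rw [hind, integral_indicator_const _ hset, smul_eq_mul, mul_one]
    rfl
  have hsqi : Integrable (fun x => (f x : ℝ) ^ 2) μ := by
    rw [hind]
    exact (integrable_const _).indicator hset
  have hmq : |m| ≤ q := by
    rw [← hsq, hmd]
    refine abs_integral_le_integral_abs.trans (integral_mono hint.abs hsqi fun x => ?_)
    simp only
    have h1 := abs_le.1 (hv x)
    have h2 : f x = 1 ∨ f x = -1 ∨ f x = 0 := by omega
    rcases h2 with h2 | h2 | h2 <;> rw [h2] <;> norm_num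
  have hp0 : 0 < p := by
    rcases lt_trichotomy p 0 with h | h | h
    · exact absurd (hq0.trans hp) (not_le.2 h)
    · exfalso
      have h1 : q = 0 := le_antisymm (by rw [← h]; exact hp) hq0
      rw [h1] at hmq
      have h2 : m = 0 := abs_nonpos_iff.1 hmq
      rw [h2, h] at hm
      norm_num at hm
    · exact h
  have hmp : |m| ≤ p := hmq.trans hp
  set l : ℝ := m / (2 * p) with hl
  have hl2 : |l| ≤ 1 / 2 := by
    rw [hl, abs_div, abs_of_pos (by positivity : (0 : ℝ) < 2 * p), div_le_iff₀ (by positivity)]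
    linarith
  have hbd : ∀ x, Real.exp (-(l * f x)) ≤ 1 - l * f x + l ^ 2 * (f x : ℝ) ^ 2 := by
    intro x
    have h1 : |(-(l * f x) : ℝ)| ≤ 1 := by
      rw [abs_neg, abs_mul]
      have := mul_le_mul hl2 (hf1 x) (abs_nonneg _) (by norm_num)
      linarith
    have h2 := (abs_le.1 (Real.abs_exp_sub_one_sub_id_le h1)).2
    have h3 : (-(l * (f x : ℝ))) ^ 2 = l ^ 2 * (f x : ℝ) ^ 2 := by ring
    linarith
  have hexpm : Measurable fun x => Real.exp (-(l * f x)) := (hfm.const_mul l).neg.exp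
  have hexpb : ∀ x, ‖Real.exp (-(l * f x))‖ ≤ Real.exp 1 := by
    intro x
    rw [Real.norm_eq_abs, Real.abs_exp]
    refine Real.exp_le_exp.2 ?_
    have h1 : |(-(l * f x) : ℝ)| ≤ 1 := by
      rw [abs_neg, abs_mul]
      have := mul_le_mul hl2 (hf1 x) (abs_nonneg _) (by norm_num)
      linarith
    exact (abs_le.1 h1).2
  have hexpi : Integrable (fun x => Real.exp (-(l * f x))) μ :=
    Integrable.of_bound hexpm.aestronglyMeasurable _ (ae_of_all _ hexpb)
  have hE : ∫ x, Real.exp (-(l * f x)) ∂μ ≤ Real.exp (-(s ^ 2 / 4)) := by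
    have h1 : ∫ x, Real.exp (-(l * f x)) ∂μ ≤ ∫ x, (1 - l * f x + l ^ 2 * (f x : ℝ) ^ 2) ∂μ :=
      integral_mono hexpi (((integrable_const 1).sub (hint.const_mul l)).add (hsqi.const_mul _)) hbd
    have h2 : ∫ x, (1 - l * f x + l ^ 2 * (f x : ℝ) ^ 2) ∂μ = 1 - l * m + l ^ 2 * q := by
      have i1 : Integrable (fun x => 1 - l * (f x : ℝ)) μ := (integrable_const 1).sub (hint.const_mul l)
      have i2 : Integrable (fun x => l ^ 2 * (f x : ℝ) ^ 2) μ := hsqi.const_mul _
      have i3 : Integrable (fun x => l * (f x : ℝ)) μ := hint.const_mul l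
      have e1 : ∫ x, (1 - l * (f x : ℝ) + l ^ 2 * (f x : ℝ) ^ 2) ∂μ =
          ∫ x, (1 - l * (f x : ℝ)) ∂μ + ∫ x, l ^ 2 * (f x : ℝ) ^ 2 ∂μ := integral_add i1 i2
      have e2 : ∫ x, (1 - l * (f x : ℝ)) ∂μ = ∫ _x, (1 : ℝ) ∂μ - ∫ x, l * (f x : ℝ) ∂μ :=
        integral_sub (integrable_const 1) i3
      rw [e1, e2, integral_const_mul, integral_const_mul, hsq, integral_const]
      simp [hmd]
    have h3 : 1 - l * m + l ^ 2 * q ≤ 1 - s ^ 2 / 4 := by
      have h4 : l ^ 2 * q ≤ l ^ 2 * p := mul_le_mul_of_nonneg_left hp (sq_nonneg _)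
      have h5 : l * m = m ^ 2 / (2 * p) := by
        rw [hl]
        ring
      have h6 : l ^ 2 * p = m ^ 2 / (4 * p) := by
        rw [hl]
        field_simp
        ring
      have h7 : m ^ 2 / (2 * p) = 2 * (m ^ 2 / (4 * p)) := by
        field_simp
        ring
      have h8 : s ^ 2 / 4 < m ^ 2 / (4 * p) := by
        rw [div_lt_div_iff₀ (by norm_num) (by positivity)]
        nlinarith
      linarith
    have h9 : 1 - s ^ 2 / 4 ≤ Real.exp (-(s ^ 2 / 4)) := by
      have := Real.add_one_le_exp (-(s ^ 2 / 4))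
      linarith
    linarith
  have hE0 : 0 ≤ ∫ x, Real.exp (-(l * f x)) ∂μ := integral_nonneg fun x => (Real.exp_pos _).le
  set P : Measure (Fin N → α) := Measure.pi fun _ : Fin N => μ with hP
  have hprod : ∫ w, ∏ k, Real.exp (-(l * f (w k))) ∂P = (∫ x, Real.exp (-(l * f x)) ∂μ) ^ N := by
    rw [hP, integral_fintype_prod_eq_prod (fun (_ : Fin N) x => Real.exp (-(l * f x)))]
    rw [Finset.prod_const, Finset.card_univ, Fintype.card_fin]
  have hpi : Integrable (fun w : Fin N → α => ∏ k, Real.exp (-(l * f (w k)))) P := by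
    refine Integrable.of_bound (C := Real.exp 1 ^ N) ?_ (ae_of_all _ fun w => ?_)
    · exact (Finset.measurable_prod _ fun k _ => hexpm.comp (measurable_pi_apply k)).aestronglyMeasurable
    · rw [norm_prod]
      calc ∏ k, ‖Real.exp (-(l * f (w k)))‖ ≤ ∏ _k : Fin N, Real.exp 1 :=
            Finset.prod_le_prod (fun _ _ => norm_nonneg _) fun k _ => hexpb _
        _ = Real.exp 1 ^ N := by rw [Finset.prod_const, Finset.card_univ, Fintype.card_fin]
  have hevm : MeasurableSet {w : Fin N → α | |∑ k, f (w k)| ≤ K} := by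
    have h1 : Measurable fun w : Fin N → α => |∑ k, f (w k)| :=
      (measurable_from_top (f := fun z : ℤ => |z|)).comp
        (Finset.measurable_sum _ fun k _ => hf.comp (measurable_pi_apply k))
    exact h1 (measurableSet_Iic (a := (K : ℤ)))
  have hlow : ∀ w ∈ {w : Fin N → α | |∑ k, f (w k)| ≤ K},
      Real.exp (-(K / 2)) ≤ ∏ k, Real.exp (-(l * f (w k))) := by
    intro w hw
    rw [← Real.exp_sum]
    refine Real.exp_le_exp.2 ?_
    rw [Finset.sum_neg_distrib, ← Finset.mul_sum]
    have h1 : |(∑ k, (f (w k) : ℝ))| ≤ K := by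
      have h2 : ((|∑ k, f (w k)| : ℤ) : ℝ) ≤ ((K : ℤ) : ℝ) := by exact_mod_cast hw
      push_cast at h2
      exact h2
    have h2 : |l * ∑ k, (f (w k) : ℝ)| ≤ 1 / 2 * K := by
      rw [abs_mul]
      exact mul_le_mul hl2 h1 (abs_nonneg _) (by norm_num)
    have h3 := (abs_le.1 h2).2
    linarith
  have hmark : Real.exp (-(K / 2)) * P.real {w : Fin N → α | |∑ k, f (w k)| ≤ K} ≤
      ∫ w, ∏ k, Real.exp (-(l * f (w k))) ∂P := by
    calc Real.exp (-(K / 2)) * P.real {w : Fin N → α | |∑ k, f (w k)| ≤ K}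
        = ∫ w, ({w : Fin N → α | |∑ k, f (w k)| ≤ K}).indicator (fun _ => Real.exp (-(K / 2))) w ∂P := by
          rw [integral_indicator_const _ hevm, smul_eq_mul, mul_comm]
      _ ≤ ∫ w, ∏ k, Real.exp (-(l * f (w k))) ∂P := by
          refine integral_mono ((integrable_const _).indicator hevm) hpi fun w => ?_
          simp only
          by_cases hw : w ∈ {w : Fin N → α | |∑ k, f (w k)| ≤ K}
          · rw [indicator_of_mem hw]
            exact hlow w hw
          · rw [indicator_of_notMem hw]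
            exact Finset.prod_nonneg fun k _ => (Real.exp_pos _).le
  rw [hprod] at hmark
  have hpow : (∫ x, Real.exp (-(l * f x)) ∂μ) ^ N ≤ Real.exp (-(N * s ^ 2 / 4)) := by
    refine (pow_le_pow_left₀ hE0 hE N).trans (le_of_eq ?_)
    rw [← Real.exp_nat_mul]
    congr 1
    ring
  have hfin : P.real {w : Fin N → α | |∑ k, f (w k)| ≤ K} ≤ Real.exp (K / 2 - N * s ^ 2 / 4) := by
    have h1 := hmark.trans hpow
    have h2 : P.real {w : Fin N → α | |∑ k, f (w k)| ≤ K} =
        Real.exp (K / 2) * (Real.exp (-(K / 2)) * P.real {w : Fin N → α | |∑ k, f (w k)| ≤ K}) := by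
      rw [← mul_assoc, ← Real.exp_add]
      simp
    rw [h2]
    calc Real.exp (K / 2) * (Real.exp (-(K / 2)) * P.real {w : Fin N → α | |∑ k, f (w k)| ≤ K})
        ≤ Real.exp (K / 2) * Real.exp (-(N * s ^ 2 / 4)) :=
          mul_le_mul_of_nonneg_left h1 (Real.exp_pos _).le
      _ = Real.exp (K / 2 - N * s ^ 2 / 4) := by
          rw [← Real.exp_add]
          congr 1
  rw [← ofReal_measureReal]
  exact ENNReal.ofReal_le_ofReal hfin

end Pool.Agent.Helper14.RO
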