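import Pool.Agent.Helper14.RO.Defs

/-!
# Block 11: anti-concentration of two sums
-/

namespace Pool.Agent.Helper14.RO

open MeasureTheory Set
open scoped ENNReal

/-- The point of the unit circle with argument `x`. -/
private noncomputable def b11_e (x : ℝ) : ℂ := Complex.exp (x * Complex.I)

private theorem b11_e_zero : b11_e 0 = 1 := by simp [b11_e]

private theorem b11_e_add (x y : ℝ) : b11_e (x + y) = b11_e x * b11_e y := by
  rw [b11_e, b11_e, b11_e, ← Complex.exp_add]; congr 1; push_cast; ring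

private theorem b11_e_norm (x : ℝ) : ‖b11_e x‖ = 1 := Complex.norm_exp_ofReal_mul_I x

private theorem b11_e_cont : Continuous b11_e := by
  unfold b11_e; fun_prop

private theorem b11_e_eq (x : ℝ) : b11_e x = Real.cos x + Real.sin x * Complex.I := by
  rw [b11_e, Complex.exp_mul_I]; push_cast; rfl

private theorem b11_e_sum {ι : Type*} (s : Finset ι) (u : ι → ℝ) :
    b11_e (∑ k ∈ s, u k) = ∏ k ∈ s, b11_e (u k) := by
  classical
  induction s using Finset.induction_on with
  | empty => simp [b11_e_zero]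
  | insert a s ha ih => rw [Finset.sum_insert ha, Finset.prod_insert ha, b11_e_add, ih]

private theorem b11_orth (m : ℤ) :
    ∫ s in Ioc (-Real.pi) Real.pi, b11_e (s * m) = if m = 0 then (2 * Real.pi : ℂ) else 0 := by
  have hle : -Real.pi ≤ Real.pi := by linarith [Real.pi_pos]
  rw [← intervalIntegral.integral_of_le hle]
  split_ifs with h
  · subst h
    simp only [Int.cast_zero, mul_zero, b11_e_zero, intervalIntegral.integral_const]
    rw [show Real.pi - -Real.pi = 2 * Real.pi by ring]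
    simp
  · have hm : (m : ℂ) * Complex.I ≠ 0 :=
      mul_ne_zero (Int.cast_ne_zero.2 h) Complex.I_ne_zero
    have h1 : ∀ s : ℝ, b11_e (s * m) = Complex.exp ((m : ℂ) * Complex.I * s) := by
      intro s; rw [b11_e]; congr 1; push_cast; ring
    simp only [h1]
    rw [integral_exp_mul_complex hm]
    have h2 : Complex.exp ((m : ℂ) * Complex.I * (Real.pi : ℝ)) =
        Complex.exp ((m : ℂ) * Complex.I * ((-Real.pi : ℝ) : ℂ)) := by
      rw [Complex.exp_eq_exp_iff_exists_int]
      exact ⟨m, by push_cast; ring⟩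
    rw [h2, sub_self, zero_div]

private theorem b11_two {a b u : ℝ} (hab : |a - b| ≤ (a + b) / 2) (h0 : 0 ≤ a + b) :
    ‖(a : ℂ) * b11_e u + b * b11_e (-u)‖ ≤ (a + b) * (1 - 3 / 8 * Real.sin u ^ 2) := by
  have hs : Real.sin u ^ 2 ≤ 1 := Real.sin_sq_le_one u
  have hs0 : 0 ≤ Real.sin u ^ 2 := sq_nonneg _
  have hr : 0 ≤ (a + b) * (1 - 3 / 8 * Real.sin u ^ 2) :=
    mul_nonneg h0 (by linarith)
  apply le_of_sq_le_sq _ hr |> fun h => h
  have h1 : (a : ℂ) * b11_e u + b * b11_e (-u) =
      (((a + b) * Real.cos u : ℝ) : ℂ) + (((a - b) * Real.sin u : ℝ) : ℂ) * Complex.I := by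
    rw [b11_e_eq, b11_e_eq, Real.cos_neg, Real.sin_neg]; push_cast; ring
  rw [h1, Complex.sq_norm, Complex.normSq_add_mul_I]
  have hc : Real.cos u ^ 2 = 1 - Real.sin u ^ 2 := by
    have := Real.sin_sq_add_cos_sq u; linarith
  have h2 : (a - b) ^ 2 ≤ ((a + b) / 2) ^ 2 := sq_le_sq' (by linarith [abs_le.1 hab]) (abs_le.1 hab).2
  have h3 : ((a + b) * Real.cos u) ^ 2 + ((a - b) * Real.sin u) ^ 2 ≤
      (a + b) ^ 2 * (1 - Real.sin u ^ 2) + ((a + b) / 2) ^ 2 * Real.sin u ^ 2 := by
    rw [mul_pow, mul_pow, hc]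
    nlinarith [mul_le_mul_of_nonneg_right h2 hs0]
  refine h3.trans ?_
  nlinarith [sq_nonneg ((a + b) * Real.sin u ^ 2), sq_nonneg (a + b)]

variable {α : Type*} [MeasurableSpace α] (μ : Measure α) [IsProbabilityMeasure μ]

private theorem b11_phi {f g : α → ℤ} (hf : Measurable f) (hg : Measurable g)
    (hfv : ∀ x, |f x| ≤ 1) (hgv : ∀ x, |g x| ≤ 1) (hfg : ∀ x, f x * g x = 0) {p q : ℝ}
    (hpf : (μ {x | f x ≠ 0}).toReal = p) (hqg : (μ {x | g x ≠ 0}).toReal = q)
    (hfm : |∫ x, (f x : ℝ) ∂μ| ≤ p / 2) (hgm : |∫ x, (g x : ℝ) ∂μ| ≤ q / 2) (s t : ℝ) :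
    ‖∫ x, b11_e (s * f x + t * g x) ∂μ‖ ≤
      1 - 3 / 8 * (p * Real.sin s ^ 2 + q * Real.sin t ^ 2) := by
  have key : ∀ (h : α → ℤ), Measurable h → (∀ x, |h x| ≤ 1) →
      (μ {x | h x ≠ 0}).toReal = μ.real {x | h x = 1} + μ.real {x | h x = -1} ∧
      ∫ x, (h x : ℝ) ∂μ = μ.real {x | h x = 1} - μ.real {x | h x = -1} := by
    intro h hh hv
    have m1 : MeasurableSet {x | h x = 1} := hh (MeasurableSet.singleton 1)
    have m2 : MeasurableSet {x | h x = -1} := hh (MeasurableSet.singleton (-1))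
    have hd : Disjoint {x | h x = 1} {x | h x = -1} := by
      rw [Set.disjoint_left]; intro x hx hx'
      simp only [mem_ofPred_eq] at hx hx'; omega
    constructor
    · have : {x | h x ≠ 0} = {x | h x = 1} ∪ {x | h x = -1} := by
        ext x; simp only [mem_ofPred_eq, mem_union]
        have := abs_le.1 (hv x); omega
      rw [← measureReal_def, this, measureReal_union hd m2]
    · have : ∀ x, (h x : ℝ) = {x | h x = 1}.indicator (fun _ => (1 : ℝ)) x -
          {x | h x = -1}.indicator (fun _ => (1 : ℝ)) x := by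
        intro x
        have hx := abs_le.1 (hv x)
        have : h x = -1 ∨ h x = 0 ∨ h x = 1 := by omega
        rcases this with h' | h' | h' <;> simp [indicator, h']
      simp only [this]
      rw [integral_sub, integral_indicator_const _ m1, integral_indicator_const _ m2]
      · simp
      · exact (integrable_const _).indicator m1
      · exact (integrable_const _).indicator m2
  obtain ⟨hf1, hf2⟩ := key f hf hfv
  obtain ⟨hg1, hg2⟩ := key g hg hgv
  set a := μ.real {x | f x = 1}
  set a' := μ.real {x | f x = -1}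
  set b := μ.real {x | g x = 1}
  set b' := μ.real {x | g x = -1}
  have ha : 0 ≤ a := measureReal_nonneg
  have ha' : 0 ≤ a' := measureReal_nonneg
  have hb : 0 ≤ b := measureReal_nonneg
  have hb' : 0 ≤ b' := measureReal_nonneg
  have m1 : MeasurableSet {x | f x = 1} := hf (MeasurableSet.singleton 1)
  have m2 : MeasurableSet {x | f x = -1} := hf (MeasurableSet.singleton (-1))
  have m3 : MeasurableSet {x | g x = 1} := hg (MeasurableSet.singleton 1)
  have m4 : MeasurableSet {x | g x = -1} := hg (MeasurableSet.singleton (-1))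
  have hp : p = a + a' := by rw [← hpf, hf1]
  have hq : q = b + b' := by rw [← hqg, hg1]
  have hpq : p + q ≤ 1 := by
    have hd : Disjoint {x | f x ≠ 0} {x | g x ≠ 0} := by
      rw [Set.disjoint_left]; intro x hx hx'
      exact mul_ne_zero hx hx' (hfg x)
    have mg : MeasurableSet {x | g x ≠ 0} := (hg (MeasurableSet.singleton 0)).compl
    have h1 := measureReal_union (μ := μ) hd mg
    have h2 : μ.real ({x | f x ≠ 0} ∪ {x | g x ≠ 0}) ≤ 1 := measureReal_le_one
    rw [h1] at h2
    rw [← hpf, ← hqg]; exact h2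
  have hint : ∫ x, b11_e (s * f x + t * g x) ∂μ =
      ((1 - p - q : ℝ) : ℂ) + (a * b11_e s + a' * b11_e (-s)) +
        (b * b11_e t + b' * b11_e (-t)) := by
    have h1 : ∀ x, b11_e (s * f x + t * g x) = 1 +
        {x | f x = 1}.indicator (fun _ => b11_e s - 1) x +
        {x | f x = -1}.indicator (fun _ => b11_e (-s) - 1) x +
        {x | g x = 1}.indicator (fun _ => b11_e t - 1) x +
        {x | g x = -1}.indicator (fun _ => b11_e (-t) - 1) x := by
      intro x
      have hx := abs_le.1 (hfv x)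
      have hy := abs_le.1 (hgv x)
      have h1 : f x = -1 ∨ f x = 0 ∨ f x = 1 := by omega
      have h2 : g x = -1 ∨ g x = 0 ∨ g x = 1 := by omega
      have h3 := hfg x
      rcases h1 with h | h | h <;> rcases h2 with h' | h' | h' <;>
        first
          | (exfalso; rw [h, h'] at h3; norm_num at h3; done)
          | simp [indicator, h, h', b11_e_zero]
    simp only [h1]
    have i1 : Integrable (fun x => {x | f x = 1}.indicator (fun _ => b11_e s - 1) x) μ :=
      (integrable_const _).indicator m1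
    have i2 : Integrable (fun x => {x | f x = -1}.indicator (fun _ => b11_e (-s) - 1) x) μ :=
      (integrable_const _).indicator m2
    have i3 : Integrable (fun x => {x | g x = 1}.indicator (fun _ => b11_e t - 1) x) μ :=
      (integrable_const _).indicator m3
    have i4 : Integrable (fun x => {x | g x = -1}.indicator (fun _ => b11_e (-t) - 1) x) μ :=
      (integrable_const _).indicator m4
    have i0 : Integrable (fun _ : α => (1 : ℂ)) μ := integrable_const _
    have j1 : Integrable (fun x => 1 + {x | f x = 1}.indicator (fun _ => b11_e s - 1) x) μ :=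
      i0.add i1
    have j2 : Integrable (fun x => 1 + {x | f x = 1}.indicator (fun _ => b11_e s - 1) x +
        {x | f x = -1}.indicator (fun _ => b11_e (-s) - 1) x) μ := j1.add i2
    have j3 : Integrable (fun x => 1 + {x | f x = 1}.indicator (fun _ => b11_e s - 1) x +
        {x | f x = -1}.indicator (fun _ => b11_e (-s) - 1) x +
        {x | g x = 1}.indicator (fun _ => b11_e t - 1) x) μ := j2.add i3
    rw [integral_add j3 i4, integral_add j2 i3,
      integral_add j1 i2, integral_add i0 i1, integral_indicator_const _ m1,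
      integral_indicator_const _ m2, integral_indicator_const _ m3,
      integral_indicator_const _ m4, integral_const]
    simp only [probReal_univ, one_smul, Complex.real_smul]
    rw [hp, hq]
    push_cast
    ring
  rw [hint]
  have n1 : ‖((1 - p - q : ℝ) : ℂ)‖ = 1 - p - q := by
    rw [Complex.norm_real, Real.norm_of_nonneg (by linarith)]
  have n2 := b11_two (a := a) (b := a') (u := s) (by rw [hf2, hp] at hfm; exact hfm) (by linarith)
  have n3 := b11_two (a := b) (b := b') (u := t) (by rw [hg2, hq] at hgm; exact hgm) (by linarith)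
  refine (norm_add_le _ _).trans ?_
  refine (add_le_add ((norm_add_le _ _).trans (add_le_add n1.le n2)) n3).trans ?_
  rw [← hp, ← hq]
  linarith

private theorem b11_gauss {c : ℝ} (hc : 0 < c) :
    ∫ s in Ioc (-Real.pi) Real.pi, Real.exp (-(c * Real.sin s ^ 2)) ≤
      Real.pi * √Real.pi / √c := by
  have hpi := Real.pi_pos
  have hle : -Real.pi ≤ Real.pi := by linarith
  rw [← intervalIntegral.integral_of_le hle]
  set F : ℝ → ℝ := fun s => Real.exp (-(c * Real.sin s ^ 2)) with hF
  have hcont : Continuous F := by rw [hF]; fun_prop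
  have hper : Function.Periodic F Real.pi := by
    intro s; simp only [hF, Real.sin_add_pi, neg_sq]
  have hi : ∀ x y, IntervalIntegrable F volume x y := fun x y => hcont.intervalIntegrable x y
  have h1 : ∫ s in (-Real.pi)..Real.pi, F s = 2 * ∫ s in (-(Real.pi / 2))..(Real.pi / 2), F s := by
    rw [← intervalIntegral.integral_add_adjacent_intervals (hi (-Real.pi) 0) (hi 0 Real.pi)]
    have e1 := hper.intervalIntegral_add_eq (-Real.pi) (-(Real.pi / 2))
    have e2 := hper.intervalIntegral_add_eq 0 (-(Real.pi / 2))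
    rw [neg_add_cancel] at e1
    rw [zero_add] at e2
    rw [show -(Real.pi / 2) + Real.pi = Real.pi / 2 by ring] at e1 e2
    rw [e1, e2]; ring
  rw [h1]
  set b : ℝ := 4 * c / Real.pi ^ 2 with hb
  have hbpos : 0 < b := by positivity
  have h2 : ∫ s in (-(Real.pi / 2))..(Real.pi / 2), F s ≤ √(Real.pi / b) := by
    rw [← integral_gaussian b, intervalIntegral.integral_of_le (by linarith)]
    have hint : Integrable (fun x : ℝ => Real.exp (-b * x ^ 2)) := integrable_exp_neg_mul_sq hbpos
    calc ∫ s in Ioc (-(Real.pi / 2)) (Real.pi / 2), F s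
        ≤ ∫ s in Ioc (-(Real.pi / 2)) (Real.pi / 2), Real.exp (-b * s ^ 2) := by
          apply setIntegral_mono_on
          · exact (hi _ _).1
          · exact hint.integrableOn
          · exact measurableSet_Ioc
          · intro s hs
            rw [hF]
            apply Real.exp_le_exp.2
            have habs : |s| ≤ Real.pi / 2 := abs_le.2 ⟨hs.1.le, hs.2⟩
            have h3 := Real.mul_abs_le_abs_sin habs
            have h4 : (2 / Real.pi * |s|) ^ 2 ≤ |Real.sin s| ^ 2 :=
              pow_le_pow_left₀ (by positivity) h3 2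
            rw [mul_pow, sq_abs, sq_abs] at h4
            have h5 : b * s ^ 2 = c * ((2 / Real.pi) ^ 2 * s ^ 2) := by
              rw [hb]; field_simp; ring
            have h6 := mul_le_mul_of_nonneg_left h4 hc.le
            rw [← h5] at h6
            linarith
      _ ≤ ∫ s, Real.exp (-b * s ^ 2) :=
          setIntegral_le_integral hint (Filter.Eventually.of_forall fun x => (Real.exp_pos _).le)
  have h3 : √(Real.pi / b) = Real.pi * √Real.pi / (2 * √c) := by
    have : Real.pi / b = (Real.pi / 2) ^ 2 * (Real.pi / c) := by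
      rw [hb]; field_simp; norm_num
    rw [this, Real.sqrt_mul (by positivity), Real.sqrt_sq (by positivity), Real.sqrt_div hpi.le]
    field_simp
  rw [h3] at h2
  calc 2 * ∫ s in (-(Real.pi / 2))..(Real.pi / 2), F s
      ≤ 2 * (Real.pi * √Real.pi / (2 * √c)) := by linarith
    _ = Real.pi * √Real.pi / √c := by
        have : √c ≠ 0 := (Real.sqrt_pos.2 hc).ne'
        field_simp

/-- The bound for the probability of a value of the pair of sums. -/
private theorem b11_inv {f g : α → ℤ} (hf : Measurable f) (hg : Measurable g)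
    (hfv : ∀ x, |f x| ≤ 1) (hgv : ∀ x, |g x| ≤ 1) (hfg : ∀ x, f x * g x = 0) {N : ℕ} {p q : ℝ}
    (hpf : (μ {x | f x ≠ 0}).toReal = p) (hqg : (μ {x | g x ≠ 0}).toReal = q)
    (hfm : |∫ x, (f x : ℝ) ∂μ| ≤ p / 2) (hgm : |∫ x, (g x : ℝ) ∂μ| ≤ q / 2) (j l : ℤ) :
    (2 * Real.pi) ^ 2 * (Measure.pi fun _ : Fin N => μ).real
      {w | ∑ k, f (w k) = j ∧ ∑ k, g (w k) = l} ≤
      (∫ s in Ioc (-Real.pi) Real.pi, Real.exp (-(3 / 8 * (N * p) * Real.sin s ^ 2))) *
      ∫ t in Ioc (-Real.pi) Real.pi, Real.exp (-(3 / 8 * (N * q) * Real.sin t ^ 2)) := by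
  set P := Measure.pi fun _ : Fin N => μ with hP
  set L : Measure ℝ := volume.restrict (Ioc (-Real.pi) Real.pi) with hL
  have : IsFiniteMeasure L := by rw [hL]; infer_instance
  have mF : Measurable fun w : Fin N → α => ∑ k, f (w k) :=
    Finset.measurable_sum _ fun k _ => hf.comp (measurable_pi_apply k)
  have mG : Measurable fun w : Fin N → α => ∑ k, g (w k) :=
    Finset.measurable_sum _ fun k _ => hg.comp (measurable_pi_apply k)
  set A : Set (Fin N → α) := {w | ∑ k, f (w k) = j ∧ ∑ k, g (w k) = l} with hA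
  have mA : MeasurableSet A :=
    (mF (MeasurableSet.singleton j)).inter (mG (MeasurableSet.singleton l))
  let H : (Fin N → α) → ℝ × ℝ → ℂ := fun w z =>
    b11_e (z.1 * ((∑ k, f (w k) - j : ℤ) : ℝ)) * b11_e (z.2 * ((∑ k, g (w k) - l : ℤ) : ℝ))
  have hH : Integrable (Function.uncurry H) (P.prod (L.prod L)) := by
    refine Integrable.of_bound (C := 1) ?_ (Filter.Eventually.of_forall ?_)
    · have c1 : Measurable fun n : ℤ => (n : ℝ) := measurable_from_top
      have m1 : Measurable fun y : (Fin N → α) × ℝ × ℝ =>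
          y.2.1 * ((∑ k, f (y.1 k) - j : ℤ) : ℝ) :=
        (measurable_fst.comp measurable_snd).mul
          (c1.comp ((mF.comp measurable_fst).sub measurable_const))
      have m2 : Measurable fun y : (Fin N → α) × ℝ × ℝ =>
          y.2.2 * ((∑ k, g (y.1 k) - l : ℤ) : ℝ) :=
        (measurable_snd.comp measurable_snd).mul
          (c1.comp ((mG.comp measurable_fst).sub measurable_const))
      exact ((b11_e_cont.measurable.comp m1).mul (b11_e_cont.measurable.comp m2)).aestronglyMeasurable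
    · rintro ⟨w, z⟩
      simp [Function.uncurry, H, b11_e_norm]
  have hswap := integral_integral_swap hH
  -- the inner integral over the torus
  have h1 : ∀ w, ∫ z, H w z ∂(L.prod L) = A.indicator (fun _ => ((2 * Real.pi : ℂ)) ^ 2) w := by
    intro w
    simp only [H]
    rw [integral_prod_mul (fun s : ℝ => b11_e (s * ((∑ k, f (w k) - j : ℤ) : ℝ)))
      (fun t : ℝ => b11_e (t * ((∑ k, g (w k) - l : ℤ) : ℝ))), hL, b11_orth, b11_orth]
    by_cases h1 : ∑ k, f (w k) = j
    · by_cases h2 : ∑ k, g (w k) = l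
      · rw [indicator_of_mem (show w ∈ A from ⟨h1, h2⟩), if_pos (sub_eq_zero.2 h1),
          if_pos (sub_eq_zero.2 h2)]
        ring
      · rw [indicator_of_notMem (show w ∉ A from fun h => h2 h.2), if_neg (sub_ne_zero.2 h2),
          mul_zero]
    · rw [indicator_of_notMem (show w ∉ A from fun h => h1 h.1), if_neg (sub_ne_zero.2 h1),
        zero_mul]
  -- the inner integral over the product space
  have h2 : ∀ z : ℝ × ℝ, ∫ w, H w z ∂P =
      b11_e (-(z.1 * j + z.2 * l)) * (∫ x, b11_e (z.1 * f x + z.2 * g x) ∂μ) ^ N := by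
    intro z
    have h3 : ∀ w, H w z = b11_e (-(z.1 * j + z.2 * l)) *
        ∏ k, b11_e (z.1 * f (w k) + z.2 * g (w k)) := by
      intro w
      rw [← b11_e_sum, ← b11_e_add]
      simp only [H]
      rw [← b11_e_add]
      congr 1
      push_cast
      rw [Finset.sum_add_distrib, ← Finset.mul_sum, ← Finset.mul_sum]
      ring
    simp only [h3]
    rw [integral_const_mul]
    congr 1
    rw [hP]
    have h4 := integral_fintype_prod_eq_pow (ι := Fin N) (μ := μ)
      (fun x => b11_e (z.1 * f x + z.2 * g x))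
    rw [Fintype.card_fin] at h4
    exact h4
  simp only [h1, h2] at hswap
  rw [integral_indicator_const _ mA] at hswap
  have h5 : ‖P.real A • (2 * Real.pi : ℂ) ^ 2‖ = (2 * Real.pi) ^ 2 * P.real A := by
    rw [norm_smul, norm_pow, norm_mul, Complex.norm_real, Real.norm_of_nonneg measureReal_nonneg,
      Real.norm_of_nonneg Real.pi_pos.le, Complex.norm_ofNat]
    ring
  rw [← h5, hswap]
  rw [← integral_prod_mul (fun s : ℝ => Real.exp (-(3 / 8 * (N * p) * Real.sin s ^ 2)))
    (fun t : ℝ => Real.exp (-(3 / 8 * (N * q) * Real.sin t ^ 2)))]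
  refine norm_integral_le_of_norm_le ?_ (Filter.Eventually.of_forall ?_)
  · refine Integrable.of_bound (C := 1) ?_ (Filter.Eventually.of_forall ?_)
    · exact (Continuous.aestronglyMeasurable (by fun_prop))
    · intro z
      have hp0 : 0 ≤ p := by rw [← hpf]; exact ENNReal.toReal_nonneg
      have hq0 : 0 ≤ q := by rw [← hqg]; exact ENNReal.toReal_nonneg
      rw [← Real.exp_add, Real.norm_of_nonneg (Real.exp_pos _).le, Real.exp_le_one_iff]
      have e1 : 0 ≤ 3 / 8 * (N * p) * Real.sin z.1 ^ 2 := by positivity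
      have e2 : 0 ≤ 3 / 8 * (N * q) * Real.sin z.2 ^ 2 := by positivity
      linarith
  · intro z
    rw [norm_mul, b11_e_norm, one_mul, norm_pow]
    have h6 := b11_phi μ hf hg hfv hgv hfg hpf hqg hfm hgm z.1 z.2
    have h7 : 1 - 3 / 8 * (p * Real.sin z.1 ^ 2 + q * Real.sin z.2 ^ 2) ≤
        Real.exp (-(3 / 8 * (p * Real.sin z.1 ^ 2 + q * Real.sin z.2 ^ 2))) := by
      have := Real.add_one_le_exp (-(3 / 8 * (p * Real.sin z.1 ^ 2 + q * Real.sin z.2 ^ 2)))
      linarith
    calc ‖∫ x, b11_e (z.1 * f x + z.2 * g x) ∂μ‖ ^ N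
        ≤ Real.exp (-(3 / 8 * (p * Real.sin z.1 ^ 2 + q * Real.sin z.2 ^ 2))) ^ N :=
          pow_le_pow_left₀ (norm_nonneg _) (h6.trans h7) N
      _ = Real.exp (-(3 / 8 * (N * p) * Real.sin z.1 ^ 2)) *
          Real.exp (-(3 / 8 * (N * q) * Real.sin z.2 ^ 2)) := by
          rw [← Real.exp_nat_mul, ← Real.exp_add]; congr 1; ring

/-- Two balanced sums with disjoint supports. -/
theorem anti {f g : α → ℤ} (hf : Measurable f) (hg : Measurable g) (hfv : ∀ x, |f x| ≤ 1)
    (hgv : ∀ x, |g x| ≤ 1) (hfg : ∀ x, f x * g x = 0) {N : ℕ} (hN : 0 < N) {p q : ℝ} (hp : 0 < p) (hq : 0 < q)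
    (hpf : (μ {x | f x ≠ 0}).toReal = p) (hqg : (μ {x | g x ≠ 0}).toReal = q)
    (hfm : |∫ x, (f x : ℝ) ∂μ| ≤ p / 2) (hgm : |∫ x, (g x : ℝ) ∂μ| ≤ q / 2) (j l : ℤ) :
    (Measure.pi fun _ : Fin N => μ) {w | ∑ k, f (w k) = j ∧ ∑ k, g (w k) = l} ≤
      ENNReal.ofReal (3 / (N * √(p * q))) := by
  have hN' : (0 : ℝ) < N := Nat.cast_pos.2 hN
  have hpi := Real.pi_pos
  have h0 := b11_inv μ hf hg hfv hgv hfg (N := N) hpf hqg hfm hgm j l
  have hcp : 0 < 3 / 8 * (N * p) := by positivity
  have hcq : 0 < 3 / 8 * (N * q) := by positivity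
  have g1 := b11_gauss hcp
  have g2 := b11_gauss hcq
  have n2 : 0 ≤ ∫ t in Ioc (-Real.pi) Real.pi, Real.exp (-(3 / 8 * (N * q) * Real.sin t ^ 2)) :=
    integral_nonneg fun _ => (Real.exp_pos _).le
  have h1 := h0.trans (mul_le_mul g1 g2 n2 (by positivity))
  have h2 : Real.pi * √Real.pi / √(3 / 8 * (N * p)) * (Real.pi * √Real.pi / √(3 / 8 * (N * q))) =
      Real.pi ^ 3 * 8 / 3 / (N * √(p * q)) := by
    have e1 : √(3 / 8 * (N * p)) * √(3 / 8 * (N * q)) = 3 / 8 * N * √(p * q) := by
      rw [← Real.sqrt_mul hcp.le, show 3 / 8 * (N * p) * (3 / 8 * (N * q)) =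
        (3 / 8 * (N : ℝ)) ^ 2 * (p * q) by ring, Real.sqrt_mul (by positivity),
        Real.sqrt_sq (by positivity)]
    rw [div_mul_div_comm, e1, show Real.pi * √Real.pi * (Real.pi * √Real.pi) =
      Real.pi ^ 2 * (√Real.pi * √Real.pi) by ring, Real.mul_self_sqrt hpi.le]
    have : √(p * q) ≠ 0 := (Real.sqrt_pos.2 (mul_pos hp hq)).ne'
    field_simp
  rw [h2] at h1
  have hsq : 0 < (N : ℝ) * √(p * q) := mul_pos hN' (Real.sqrt_pos.2 (mul_pos hp hq))
  have h3 : (Measure.pi fun _ : Fin N => μ).real {w | ∑ k, f (w k) = j ∧ ∑ k, g (w k) = l} ≤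
      3 / (N * √(p * q)) := by
    rw [le_div_iff₀ hsq]
    have h4 : (2 * Real.pi) ^ 2 * ((Measure.pi fun _ : Fin N => μ).real
        {w | ∑ k, f (w k) = j ∧ ∑ k, g (w k) = l} * (N * √(p * q))) ≤ Real.pi ^ 3 * 8 / 3 := by
      have := mul_le_mul_of_nonneg_right h1 hsq.le
      rw [div_mul_cancel₀ _ hsq.ne'] at this
      linarith
    have h5 : Real.pi ^ 3 * 8 / 3 ≤ (2 * Real.pi) ^ 2 * 3 := by
      have h6 : Real.pi ≤ 4 := Real.pi_le_four
      have h7 : 0 ≤ Real.pi ^ 2 := sq_nonneg _
      nlinarith [mul_le_mul_of_nonneg_left h6 h7]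
    have h8 : 0 < (2 * Real.pi) ^ 2 := by positivity
    exact le_of_mul_le_mul_left (h4.trans h5) h8
  rw [← ENNReal.ofReal_toReal (measure_ne_top (Measure.pi fun _ : Fin N => μ) _)]
  exact ENNReal.ofReal_le_ofReal h3

theorem anti' {f g : α → ℤ} (hf : Measurable f) (hg : Measurable g) (hfv : ∀ x, |f x| ≤ 1)
    (hgv : ∀ x, |g x| ≤ 1) (hfg : ∀ x, f x * g x = 0) {N : ℕ} (hN : 0 < N) (K : ℕ) {p q : ℝ} (hp : 0 < p)
    (hq : 0 < q) (hpf : (μ {x | f x ≠ 0}).toReal = p) (hqg : (μ {x | g x ≠ 0}).toReal = q)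
    (hfm : |∫ x, (f x : ℝ) ∂μ| ≤ p / 2) (hgm : |∫ x, (g x : ℝ) ∂μ| ≤ q / 2) :
    (Measure.pi fun _ : Fin N => μ) {w | |∑ k, f (w k)| ≤ K ∧ |∑ k, g (w k)| ≤ K} ≤
      ENNReal.ofReal ((2 * K + 1) ^ 2 * (3 / (N * √(p * q)))) := by
  set S : Finset (ℤ × ℤ) := Finset.Icc (-(K : ℤ)) K ×ˢ Finset.Icc (-(K : ℤ)) K with hS
  have hsub : {w : Fin N → α | |∑ k, f (w k)| ≤ K ∧ |∑ k, g (w k)| ≤ K} ⊆
      ⋃ z ∈ S, {w | ∑ k, f (w k) = z.1 ∧ ∑ k, g (w k) = z.2} := by
    intro w hw
    simp only [mem_iUnion]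
    refine ⟨(∑ k, f (w k), ∑ k, g (w k)), ?_, ?_⟩
    · rw [hS, Finset.mem_product, Finset.mem_Icc, Finset.mem_Icc]
      exact ⟨abs_le.1 hw.1, abs_le.1 hw.2⟩
    · exact ⟨rfl, rfl⟩
  refine (measure_mono hsub).trans ((measure_biUnion_finset_le _ _).trans ?_)
  refine (Finset.sum_le_card_nsmul S _ (ENNReal.ofReal (3 / (N * √(p * q)))) fun z _ =>
    anti μ hf hg hfv hgv hfg hN hp hq hpf hqg hfm hgm z.1 z.2).trans ?_
  have hcard : S.card = (2 * K + 1) ^ 2 := by
    rw [hS, Finset.card_product, Int.card_Icc]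
    have : (((K : ℤ) + 1 - -(K : ℤ))).toNat = 2 * K + 1 := by omega
    rw [this, sq]
  rw [hcard, nsmul_eq_mul, ENNReal.ofReal_mul (by positivity)]
  apply le_of_eq
  congr 1
  rw [show ((2 : ℝ) * K + 1) ^ 2 = (((2 * K + 1) ^ 2 : ℕ) : ℝ) by push_cast; ring,
    ENNReal.ofReal_natCast]

end Pool.Agent.Helper14.RO
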