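import Pool.Agent.Helper14.RO.Defs

/-!
# Block 22: the lower tail of the binomial distribution
-/

namespace Pool.Agent.Helper14.RO

open MeasureTheory Set
open scoped ENNReal

variable {α : Type*} [MeasurableSpace α] (μ : Measure α) [IsProbabilityMeasure μ]

open Classical in
/-- The number of independent points in a set of measure at least `ρ` is not small. -/
theorem chernoff {A : Set α} (hA : MeasurableSet A) (N m : ℕ) {ρ : ℝ} (hρ : ρ ≤ (μ A).toReal) :
    (Measure.pi fun _ : Fin N => μ) {w | (Finset.univ.filter fun k => w k ∈ A).card ≤ m} ≤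
      ENNReal.ofReal (Real.exp (m - N * ρ / 2)) := by
  set f : α → ℝ := fun x => if x ∈ A then Real.exp (-1) else 1 with hf
  set P : Measure (Fin N → α) := Measure.pi fun _ : Fin N => μ with hP
  have hfm : Measurable f := Measurable.ite hA measurable_const measurable_const
  have hf0 : ∀ x, 0 < f x := by
    intro x
    simp only [hf]
    split_ifs <;> positivity
  have hf1 : ∀ x, f x ≤ 1 := by
    intro x
    simp only [hf]
    split_ifs
    · exact Real.exp_le_one_iff.mpr (by norm_num)
    · exact le_rfl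
  have he : Real.exp (-1) ≤ 1 / 2 := by
    have h1 : (2 : ℝ) ≤ Real.exp 1 := by linarith [Real.exp_one_gt_d9]
    rw [Real.exp_neg, one_div]
    exact inv_anti₀ (by norm_num) h1
  -- the one dimensional integral
  have hint : ∫ x, f x ∂μ ≤ Real.exp (-ρ / 2) := by
    have e1 : ∀ x, f x = 1 - (1 - Real.exp (-1)) * A.indicator 1 x := by
      intro x
      simp only [hf, Set.indicator_apply, Pi.one_apply]
      split_ifs <;> ring
    have e2 : ∫ x, f x ∂μ = 1 - (1 - Real.exp (-1)) * (μ A).toReal := by
      rw [integral_congr_ae (ae_of_all _ e1)]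
      have hi : Integrable (A.indicator (1 : α → ℝ)) μ := (integrable_const (1 : ℝ)).indicator hA
      rw [integral_sub (integrable_const _) (hi.const_mul _), integral_const, integral_const_mul]
      have : ∫ x, A.indicator (1 : α → ℝ) x ∂μ = (μ A).toReal := by
        rw [integral_indicator_one hA]
        rfl
      rw [this]
      simp
    rw [e2]
    have h0 : 0 ≤ (μ A).toReal := ENNReal.toReal_nonneg
    have h1 : 1 - (μ A).toReal / 2 ≤ Real.exp (-((μ A).toReal / 2)) := by
      have := Real.add_one_le_exp (-((μ A).toReal / 2))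
      linarith
    calc 1 - (1 - Real.exp (-1)) * (μ A).toReal ≤ 1 - (μ A).toReal / 2 := by nlinarith
      _ ≤ _ := h1
      _ ≤ _ := Real.exp_le_exp.mpr (by linarith)
  have hint0 : 0 ≤ ∫ x, f x ∂μ := integral_nonneg fun x => (hf0 x).le
  have hprod : ∫ w, ∏ k, f (w k) ∂P = (∫ x, f x ∂μ) ^ N := by
    rw [hP, integral_fintype_prod_eq_prod (fun _ : Fin N => f)]
    simp
  have hFm : Measurable fun w : Fin N → α => ∏ k, f (w k) :=
    Finset.measurable_prod _ fun k _ => hfm.comp (measurable_pi_apply k)
  have hFi : Integrable (fun w : Fin N → α => ∏ k, f (w k)) P := by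
    refine Integrable.mono' (integrable_const (1 : ℝ)) hFm.aestronglyMeasurable (ae_of_all _ fun w => ?_)
    rw [Real.norm_of_nonneg (Finset.prod_nonneg fun k _ => (hf0 _).le)]
    exact Finset.prod_le_one (fun k _ => (hf0 _).le) fun k _ => hf1 _
  have hmark := mul_meas_ge_le_integral_of_nonneg (ae_of_all P fun w : Fin N → α =>
    Finset.prod_nonneg fun k (_ : k ∈ Finset.univ) => (hf0 (w k)).le) hFi (Real.exp (-m))
  have hsub : {w : Fin N → α | (Finset.univ.filter fun k => w k ∈ A).card ≤ m} ⊆
      {w | Real.exp (-m) ≤ ∏ k, f (w k)} := by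
    intro w hw
    rw [Set.mem_ofPred_eq] at hw ⊢
    have e3 : ∏ k, f (w k) = Real.exp (-1) ^ (Finset.univ.filter fun k => w k ∈ A).card := by
      simp only [hf]
      rw [Finset.prod_ite, Finset.prod_const, Finset.prod_const_one, mul_one]
    rw [e3, ← Real.exp_nat_mul]
    refine Real.exp_le_exp.mpr ?_
    have : ((Finset.univ.filter fun k => w k ∈ A).card : ℝ) ≤ m := by exact_mod_cast hw
    linarith
  refine (measure_mono hsub).trans ?_
  have hfin : P {w | Real.exp (-m) ≤ ∏ k, f (w k)} ≠ ∞ := measure_ne_top _ _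
  rw [← ENNReal.ofReal_toReal hfin]
  refine ENNReal.ofReal_le_ofReal ?_
  have h5 : Real.exp (-m) * (P {w | Real.exp (-m) ≤ ∏ k, f (w k)}).toReal ≤ Real.exp (-ρ / 2) ^ N := by
    refine le_trans hmark ?_
    rw [hprod]
    exact pow_le_pow_left₀ hint0 hint N
  rw [← Real.exp_nat_mul] at h5
  have h6 : (P {w | Real.exp (-m) ≤ ∏ k, f (w k)}).toReal =
      Real.exp m * (Real.exp (-m) * (P {w | Real.exp (-m) ≤ ∏ k, f (w k)}).toReal) := by
    rw [← mul_assoc, ← Real.exp_add]
    simp
  rw [h6]
  calc _ ≤ Real.exp m * Real.exp (N * (-ρ / 2)) := mul_le_mul_of_nonneg_left h5 (Real.exp_pos _).le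
    _ = _ := by
      rw [← Real.exp_add]
      congr 1
      ring

end Pool.Agent.Helper14.RO
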