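import Pool.Agent.Helper14.RO.B01
import Pool.Agent.Helper14.RO.B02
import Pool.Agent.Helper14.RO.B21
import Pool.Agent.Helper14.RO.B10
import Pool.Agent.Helper14.RO.B11
import Pool.Agent.Helper14.RO.B22

/-!
# Block 12: the probability of a near collision, and of near twins, for two given points
-/

namespace Pool.Agent.Helper14.RO

open MeasureTheory Set
open scoped ENNReal

theorem b12_abs_ff {d : ℕ} (a b w : Fin d → ℝ) : |ff a b w| ≤ 1 := by
  unfold ff
  split_ifs <;> simp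

theorem b12_abs_gg {d : ℕ} (a b w : Fin d → ℝ) : |gg a b w| ≤ 1 := by
  unfold gg
  split_ifs <;> simp

theorem b12_mu_ff {d : ℕ} {a b : Fin d → ℝ} (ha : a ∈ Cube d) (hb : b ∈ Cube d) :
    (mu d {w | ff a b w ≠ 0}).toReal = pp a b := by
  rw [mu_ff ha hb, ENNReal.toReal_ofReal (pp_nonneg ha hb)]

theorem b12_mu_gg {d : ℕ} {a b : Fin d → ℝ} (ha : a ∈ Cube d) (hb : b ∈ Cube d) :
    (mu d {w | gg a b w ≠ 0}).toReal = qq a b := by
  rw [mu_gg ha hb, ENNReal.toReal_ofReal (qq_nonneg ha hb)]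

open Classical in
/-- `gg`, changed to zero at `a` and `b`. -/
noncomputable def b12_gg' {d : ℕ} (a b w : Fin d → ℝ) : ℤ := if w = a ∨ w = b then 0 else gg a b w

theorem b12_meas_gg {d : ℕ} (a b : Fin d → ℝ) : Measurable (b12_gg' a b) := by
  classical
  unfold b12_gg'
  exact Measurable.ite ((MeasurableSet.singleton a).union (MeasurableSet.singleton b))
    measurable_const (meas_gg a b)

theorem b12_abs_gg' {d : ℕ} (a b w : Fin d → ℝ) : |b12_gg' a b w| ≤ 1 := by
  unfold b12_gg'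
  split_ifs
  · simp
  · exact b12_abs_gg a b w

theorem b12_ff_mul_gg' {d : ℕ} {a b : Fin d → ℝ} (h : ¬ a ≤ b) (h' : ¬ b ≤ a) (w : Fin d → ℝ) :
    ff a b w * b12_gg' a b w = 0 := by
  unfold b12_gg'
  split_ifs with hw
  · simp
  · exact ff_mul_gg h h' (fun e => hw (Or.inl e)) (fun e => hw (Or.inr e))

theorem b12_ae_gg {d : ℕ} (a b : Fin d → ℝ) (h : ¬ a ≤ b) :
    ∀ᵐ w ∂mu d, b12_gg' a b w = gg a b w := by
  have hne : ∃ i : Fin d, ¬ a i ≤ b i := by
    simpa [Pi.le_def] using h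
  obtain ⟨i, -⟩ := hne
  have h1 : NullSingletonClass mu1 := by
    unfold mu1
    infer_instance
  have h2 : NullSingletonClass (mu d) := by
    unfold mu
    exact Measure.pi_nullSingletonClass i
  have e1 : ∀ᵐ w ∂mu d, w ≠ a := by
    rw [ae_iff]
    simp
  have e2 : ∀ᵐ w ∂mu d, w ≠ b := by
    rw [ae_iff]
    simp
  filter_upwards [e1, e2] with w h3 h4
  unfold b12_gg'
  rw [if_neg]
  exact fun h => h.elim h3 h4

theorem b12_ae_set {d : ℕ} {a b : Fin d → ℝ} (h : ∀ᵐ w ∂mu d, b12_gg' a b w = gg a b w) :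
    {x | b12_gg' a b x ≠ 0} =ᵐ[mu d] {x | gg a b x ≠ 0} := by
  filter_upwards [h] with w hw
  apply propext
  show b12_gg' a b w ≠ 0 ↔ gg a b w ≠ 0
  rw [hw]

theorem pair_col {d N K : ℕ} (hN : 0 < N) {a b : Fin d → ℝ} (ha : a ∈ Cube d)
    (hb : b ∈ Cube d) {s : ℝ} (hs : 0 < s) :
    nu d N {w | (a, b, w) ∈ Col K} ≤ ENNReal.ofReal (Real.exp (K / 2 - N * s ^ 2 / 4)) +
      ({z : (Fin d → ℝ) × (Fin d → ℝ) | pp z.1 z.2 < 4 * s ^ 2}.indicator 1 (a, b) +
      ({z : (Fin d → ℝ) × (Fin d → ℝ) | qq z.1 z.2 < 4 * s ^ 2}.indicator 1 (a, b) +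
      ENNReal.ofReal ((2 * K + 1) ^ 2 * 3 / N) * {z : (Fin d → ℝ) × (Fin d → ℝ) | Bal s z.1 z.2}.indicator
        (fun z => ENNReal.ofReal (1 / √(pp z.1 z.2 * qq z.1 z.2))) (a, b))) := by
  have h1 : nu d N {w | (a, b, w) ∈ Col K} ≤ 1 := prob_le_one
  by_cases hX : s ^ 2 * pp a b < (X a - X b) ^ 2
  · refine le_trans ?_ le_self_add
    refine le_trans (measure_mono ?_) (mgf_bound (mu d) (meas_ff a b) (b12_abs_ff a b) N K
      (b12_mu_ff ha hb).le hs (by rw [int_ff ha hb]; exact hX))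
    intro w hw
    exact hw.1
  by_cases hY : s ^ 2 * qq a b < (Y a - Y b) ^ 2
  · refine le_trans ?_ le_self_add
    refine le_trans (measure_mono ?_) (mgf_bound (mu d) (meas_gg a b) (b12_abs_gg a b) N K
      (b12_mu_gg ha hb).le hs (by rw [int_gg ha hb]; exact hY))
    intro w hw
    exact hw.2
  refine le_trans ?_ le_add_self
  by_cases hp : pp a b < 4 * s ^ 2
  · refine le_trans ?_ le_self_add
    rw [indicator_of_mem (by exact hp)]
    exact h1
  refine le_trans ?_ le_add_self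
  by_cases hq : qq a b < 4 * s ^ 2
  · refine le_trans ?_ le_self_add
    rw [indicator_of_mem (by exact hq)]
    exact h1
  refine le_trans ?_ le_add_self
  have hBal : Bal s a b := ⟨not_lt.1 hp, not_lt.1 hq, not_lt.1 hX, not_lt.1 hY⟩
  rw [indicator_of_mem (by exact hBal), ← ENNReal.ofReal_mul (by positivity)]
  have hp0 : 0 < pp a b := lt_of_lt_of_le (by positivity) (not_lt.1 hp)
  have hq0 : 0 < qq a b := lt_of_lt_of_le (by positivity) (not_lt.1 hq)
  obtain ⟨i1, i2⟩ := hBal.incomp ha hb hs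
  obtain ⟨m1, m2⟩ := hBal.half hs
  have hae := b12_ae_gg a b i1
  have key := anti' (mu d) (meas_ff a b) (b12_meas_gg a b) (b12_abs_ff a b) (b12_abs_gg' a b)
    (b12_ff_mul_gg' i1 i2) hN K hp0 hq0 (b12_mu_ff ha hb)
    (by rw [← b12_mu_gg ha hb]; exact congrArg ENNReal.toReal (measure_congr (b12_ae_set hae)))
    (by rw [int_ff ha hb]; exact m1)
    (by
      rw [integral_congr_ae (g := fun x => (gg a b x : ℝ)) (hae.mono fun w hw => by simp only [hw]),
        int_gg ha hb]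
      exact m2)
  refine le_trans (measure_mono_ae ?_) (le_trans key (ENNReal.ofReal_le_ofReal (le_of_eq ?_)))
  · have hall : ∀ᵐ w ∂nu d N, ∀ k, b12_gg' a b (w k) = gg a b (w k) := by
      rw [ae_all_iff]
      intro k
      exact (Measure.quasiMeasurePreserving_eval (fun _ : Fin N => mu d) k).ae hae
    filter_upwards [hall] with w hw h
    have h' : |∑ k, ff a b (w k)| ≤ K ∧ |∑ k, gg a b (w k)| ≤ K := h
    refine ⟨h'.1, ?_⟩
    simp only [hw]
    exact h'.2
  · have hN' : (0 : ℝ) < N := by exact_mod_cast hN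
    have hs0 : 0 < √(pp a b * qq a b) := Real.sqrt_pos.2 (mul_pos hp0 hq0)
    field_simp

theorem pair_tw {d N m : ℕ} {a b : Fin d → ℝ} (ha : a ∈ Cube d) (hb : b ∈ Cube d) (κ : ℝ) :
    nu d N {w | (a, b, w) ∈ Tw m} ≤ ENNReal.ofReal (Real.exp (m - N * κ / 2)) +
      {z : (Fin d → ℝ) × (Fin d → ℝ) | pp z.1 z.2 < κ ∧ qq z.1 z.2 < κ}.indicator 1 (a, b) := by
  classical
  have h1 : nu d N {w | (a, b, w) ∈ Tw m} ≤ 1 := prob_le_one
  by_cases hk : pp a b < κ ∧ qq a b < κ
  · refine le_trans ?_ le_add_self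
    rw [indicator_of_mem (by exact hk)]
    exact h1
  refine le_trans ?_ le_self_add
  set A : Set (Fin d → ℝ) := {w | ff a b w ≠ 0 ∨ gg a b w ≠ 0} with hA
  have mA : MeasurableSet A :=
    ((meas_ff a b) (MeasurableSet.singleton 0)).compl.union
      ((meas_gg a b) (MeasurableSet.singleton 0)).compl
  have hκ : κ ≤ (mu d A).toReal := by
    by_cases hp : pp a b < κ
    · have hq : κ ≤ qq a b := not_lt.1 fun h => hk ⟨hp, h⟩
      refine hq.trans ?_
      rw [← b12_mu_gg ha hb]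
      exact ENNReal.toReal_mono (measure_ne_top _ _) (measure_mono fun w hw => Or.inr hw)
    · refine (not_lt.1 hp).trans ?_
      rw [← b12_mu_ff ha hb]
      exact ENNReal.toReal_mono (measure_ne_top _ _) (measure_mono fun w hw => Or.inl hw)
  refine le_trans (measure_mono ?_) (chernoff (mu d) mA N m hκ)
  intro w hw
  have hw' := hw
  simp only [Set.mem_ofPred_eq, Tw] at hw' ⊢
  convert hw' using 2
  ext k
  simp only [Finset.mem_filter, Finset.mem_univ, true_and]
  rfl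

end Pool.Agent.Helper14.RO
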