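import Pool.Agent.Helper14.RO.Defs

/-!
# Block 13: the expected number of pairs with a pair event, and Markov's inequality
-/

namespace Pool.Agent.Helper14.RO

open MeasureTheory Set
open scoped ENNReal

theorem b13_split {d n : ℕ} (u : Fin (n + 1)) :
    MeasurePreserving (fun ω : Fin (n + 1) → Fin d → ℝ => (ω u, fun k => ω (u.succAbove k))) (nu d (n + 1))
      ((mu d).prod (nu d n)) :=
  measurePreserving_piFinSuccAbove (fun _ : Fin (n + 1) => mu d) u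

theorem b13_ev {d N : ℕ} (u : Fin (N + 2)) (v : Fin (N + 1)) :
    MeasurePreserving (fun ω : Fin (N + 2) → Fin d → ℝ => ev ω u v) (nu d (N + 2))
      ((mu d).prod ((mu d).prod (nu d N))) :=
  ((MeasurePreserving.id (mu d)).prod (b13_split v)).comp (b13_split u)

theorem b13_meas {d N : ℕ} {C : Set ((Fin d → ℝ) × (Fin d → ℝ) × (Fin N → Fin d → ℝ))} (hC : MeasurableSet C)
    (u : Fin (N + 2)) (v : Fin (N + 1)) : nu d (N + 2) {ω | ev ω u v ∈ C} =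
      ∫⁻ z, nu d N {w | (z.1, z.2, w) ∈ C} ∂((mu d).prod (mu d)) := by
  have h1 : nu d (N + 2) {ω | ev ω u v ∈ C} = ((mu d).prod ((mu d).prod (nu d N))) C :=
    (b13_ev u v).measure_preimage hC.nullMeasurableSet
  rw [h1, Measure.prod_apply hC]
  have hC' : MeasurableSet ((fun z : ((Fin d → ℝ) × (Fin d → ℝ)) × (Fin N → Fin d → ℝ) => (z.1.1, z.1.2, z.2)) ⁻¹' C) :=
    hC.preimage (by fun_prop)
  rw [lintegral_prod]
  · refine lintegral_congr fun a => ?_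
    have ha : MeasurableSet (Prod.mk a ⁻¹' C) := hC.preimage measurable_prodMk_left
    rw [Measure.prod_apply ha]
    rfl
  · exact (measurable_measure_prodMk_left hC').aemeasurable

theorem markov {d N : ℕ} {C : Set ((Fin d → ℝ) × (Fin d → ℝ) × (Fin N → Fin d → ℝ))}
    (hC : MeasurableSet C) {m : ℝ} (hm : 0 < m) :
    nu d (N + 2) {ω | m ≤ cnt C ω} ≤
      ENNReal.ofReal ((N + 2) * (N + 1) / m) *
        ∫⁻ z, nu d N {w | (z.1, z.2, w) ∈ C} ∂((mu d).prod (mu d)) := by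
  classical
  set I := ∫⁻ z, nu d N {w | (z.1, z.2, w) ∈ C} ∂((mu d).prod (mu d)) with hI
  have hev : ∀ t : Fin (N + 2) × Fin (N + 1), MeasurableSet {ω : Fin (N + 2) → Fin d → ℝ | ev ω t.1 t.2 ∈ C} := fun t =>
    hC.preimage (b13_ev t.1 t.2).measurable
  have hcnt : ∀ ω : Fin (N + 2) → Fin d → ℝ, ((cnt C ω : ℕ) : ℝ≥0∞) =
      ∑ t : Fin (N + 2) × Fin (N + 1), indicator {ω : Fin (N + 2) → Fin d → ℝ | ev ω t.1 t.2 ∈ C} (fun _ => (1 : ℝ≥0∞)) ω := by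
    intro ω
    unfold cnt
    rw [Finset.card_filter]
    push_cast
    refine Finset.sum_congr rfl fun t _ => ?_
    by_cases h : ev ω t.1 t.2 ∈ C
    · rw [if_pos h, indicator_of_mem (show ω ∈ {ω : Fin (N + 2) → Fin d → ℝ | ev ω t.1 t.2 ∈ C} from h)]
    · rw [if_neg h, indicator_of_notMem (show ω ∉ {ω : Fin (N + 2) → Fin d → ℝ | ev ω t.1 t.2 ∈ C} from h)]
  have hmeas : Measurable fun ω : Fin (N + 2) → Fin d → ℝ => ((cnt C ω : ℕ) : ℝ≥0∞) := by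
    have h : (fun ω : Fin (N + 2) → Fin d → ℝ => ((cnt C ω : ℕ) : ℝ≥0∞)) = fun ω =>
        ∑ t : Fin (N + 2) × Fin (N + 1), indicator {ω : Fin (N + 2) → Fin d → ℝ | ev ω t.1 t.2 ∈ C} (fun _ => (1 : ℝ≥0∞)) ω :=
      funext hcnt
    rw [h]
    exact Finset.measurable_sum _ fun t _ => measurable_const.indicator (hev t)
  have hint : ∫⁻ ω, ((cnt C ω : ℕ) : ℝ≥0∞) ∂(nu d (N + 2)) = ((N + 2 : ℕ) : ℝ≥0∞) * ((N + 1 : ℕ) : ℝ≥0∞) * I := by
    simp_rw [hcnt]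
    rw [lintegral_finsetSum _ fun t _ => measurable_const.indicator (hev t)]
    have h : ∀ t : Fin (N + 2) × Fin (N + 1), ∫⁻ ω, indicator {ω : Fin (N + 2) → Fin d → ℝ | ev ω t.1 t.2 ∈ C} (fun _ => (1 : ℝ≥0∞)) ω
        ∂(nu d (N + 2)) = I := fun t => by
      rw [lintegral_indicator_const (hev t), one_mul, b13_meas hC]
    rw [Finset.sum_congr rfl fun t _ => h t, Finset.sum_const, Finset.card_univ, Fintype.card_prod, Fintype.card_fin,
      Fintype.card_fin, nsmul_eq_mul]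
    push_cast
    rfl
  have hset : {ω : Fin (N + 2) → Fin d → ℝ | m ≤ cnt C ω} = {ω | ENNReal.ofReal m ≤ ((cnt C ω : ℕ) : ℝ≥0∞)} := by
    ext ω
    change m ≤ ((cnt C ω : ℕ) : ℝ) ↔ ENNReal.ofReal m ≤ ((cnt C ω : ℕ) : ℝ≥0∞)
    rw [← ENNReal.ofReal_natCast, ENNReal.ofReal_le_ofReal_iff (Nat.cast_nonneg _)]
  have hmk := mul_meas_ge_le_lintegral (μ := nu d (N + 2)) hmeas (ENNReal.ofReal m)
  rw [hint] at hmk
  rw [hset]
  have hm0 : ENNReal.ofReal m ≠ 0 := (ENNReal.ofReal_pos.2 hm).ne'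
  have h2 : nu d (N + 2) {ω | ENNReal.ofReal m ≤ ((cnt C ω : ℕ) : ℝ≥0∞)} ≤
      ((N + 2 : ℕ) : ℝ≥0∞) * ((N + 1 : ℕ) : ℝ≥0∞) * I / ENNReal.ofReal m := by
    rw [ENNReal.le_div_iff_mul_le (Or.inl hm0) (Or.inl ENNReal.ofReal_ne_top), mul_comm]
    exact hmk
  refine h2.trans (le_of_eq ?_)
  rw [ENNReal.ofReal_div_of_pos hm, ENNReal.ofReal_mul (by positivity)]
  have e1 : ENNReal.ofReal ((N : ℝ) + 2) = ((N + 2 : ℕ) : ℝ≥0∞) := by
    rw [← ENNReal.ofReal_natCast]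
    push_cast
    rfl
  have e2 : ENNReal.ofReal ((N : ℝ) + 1) = ((N + 1 : ℕ) : ℝ≥0∞) := by
    rw [← ENNReal.ofReal_natCast]
    push_cast
    rfl
  rw [e1, e2, ENNReal.div_eq_inv_mul, ENNReal.div_eq_inv_mul]
  ring

/-- The union bound for single points. -/
theorem single {d n : ℕ} {A : Set (Fin d → ℝ)} (hA : MeasurableSet A) :
    nu d n {ω | ∃ u, ω u ∈ A} ≤ n * mu d A := by
  have h1 : {ω : Fin n → Fin d → ℝ | ∃ u, ω u ∈ A} = ⋃ u, {ω | ω u ∈ A} := by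
    ext ω
    simp
  rw [h1]
  refine (measure_iUnion_le _).trans ?_
  rw [tsum_fintype]
  have h2 : ∀ u : Fin n, nu d n {ω | ω u ∈ A} = mu d A := fun u =>
    (measurePreserving_eval (fun _ : Fin n => mu d) u).measure_preimage hA.nullMeasurableSet
  rw [Finset.sum_congr rfl fun u _ => h2 u, Finset.sum_const, Finset.card_univ, Fintype.card_fin, nsmul_eq_mul]

end Pool.Agent.Helper14.RO
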