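import Pool.Agent.Helper14.RO.Defs

/-!
# Block 14: few near collisions and no near twins imply that the order is rigid
-/

namespace Pool.Agent.Helper14.RO

open Classical in
/-- the moved points -/
noncomputable def mv {n : ℕ} (g : Fin n → Fin n) : Finset (Fin n) := Finset.univ.filter fun a => g a ≠ a

theorem card_mv_le {d N : ℕ} (ω : Fin (N + 2) → Fin d → ℝ) (g : Fin (N + 2) → Fin (N + 2))
    (C : Set ((Fin d → ℝ) × (Fin d → ℝ) × (Fin N → Fin d → ℝ)))
    (h : ∀ a v, g a ≠ a → a.succAbove v = g a → ev ω a v ∈ C) : (mv g).card ≤ cnt C ω := by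
  classical
  have hex : ∀ a : Fin (N + 2), g a ≠ a → ∃ v, a.succAbove v = g a := fun a ha =>
    Fin.exists_succAbove_eq ha
  have : ∀ a : Fin (N + 2), ∃ v : Fin (N + 1), g a ≠ a → a.succAbove v = g a := by
    intro a
    by_cases ha : g a ≠ a
    · obtain ⟨v, hv⟩ := hex a ha
      exact ⟨v, fun _ => hv⟩
    · exact ⟨0, fun h => absurd h ha⟩
  choose f hf using this
  unfold cnt
  refine Finset.card_le_card_of_injOn (fun a => (a, f a)) ?_ ?_
  · intro a ha
    have ha' : g a ≠ a := by simpa [mv] using ha
    have := h a (f a) ha' (hf a ha')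
    simpa using this
  · intro a _ b _ hab
    exact (Prod.mk.inj hab).1

/-- the image of the complement of `D` misses at most `D.card` points -/
theorem card_compl_image {n : ℕ} (D : Finset (Fin n)) (g : Fin n → Fin n)
    (hinj : ∀ a b, a ∉ D → b ∉ D → g a = g b → a = b) :
    (Finset.univ.filter fun w => ∀ a, a ∉ D → g a ≠ w).card ≤ D.card := by
  classical
  have h1 : (Dᶜ.image g).card = Dᶜ.card := by
    refine Finset.card_image_of_injOn ?_
    intro a ha b hb hab
    exact hinj a b (by simpa using ha) (by simpa using hb) hab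
  have h2 : (Finset.univ.filter fun w => ∀ a, a ∉ D → g a ≠ w) = (Dᶜ.image g)ᶜ := by
    ext w
    simp only [Finset.mem_filter, Finset.mem_univ, true_and, Finset.mem_compl, Finset.mem_image, not_exists,
      not_and]
  rw [h2, Finset.card_compl, h1, Finset.card_compl]
  have := Finset.card_le_univ D
  omega

/-- counting: the numbers of points with a property preserved by `g` -/
theorem count_close {n : ℕ} (D : Finset (Fin n)) (g : Fin n → Fin n)
    (hinj : ∀ a b, a ∉ D → b ∉ D → g a = g b → a = b) (p q : Fin n → Prop) [DecidablePred p] [DecidablePred q]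
    (hpq : ∀ w, w ∉ D → (p w ↔ q (g w))) :
    (Finset.univ.filter p).card ≤ (Finset.univ.filter q).card + D.card ∧
      (Finset.univ.filter q).card ≤ (Finset.univ.filter p).card + D.card := by
  classical
  constructor
  · have h1 : (Finset.univ.filter p) ⊆ (Finset.univ.filter fun w => p w ∧ w ∉ D) ∪ D := by
      intro w hw
      simp only [Finset.mem_filter, Finset.mem_univ, true_and, Finset.mem_union] at hw ⊢
      tauto
    have h2 : (Finset.univ.filter fun w => p w ∧ w ∉ D).card ≤ (Finset.univ.filter q).card := by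
      refine Finset.card_le_card_of_injOn g ?_ ?_
      · intro w hw
        simp only [Finset.coe_filter, Finset.mem_univ, true_and, Set.mem_setOf_eq] at hw ⊢
        exact (hpq w hw.2).1 hw.1
      · intro a ha b hb hab
        simp only [Finset.coe_filter, Finset.mem_univ, true_and, Set.mem_setOf_eq] at ha hb
        exact hinj a b ha.2 hb.2 hab
    calc (Finset.univ.filter p).card ≤ _ := Finset.card_le_card h1
      _ ≤ _ := Finset.card_union_le _ _
      _ ≤ _ := by omega
  · have h1 : (Finset.univ.filter q) ⊆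
        (Finset.univ.filter fun w => p w ∧ w ∉ D).image g ∪ (Finset.univ.filter fun w => ∀ a, a ∉ D → g a ≠ w) := by
      intro w hw
      simp only [Finset.mem_filter, Finset.mem_univ, true_and, Finset.mem_union, Finset.mem_image] at hw ⊢
      by_cases h : ∀ a, a ∉ D → g a ≠ w
      · exact Or.inr h
      · push_neg at h
        obtain ⟨a, ha, rfl⟩ := h
        exact Or.inl ⟨a, ⟨(hpq a ha).2 hw, ha⟩, rfl⟩
    have h2 : ((Finset.univ.filter fun w => p w ∧ w ∉ D).image g).card ≤ (Finset.univ.filter p).card := by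
      refine Finset.card_image_le.trans (Finset.card_le_card ?_)
      intro w hw
      simp only [Finset.mem_filter, Finset.mem_univ, true_and] at hw ⊢
      exact hw.1
    have h3 := card_compl_image D g hinj
    calc (Finset.univ.filter q).card ≤ _ := Finset.card_le_card h1
      _ ≤ _ := Finset.card_union_le _ _
      _ ≤ _ := by omega

theorem sum_ind_sub {n : ℕ} (p q : Fin n → Prop) [DecidablePred p] [DecidablePred q] :
    ∑ w, (((if p w then 1 else 0) : ℤ) - (if q w then 1 else 0)) =
      ((Finset.univ.filter p).card : ℤ) - (Finset.univ.filter q).card := by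
  rw [Finset.sum_sub_distrib, Finset.sum_boole, Finset.sum_boole]

theorem two_out {N : ℕ} (F : Fin (N + 2) → ℤ) (a : Fin (N + 2)) (v : Fin (N + 1)) :
    ∑ k : Fin N, F (a.succAbove (v.succAbove k)) = ∑ w, F w - F a - F (a.succAbove v) := by
  rw [Fin.sum_univ_succAbove F a, Fin.sum_univ_succAbove (fun j => F (a.succAbove j)) v]
  ring

theorem rig_of_cnt {d N L m₀ m₁ m₂ : ℕ} (ω : Fin (N + 2) → Fin d → ℝ) (h0 : cnt (Col (L + 1)) ω ≤ m₀)
    (h1 : cnt (Tw (m₀ + L)) ω ≤ m₁) (h2 : cnt (Tw (m₁ + L)) ω ≤ m₂) (h3 : cnt (Tw (m₂ + L)) ω = 0) :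
    Rig L (rel ω) := by
  classical
  intro D g hD hfix hinj hr
  have hmD : ∀ a, g a ≠ a → a ∉ D := fun a ha h => ha (hfix a h)
  have hCol : (mv g).card ≤ cnt (Col (L + 1)) ω := by
    refine card_mv_le ω g _ ?_
    intro a v ha hv
    have haD := hmD a ha
    have e1 := count_close D g hinj (fun w => ω w ≤ ω a) (fun w => ω w ≤ ω (g a)) (fun w hw => hr w a hw haD)
    have e2 := count_close D g hinj (fun w => ω a ≤ ω w) (fun w => ω (g a) ≤ ω w) (fun w hw => hr a w haD hw)
    have s1 := sum_ind_sub (fun w => ω w ≤ ω a) (fun w => ω w ≤ ω (g a))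
    have s2 := sum_ind_sub (fun w => ω a ≤ ω w) (fun w => ω (g a) ≤ ω w)
    refine ⟨?_, ?_⟩
    · show |∑ k, ff (ω a) (ω (a.succAbove v)) (ω (a.succAbove (v.succAbove k)))| ≤ _
      have t := two_out (fun w => ff (ω a) (ω (a.succAbove v)) (ω w)) a v
      rw [t, hv]
      have u : ∑ w, ff (ω a) (ω (g a)) (ω w) =
          ∑ w, (((if ω w ≤ ω a then 1 else 0) : ℤ) - (if ω w ≤ ω (g a) then 1 else 0)) := rfl
      rw [u, s1]
      have k1 : ff (ω a) (ω (g a)) (ω a) = 1 - (if ω a ≤ ω (g a) then 1 else 0) := by simp [ff]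
      have k2 : ff (ω a) (ω (g a)) (ω (g a)) = (if ω (g a) ≤ ω a then 1 else 0) - 1 := by simp [ff]
      rw [k1, k2, abs_le]
      push_cast
      split_ifs <;> constructor <;> omega
    · show |∑ k, gg (ω a) (ω (a.succAbove v)) (ω (a.succAbove (v.succAbove k)))| ≤ _
      have t := two_out (fun w => gg (ω a) (ω (a.succAbove v)) (ω w)) a v
      rw [t, hv]
      have u : ∑ w, gg (ω a) (ω (g a)) (ω w) =
          ∑ w, (((if ω a ≤ ω w then 1 else 0) : ℤ) - (if ω (g a) ≤ ω w then 1 else 0)) := rfl
      rw [u, s2]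
      have k1 : gg (ω a) (ω (g a)) (ω a) = 1 - (if ω (g a) ≤ ω a then 1 else 0) := by simp [gg]
      have k2 : gg (ω a) (ω (g a)) (ω (g a)) = (if ω a ≤ ω (g a) then 1 else 0) - 1 := by simp [gg]
      rw [k1, k2, abs_le]
      push_cast
      split_ifs <;> constructor <;> omega
  have hTw : ∀ m, (mv g).card ≤ m → (mv g).card ≤ cnt (Tw (m + L)) ω := by
    intro m hm
    refine card_mv_le ω g _ ?_
    intro a v ha hv
    have haD := hmD a ha
    show (Finset.univ.filter fun k => ff (ω a) (ω (a.succAbove v)) (ω (a.succAbove (v.succAbove k))) ≠ 0 ∨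
      gg (ω a) (ω (a.succAbove v)) (ω (a.succAbove (v.succAbove k))) ≠ 0).card ≤ m + L
    have hle : (Finset.univ.filter fun k => ff (ω a) (ω (a.succAbove v)) (ω (a.succAbove (v.succAbove k))) ≠ 0 ∨
      gg (ω a) (ω (a.succAbove v)) (ω (a.succAbove (v.succAbove k))) ≠ 0).card ≤ (mv g ∪ D).card := by
      refine Finset.card_le_card_of_injOn (fun k => a.succAbove (v.succAbove k)) ?_ ?_
      · intro k hk
        rw [hv] at hk
        simp only [Finset.coe_filter, Finset.mem_univ, true_and, Set.mem_setOf_eq] at hk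
        set w := a.succAbove (v.succAbove k) with hw
        simp only [Finset.coe_union, Set.mem_union, Finset.mem_coe, mv, Finset.mem_filter, Finset.mem_univ,
          true_and]
        by_contra hcon
        push_neg at hcon
        obtain ⟨hc1, hc2⟩ := hcon
        have r1 : ω w ≤ ω a ↔ ω w ≤ ω (g a) := by
          have := hr w a hc2 haD
          rw [hc1] at this
          exact this
        have r2 : ω a ≤ ω w ↔ ω (g a) ≤ ω w := by
          have := hr a w haD hc2
          rw [hc1] at this
          exact this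
        rcases hk with hk | hk
        · apply hk
          simp [ff, r1]
        · apply hk
          simp [gg, r2]
      · intro k _ k' _ hkk
        exact Fin.succAbove_right_injective (Fin.succAbove_right_injective hkk)
    refine hle.trans ((Finset.card_union_le _ _).trans ?_)
    omega
  have m0 : (mv g).card ≤ m₀ := hCol.trans h0
  have m1 : (mv g).card ≤ m₁ := (hTw m₀ m0).trans h1
  have m2 : (mv g).card ≤ m₂ := (hTw m₁ m1).trans h2
  have m3 : (mv g).card ≤ 0 := (hTw m₂ m2).trans h3.le
  intro a
  by_contra ha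
  have : a ∈ mv g := by simp [mv, ha]
  have := Finset.card_pos.2 ⟨a, this⟩
  omega

end Pool.Agent.Helper14.RO
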