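import Pool.Agent.Helper14.RO.Defs

/-!
# Block 15: rigid orders are determined; consequences for decks
-/

namespace Pool.Agent.Helper14.RO

open Pool.Agent.Helper87.PD

/-- Adapt `determined_of_rigid` in `Pool/Agent/Helper87/PD/Rec.lean`. -/
theorem det_of_rig {n K : ℕ} {r : Fin n → Fin n → Prop} (h : Rig (2 * K) r) : Det K r := by
  classical
  intro s _ ι A A' hA hiso hcov
  choose f hf using hiso
  -- the maps in the other direction
  have hcard : ∀ i, n ≤ (A' i).card + K := by
    intro i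
    have h1 : (A i).card = (A' i).card := by
      rw [← Fintype.card_coe, ← Fintype.card_coe]
      exact Fintype.card_congr (f i)
    rw [← h1]
    exact hA i
  have key : ∀ i j (u : Fin n) (hi : u ∈ A' i) (hj : u ∈ A' j),
      (((f i).symm ⟨u, hi⟩ : A i) : Fin n) = ((f j).symm ⟨u, hj⟩ : A j) := by
    intro i j u hi hj
    -- the partial map
    let Q : Fin n → Prop := fun a => ∃ ha : a ∈ A i, ((f i ⟨a, ha⟩ : A' i) : Fin n) ∈ A' j
    let g : Fin n → Fin n := fun a =>
      if hq : Q a then ((f j).symm ⟨(f i ⟨a, hq.1⟩ : A' i), hq.2⟩ : A j) else a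
    let X : Finset (Fin n) := Finset.univ.filter fun a => ¬ Q a
    have hgQ : ∀ a (hq : Q a), g a = ((f j).symm ⟨(f i ⟨a, hq.1⟩ : A' i), hq.2⟩ : A j) := by
      intro a hq
      exact dif_pos hq
    have hXmem : ∀ a, a ∉ X → Q a := by
      intro a ha
      by_contra h1
      exact ha (Finset.mem_filter.2 ⟨Finset.mem_univ _, h1⟩)
    have hXc : X.card ≤ 2 * K := by
      have h1 : (Finset.univ.filter fun a => Q a).card = (A' i ∩ A' j).card := by
        refine Finset.card_bij' (fun a _ => if ha : a ∈ A i then ((f i ⟨a, ha⟩ : A' i) : Fin n) else a)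
          (fun b _ => if hb : b ∈ A' i then (((f i).symm ⟨b, hb⟩ : A i) : Fin n) else b) ?_ ?_ ?_ ?_
        · intro a ha
          obtain ⟨ha1, ha2⟩ := (Finset.mem_filter.1 ha).2
          simp only [ha1, dif_pos]
          exact Finset.mem_inter.2 ⟨(f i ⟨a, ha1⟩).2, ha2⟩
        · intro b hb
          obtain ⟨hb1, hb2⟩ := Finset.mem_inter.1 hb
          simp only [hb1, dif_pos]
          refine Finset.mem_filter.2 ⟨Finset.mem_univ _, ((f i).symm ⟨b, hb1⟩).2, ?_⟩
          have e : (⟨(((f i).symm ⟨b, hb1⟩ : A i) : Fin n), ((f i).symm ⟨b, hb1⟩).2⟩ : A i) =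
              (f i).symm ⟨b, hb1⟩ := rfl
          rw [e, Equiv.apply_symm_apply]
          exact hb2
        · intro a ha
          obtain ⟨ha1, ha2⟩ := (Finset.mem_filter.1 ha).2
          have h2 : ((f i ⟨a, ha1⟩ : A' i) : Fin n) ∈ A' i := (f i ⟨a, ha1⟩).2
          simp only [ha1, dif_pos, h2, Subtype.coe_eta, Equiv.symm_apply_apply]
        · intro b hb
          obtain ⟨hb1, hb2⟩ := Finset.mem_inter.1 hb
          have h2 : (((f i).symm ⟨b, hb1⟩ : A i) : Fin n) ∈ A i := ((f i).symm ⟨b, hb1⟩).2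
          simp only [hb1, dif_pos, h2, Subtype.coe_eta, Equiv.apply_symm_apply]
      have h2 : X.card + (Finset.univ.filter fun a => Q a).card = n := by
        have := Finset.card_filter_add_card_filter_not (s := (Finset.univ : Finset (Fin n))) Q
        rw [Finset.card_univ, Fintype.card_fin, add_comm] at this
        convert this using 2
      have h3 := Finset.card_union_add_card_inter (A' i) (A' j)
      have h4 : (A' i ∪ A' j).card ≤ n := by
        have := Finset.card_le_univ (A' i ∪ A' j)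
        rwa [Fintype.card_fin] at this
      have h5 := hcard i
      have h6 := hcard j
      omega
    have hadm1 : ∀ a ∈ X, g a = a := fun a ha => dif_neg (Finset.mem_filter.1 ha).2
    have hadm2 : ∀ a b, a ∉ X → b ∉ X → g a = g b → a = b := by
      intro a b ha hb hab
      have ha' := hXmem a ha
      have hb' := hXmem b hb
      rw [hgQ a ha', hgQ b hb'] at hab
      have h1 := (f j).symm.injective (Subtype.ext hab)
      have h2 : ((f i ⟨a, ha'.1⟩ : A' i) : Fin n) = (f i ⟨b, hb'.1⟩ : A' i) :=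
        congrArg (fun t : A' j => (t : Fin n)) h1
      have h3 := (f i).injective (Subtype.ext h2)
      exact congrArg Subtype.val h3
    have hinv : ∀ a b, a ∉ X → b ∉ X → (r a b ↔ r (g a) (g b)) := by
      intro a b ha hb
      have ha' := hXmem a ha
      have hb' := hXmem b hb
      rw [hgQ a ha', hgQ b hb']
      have h1 := hf i ⟨a, ha'.1⟩ ⟨b, hb'.1⟩
      have h2 := hf j ((f j).symm ⟨(f i ⟨a, ha'.1⟩ : A' i), ha'.2⟩)
        ((f j).symm ⟨(f i ⟨b, hb'.1⟩ : A' i), hb'.2⟩)
      rw [Equiv.apply_symm_apply, Equiv.apply_symm_apply] at h2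
      exact h1.trans h2.symm
    have hid := h X g hXc hadm1 hadm2 hinv
    have hq : Q ((f i).symm ⟨u, hi⟩ : A i) := by
      refine ⟨((f i).symm ⟨u, hi⟩).2, ?_⟩
      have e : (⟨(((f i).symm ⟨u, hi⟩ : A i) : Fin n), ((f i).symm ⟨u, hi⟩).2⟩ : A i) =
          (f i).symm ⟨u, hi⟩ := rfl
      rw [e, Equiv.apply_symm_apply]
      exact hj
    have h1 := hid ((f i).symm ⟨u, hi⟩ : A i)
    rw [hgQ _ hq] at h1
    rw [← h1]
    congr 2
    apply Subtype.ext
    show (f i ⟨(((f i).symm ⟨u, hi⟩ : A i) : Fin n), _⟩ : Fin n) = u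
    rw [Subtype.coe_eta, Equiv.apply_symm_apply]
  choose I hI using fun u => hcov u u
  let H : Fin n → Fin n := fun u => ((f (I u)).symm ⟨u, (hI u).1⟩ : A (I u))
  have hH : ∀ i u (hu : u ∈ A' i), H u = ((f i).symm ⟨u, hu⟩ : A i) := fun i u hu =>
    key (I u) i u (hI u).1 hu
  have hHinj : Function.Injective H := by
    intro u v huv
    obtain ⟨i, hu, hv⟩ := hcov u v
    rw [hH i u hu, hH i v hv] at huv
    have h1 := (f i).symm.injective (Subtype.ext huv)
    exact congrArg Subtype.val h1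
  have hHbij : Function.Bijective H := Finite.injective_iff_bijective.1 hHinj
  refine ⟨(Equiv.ofBijective H hHbij).symm, fun a b => ?_⟩
  obtain ⟨u, rfl⟩ := hHbij.2 a
  obtain ⟨v, rfl⟩ := hHbij.2 b
  have h1 : ∀ w, (Equiv.ofBijective H hHbij).symm (H w) = w := fun w =>
    (Equiv.ofBijective H hHbij).symm_apply_apply w
  rw [h1, h1]
  obtain ⟨i, hu, hv⟩ := hcov u v
  rw [hH i u hu, hH i v hv]
  have h2 := hf i ((f i).symm ⟨u, hu⟩) ((f i).symm ⟨v, hv⟩)
  rw [Equiv.apply_symm_apply, Equiv.apply_symm_apply] at h2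
  exact h2

theorem b15_symm {α β : Type*} {r : α → α → Prop} {s : β → β → Prop} (h : Iso r s) : Iso s r := by
  obtain ⟨f, hf⟩ := h
  exact ⟨f.symm, fun x y => by rw [hf, f.apply_symm_apply, f.apply_symm_apply]⟩

theorem b15_trans {α β γ : Type*} {r : α → α → Prop} {s : β → β → Prop} {t : γ → γ → Prop}
    (h : Iso r s) (h' : Iso s t) : Iso r t := by
  obtain ⟨f, hf⟩ := h
  obtain ⟨g, hg⟩ := h'
  exact ⟨f.trans g, fun x y => by rw [hf, hg]; rfl⟩

theorem b15_real {α β : Type*} {r : α → α → Prop} {s : β → β → Prop} (h : Iso r s)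
    {d : ℕ} (hd : HasRealizer s d) : HasRealizer r d := by
  obtain ⟨f, hf⟩ := h
  obtain ⟨L, hL, hLs⟩ := hd
  refine ⟨fun i a b => L i (f a) (f b), fun i => ⟨⟨fun a => (hL i).1.1 _, ?_, ?_⟩, ?_⟩, ?_⟩
  · exact fun a b h1 h2 => f.injective ((hL i).1.2.1 _ _ h1 h2)
  · exact fun a b c h1 h2 => (hL i).1.2.2 _ _ _ h1 h2
  · exact fun a b => (hL i).2 _ _
  · intro a b
    rw [hf, hLs]

theorem b15_dim {α β : Type*} {r : α → α → Prop} {s : β → β → Prop} (h : Iso r s) :
    dim r = dim s := by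
  unfold dim
  congr 1
  ext d
  exact ⟨b15_real (b15_symm h), b15_real h⟩

/-- the subset of all points but one -/
theorem b15_del {n : ℕ} (r : Fin n → Fin n → Prop) (x : Fin n) :
    Iso (res r (Finset.univ.erase x)) (del r x) :=
  ⟨{ toFun := fun a => ⟨a.1, (Finset.mem_erase.1 a.2).1⟩
     invFun := fun a => ⟨a.1, Finset.mem_erase.2 ⟨a.2, Finset.mem_univ _⟩⟩
     left_inv := fun _ => rfl
     right_inv := fun _ => rfl }, fun _ _ => Iff.rfl⟩

theorem b15_three {n K : ℕ} (hK : 1 ≤ K) {r s : Fin n → Fin n → Prop} (h : Det K r)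
    (hs : IsPO s) (x y : Fin 3 → Fin n) (hy : Function.Injective y)
    (hxy : ∀ i, Iso (del r (x i)) (del s (y i))) : Iso r s := by
  classical
  refine h s hs (Fin 3) (fun i => Finset.univ.erase (x i)) (fun i => Finset.univ.erase (y i))
    ?_ ?_ ?_
  · intro i
    rw [Finset.card_erase_of_mem (Finset.mem_univ _), Finset.card_univ, Fintype.card_fin]
    omega
  · intro i
    exact b15_trans (b15_trans (b15_del r (x i)) (hxy i)) (b15_symm (b15_del s (y i)))
  · intro u v
    by_contra hcon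
    push Not at hcon
    have h1 : ∀ i, y i = u ∨ y i = v := by
      intro i
      by_contra h2
      push Not at h2
      exact hcon i (Finset.mem_erase.2 ⟨h2.1.symm, Finset.mem_univ _⟩)
        (Finset.mem_erase.2 ⟨h2.2.symm, Finset.mem_univ _⟩)
    have h2 : ∀ i, y i ∈ ({u, v} : Finset (Fin n)) := by
      intro i
      rw [Finset.mem_insert, Finset.mem_singleton]
      exact h1 i
    have h3 : (Finset.univ.image y).card ≤ ({u, v} : Finset (Fin n)).card := by
      refine Finset.card_le_card ?_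
      intro z hz
      obtain ⟨i, -, rfl⟩ := Finset.mem_image.1 hz
      exact h2 i
    rw [Finset.card_image_of_injective _ hy, Finset.card_univ, Fintype.card_fin] at h3
    have h4 : ({u, v} : Finset (Fin n)).card ≤ 2 := Finset.card_le_two
    omega

theorem b15_deck {n K : ℕ} (hK : 1 ≤ K) (hn : K + 2 ≤ n) {r s : Fin n → Fin n → Prop} (h : Det K r)
    (hs : IsPO s) (hd : SameDeck r s) : Iso r s := by
  obtain ⟨π, hπ⟩ := hd
  refine b15_three hK h hs (fun i => ⟨i, by omega⟩) (fun i => π ⟨i, by omega⟩) ?_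
    fun i => hπ _
  intro i j hij
  have h1 := π.injective hij
  rw [Fin.mk.injEq] at h1
  exact Fin.ext h1

theorem b15_kdeck {n K k : ℕ} (hn : K + 2 ≤ n) (hk : k ≤ K) {r s : Fin n → Fin n → Prop}
    (h : Det K r) (hs : IsPO s) (hd : SameKDeck k r s) : Iso r s := by
  classical
  obtain ⟨π, hπ⟩ := hd
  refine h s hs {A : Finset (Fin n) // A.card + k = n} (fun A => A.1) (fun A => (π A).1)
    (fun A => by have := A.2; omega) hπ ?_
  intro u v
  obtain ⟨A, hA1, -, hA2⟩ := Finset.exists_subsuperset_card_eq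
    (s := ({u, v} : Finset (Fin n))) (t := Finset.univ) (n := n - k) (Finset.subset_univ _)
    (by have : ({u, v} : Finset (Fin n)).card ≤ 2 := Finset.card_le_two
        omega)
    (by rw [Finset.card_univ, Fintype.card_fin]; omega)
  refine ⟨π.symm ⟨A, by omega⟩, ?_, ?_⟩
  · rw [Equiv.apply_symm_apply]
    exact hA1 (by simp)
  · rw [Equiv.apply_symm_apply]
    exact hA1 (by simp)

/-- Adapt `Pool/Agent/Helper87/PD/Main.lean`. -/
theorem conseq {n K : ℕ} (hK : 1 ≤ K) (hn : K + 2 ≤ n) {r s : Fin n → Fin n → Prop} (hr : Det K r)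
    (hs : IsPO s) :
    (SameDeck r s → Iso r s ∧ dim r = dim s) ∧
      (∀ x y : Fin 3 → Fin n, Function.Injective y → (∀ i, Iso (del r (x i)) (del s (y i))) →
        Iso r s ∧ dim r = dim s) ∧
      ∀ k ≤ K, SameKDeck k r s → Iso r s ∧ dim r = dim s := by
  refine ⟨fun h1 => ?_, fun x y hy h1 => ?_, fun k hk h1 => ?_⟩
  · have h2 := b15_deck hK hn hr hs h1
    exact ⟨h2, b15_dim h2⟩
  · have h2 := b15_three hK hr hs x y hy h1
    exact ⟨h2, b15_dim h2⟩
  · have h2 := b15_kdeck hn hk hr hs h1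
    exact ⟨h2, b15_dim h2⟩

end Pool.Agent.Helper14.RO
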