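import Pool.Agent.Helper14.RO.Defs

/-!
# Block 16: from points to permutations
-/

namespace Pool.Agent.Helper14.RO

open MeasureTheory Set
open scoped ENNReal

theorem meas_rel {d n : ℕ} (B : (Fin n → Fin n → Prop) → Prop) :
    MeasurableSet {ω : Fin n → Fin d → ℝ | B (rel ω)} := by
  have hm : Measurable (fun ω : Fin n → Fin d → ℝ => rel ω) := by
    refine measurable_pi_lambda _ fun u => measurable_pi_lambda _ fun v => ?_
    refine measurableSet_setOf.1 ?_
    exact measurableSet_le (measurable_pi_apply u) (measurable_pi_apply v)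
  exact hm (Set.toFinite {r : Fin n → Fin n → Prop | B r}).measurableSet

/-- The action of the tuples of permutations. -/
theorem b16_mp {d n : ℕ} (π : Fin d → Equiv.Perm (Fin n)) :
    MeasurePreserving (fun (ω : Fin n → Fin d → ℝ) v i => ω (π i v) i) (nu d n) (nu d n) := by
  have hm : Measurable (fun (ω : Fin n → Fin d → ℝ) v i => ω (π i v) i) := by
    refine measurable_pi_lambda _ fun v => measurable_pi_lambda _ fun i => ?_
    exact (measurable_pi_apply i).comp (measurable_pi_apply (π i v))
  refine ⟨hm, ?_⟩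
  symm
  refine Measure.pi_eq_generateFrom (C := fun _ => pi univ '' pi univ fun _ => {s : Set ℝ | MeasurableSet s})
    (fun _ => generateFrom_pi) (fun _ => isPiSystem_pi) (fun _ => ?_) ?_
  · exact ⟨fun _ => univ, fun _ => ⟨fun _ => univ, by simp, pi_univ _⟩, fun _ => measure_lt_top _ _, iUnion_const _⟩
  · intro s hs
    choose t ht hts using hs
    have hs' : s = fun v => pi univ (t v) := funext fun v => (hts v).symm
    subst hs'
    have hmt : ∀ v i, MeasurableSet (t v i) := fun v i => ht v i (mem_univ i)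
    have h1 : (fun (ω : Fin n → Fin d → ℝ) v i => ω (π i v) i) ⁻¹' (pi univ fun v => pi univ (t v)) =
        pi univ fun v => pi univ fun i => t ((π i).symm v) i := by
      ext ω
      simp only [mem_preimage, mem_pi, mem_univ, true_implies]
      constructor
      · intro h v i
        have := h ((π i).symm v) i
        rwa [Equiv.apply_symm_apply] at this
      · intro h v i
        have := h (π i v) i
        rwa [Equiv.symm_apply_apply] at this
    rw [Measure.map_apply hm (MeasurableSet.univ_pi fun v => MeasurableSet.univ_pi (hmt v)), h1]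
    unfold nu mu
    rw [Measure.pi_pi]
    simp only [Measure.pi_pi]
    rw [Finset.prod_comm, Finset.prod_comm (f := fun v i => mu1 (t v i))]
    refine Finset.prod_congr rfl fun i _ => ?_
    exact Equiv.prod_comp (π i).symm fun v => mu1 (t v i)

theorem b16_noAtoms (x : ℝ) : mu1 {x} = 0 := by
  refine le_antisymm ((Measure.restrict_apply_le _ _).trans ?_) (bot_le)
  rw [Real.volume_singleton]

theorem b16_null {d n : ℕ} (i : Fin d) {u v : Fin n} (huv : u ≠ v) : nu d n {ω | ω u i = ω v i} = 0 := by
  have hind : ProbabilityTheory.iIndepFun (fun (v : Fin n) (ω : Fin n → Fin d → ℝ) => ω v i) (nu d n) :=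
    ProbabilityTheory.iIndepFun_pi (X := fun _ (a : Fin d → ℝ) => a i) fun _ => (measurable_pi_apply i).aemeasurable
  have hmv : ∀ v : Fin n, MeasurePreserving (fun ω : Fin n → Fin d → ℝ => ω v i) (nu d n) mu1 := fun v =>
    (measurePreserving_eval (fun _ : Fin d => mu1) i).comp (measurePreserving_eval (fun _ : Fin n => mu d) v)
  have h1 := (ProbabilityTheory.indepFun_iff_map_prod_eq_prod_map_map (hmv u).measurable.aemeasurable
    (hmv v).measurable.aemeasurable).1 (hind.indepFun huv)
  rw [(hmv u).map_eq, (hmv v).map_eq] at h1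
  have hS : MeasurableSet {p : ℝ × ℝ | p.1 = p.2} := measurableSet_eq_fun measurable_fst measurable_snd
  have h2 : nu d n {ω | ω u i = ω v i} = (mu1.prod mu1) {p : ℝ × ℝ | p.1 = p.2} := by
    rw [← h1, Measure.map_apply ((hmv u).measurable.prodMk (hmv v).measurable) hS]
    rfl
  rw [h2, Measure.measure_prod_null hS]
  refine Filter.Eventually.of_forall fun x => ?_
  have h3 : Prod.mk x ⁻¹' {p : ℝ × ℝ | p.1 = p.2} = {x} := by
    ext y
    simp [eq_comm]
  show mu1 (Prod.mk x ⁻¹' {p : ℝ × ℝ | p.1 = p.2}) = 0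
  rw [h3]
  exact b16_noAtoms x

/-- Ranks. -/
theorem b16_rank {n : ℕ} (x : Fin n → ℝ) (hx : Function.Injective x) :
    ∃ ρ : Equiv.Perm (Fin n), ∀ u v, x u ≤ x v ↔ ρ u ≤ ρ v := by
  have h1 : StrictMono (x ∘ Tuple.sort x) := (Tuple.monotone_sort x).strictMono_of_injective (hx.comp (Tuple.sort x).injective)
  refine ⟨(Tuple.sort x).symm, fun u v => ?_⟩
  rw [← h1.le_iff_le]
  simp

theorem transfer {d n : ℕ} (B : (Fin n → Fin n → Prop) → Prop) :
    (Nat.card {σ : Fin d → Equiv.Perm (Fin n) // B (ord σ)} : ℝ≥0∞) =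
      Nat.card (Fin d → Equiv.Perm (Fin n)) * nu d n {ω | B (rel ω)} := by
  classical
  have h1 : ∀ π : Fin d → Equiv.Perm (Fin n), nu d n {ω | B (rel fun v i => ω (π i v) i)} = nu d n {ω | B (rel ω)} :=
    fun π => (b16_mp π).measure_preimage (meas_rel B).nullMeasurableSet
  have h2 : ∀ π : Fin d → Equiv.Perm (Fin n), nu d n {ω | B (rel fun v i => ω (π i v) i)} =
      ∫⁻ ω, {ω : Fin n → Fin d → ℝ | B (rel fun v i => ω (π i v) i)}.indicator 1 ω ∂nu d n := fun π => by
    rw [lintegral_indicator_one]
    exact (b16_mp π).measurable (meas_rel B)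
  have h3 : (Nat.card (Fin d → Equiv.Perm (Fin n)) : ℝ≥0∞) * nu d n {ω | B (rel ω)} =
      ∫⁻ ω, ∑ π : Fin d → Equiv.Perm (Fin n), {ω : Fin n → Fin d → ℝ | B (rel fun v i => ω (π i v) i)}.indicator 1 ω ∂nu d n := by
    rw [lintegral_finset_sum]
    · rw [Finset.sum_congr rfl fun π _ => (h2 π).symm, Finset.sum_congr rfl fun π _ => h1 π, Finset.sum_const, nsmul_eq_mul,
        Finset.card_univ, Nat.card_eq_fintype_card]
    · intro π _
      exact measurable_one.indicator ((b16_mp π).measurable (meas_rel B))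
  have h4 : ∀ᵐ ω ∂nu d n, ∀ i : Fin d, Function.Injective fun v => ω v i := by
    rw [ae_all_iff]
    intro i
    have h5 : ∀ᵐ ω ∂nu d n, ∀ u v : Fin n, u ≠ v → ω u i ≠ ω v i := by
      rw [ae_all_iff]
      intro u
      rw [ae_all_iff]
      intro v
      by_cases huv : u = v
      · exact Filter.Eventually.of_forall fun ω h => absurd huv h
      · have h6 : ∀ᵐ ω ∂nu d n, ω u i ≠ ω v i := by
          rw [ae_iff]
          simpa using b16_null i huv
        filter_upwards [h6] with ω h _ using h
    filter_upwards [h5] with ω h u v huv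
    by_contra hne
    exact h u v hne huv
  have h5 : ∀ᵐ ω ∂nu d n, (∑ π : Fin d → Equiv.Perm (Fin n),
      {ω : Fin n → Fin d → ℝ | B (rel fun v i => ω (π i v) i)}.indicator (1 : (Fin n → Fin d → ℝ) → ℝ≥0∞) ω) =
      (Nat.card {σ : Fin d → Equiv.Perm (Fin n) // B (ord σ)} : ℝ≥0∞) := by
    filter_upwards [h4] with ω hω
    choose ρ hρ using fun i => b16_rank (fun v => ω v i) (hω i)
    have h6 : ∀ π : Fin d → Equiv.Perm (Fin n), (rel fun v i => ω (π i v) i) = ord (fun i => ρ i * π i) := by
      intro π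
      funext u v
      apply propext
      exact forall_congr' fun i => hρ i (π i u) (π i v)
    have h7 : ∀ π : Fin d → Equiv.Perm (Fin n),
        {ω : Fin n → Fin d → ℝ | B (rel fun v i => ω (π i v) i)}.indicator (1 : (Fin n → Fin d → ℝ) → ℝ≥0∞) ω =
        if B (ord (ρ * π)) then 1 else 0 := by
      intro π
      rw [indicator_apply]
      simp only [mem_setOf_eq, h6, Pi.one_apply]
      rfl
    rw [Finset.sum_congr rfl fun π _ => h7 π]
    refine (Equiv.sum_comp (Equiv.mulLeft ρ) (fun σ : Fin d → Equiv.Perm (Fin n) => if B (ord σ) then (1 : ℝ≥0∞) else 0)).trans ?_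
    rw [Finset.sum_boole, Nat.card_eq_fintype_card, Fintype.card_subtype]
  rw [h3, lintegral_congr_ae h5, lintegral_const, measure_univ, mul_one]

end Pool.Agent.Helper14.RO
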