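import Pool.Agent.Helper14.RO.Defs

/-!
# The standard example
-/

namespace Pool.Agent.Helper14.RO

/-- `r` contains the standard example of dimension `d`. -/
def HasS {n : ℕ} (d : ℕ) (r : Fin n → Fin n → Prop) : Prop :=
  ∃ A B : Fin d → Fin n, ∀ j l, r (A j) (B l) ↔ j ≠ l

end Pool.Agent.Helper14.RO
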