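import Pool.Agent.Helper14.RO.Defs
import Pool.Agent.Helper14.RO.B27

/-!
# Block 17: the dimension is `d`
-/

namespace Pool.Agent.Helper14.RO

open MeasureTheory Set
open scoped ENNReal
open Pool.Agent.Helper87.PD

theorem dim_ord {d n : ℕ} (σ : Fin d → Equiv.Perm (Fin n)) (h : HasS d (ord σ)) :
    dim (ord σ) = d := by
  have h1 : HasRealizer (ord σ) d := by
    refine ⟨fun i u v => σ i u ≤ σ i v, fun i => ⟨⟨fun a => le_rfl, fun a b h1 h2 => ?_,
      fun a b c h1 h2 => le_trans h1 h2⟩, fun a b => le_total _ _⟩, fun a b => Iff.rfl⟩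
    exact (σ i).injective (le_antisymm h1 h2)
  refine le_antisymm (Nat.sInf_le h1) (le_csInf ⟨d, h1⟩ ?_)
  rintro k ⟨L, hL, hr⟩
  obtain ⟨A, B, hAB⟩ := h
  have hex : ∀ j : Fin d, ∃ i : Fin k, ¬ L i (A j) (B j) := by
    intro j
    by_contra hcon
    push Not at hcon
    exact (hAB j j).1 ((hr _ _).2 hcon) rfl
  choose f hf using hex
  have hinj : Function.Injective f := by
    intro j l hjl
    by_contra hne
    have e1 : L (f j) (B j) (A j) := ((hL (f j)).2 (A j) (B j)).resolve_left (hf j)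
    have e2 : L (f j) (A j) (B l) := (hr _ _).1 ((hAB j l).2 hne) (f j)
    have e3 : L (f j) (A l) (B j) := (hr _ _).1 ((hAB l j).2 (Ne.symm hne)) (f j)
    have htr := (hL (f j)).1.2.2
    have e4 : L (f j) (A l) (B l) := htr _ _ _ (htr _ _ _ e3 e1) e2
    rw [hjl] at e4
    exact hf l e4
  simpa using Fintype.card_le_of_injective f hinj

end Pool.Agent.Helper14.RO
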