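import Pool.Agent.Helper14.RO.B28

/-!
# Block 18: the numerical estimate for near collisions
-/

namespace Pool.Agent.Helper14.RO

open Filter

private theorem b18_Fb {d : ℕ} {x a b c JJ : ℝ} (hx : 0 < x) :
    Fb d (x ^ (-a)) (x ^ (-b)) (x ^ (-c)) JJ =
      (120 * th⁻¹ ^ (d - 2) * (√(d : ℝ)) ^ (3 / 2 : ℝ) * JJ) * x ^ (c - 3 / 4 * b - 3 / 2 * a + 4 * th * a) := by
  unfold Fb
  have h1 : (x ^ (-a) * √((d : ℝ) * x ^ (-b))) ^ (3 / 2 : ℝ) = x ^ (-(3 / 2 * a)) * (√(d : ℝ)) ^ (3 / 2 : ℝ) * x ^ (-(3 / 4 * b)) := by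
    rw [Real.sqrt_mul (Nat.cast_nonneg d), Real.mul_rpow (Real.rpow_nonneg hx.le _) (by positivity),
      Real.mul_rpow (Real.sqrt_nonneg _) (Real.sqrt_nonneg _), ← Real.rpow_mul hx.le, Real.sqrt_eq_rpow (x ^ (-b)), ← Real.rpow_mul hx.le,
      ← Real.rpow_mul hx.le, show -a * (3 / 2) = -(3 / 2 * a) by ring, show -b * (1 / 2) * (3 / 2) = -(3 / 4 * b) by ring]
    ring
  have h2 : (x ^ (-a)) ^ (-4 * th) = x ^ (4 * th * a) := by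
    rw [← Real.rpow_mul hx.le]; congr 1; ring
  have h3 : (3 : ℝ) / x ^ (-c) = 3 * x ^ c := by
    rw [Real.rpow_neg hx.le, div_inv_eq_mul]
  have h4 : x ^ (c - 3 / 4 * b - 3 / 2 * a + 4 * th * a) = x ^ c * x ^ (-(3 / 2 * a)) * x ^ (-(3 / 4 * b)) * x ^ (4 * th * a) := by
    rw [← Real.rpow_add hx, ← Real.rpow_add hx, ← Real.rpow_add hx]
    congr 1; ring
  rw [h1, h2, h3, h4]
  ring

private theorem b18_exp : ∀ᶠ x : ℝ in atTop, 1.57 * Real.log x + x ^ (1 / 200 : ℝ) + 1 / 2 ≤ x ^ (0.01 : ℝ) / 8 := by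
  have h1 := (isLittleO_log_rpow_atTop (r := 0.01) (by norm_num)).bound (c := 1 / 32) (by norm_num)
  have h2 : Tendsto (fun x : ℝ => x ^ (1 / 200 : ℝ)) atTop atTop := tendsto_rpow_atTop (by norm_num)
  filter_upwards [h1, h2.eventually_ge_atTop 17, eventually_ge_atTop (1 : ℝ)] with x h3 h4 h5
  have h6 : x ^ (0.01 : ℝ) = (x ^ (1 / 200 : ℝ)) ^ 2 := by
    rw [← Real.rpow_natCast, ← Real.rpow_mul (by linarith)]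
    congr 1; norm_num
  rw [Real.norm_of_nonneg (Real.log_nonneg h5), Real.norm_of_nonneg (Real.rpow_nonneg (by linarith) _)] at h3
  have h7 : x ^ (1 / 200 : ℝ) + 1 / 2 ≤ x ^ (0.01 : ℝ) / 16 := by
    rw [h6]; nlinarith
  have h8 : 0 ≤ x ^ (0.01 : ℝ) := Real.rpow_nonneg (by linarith) _
  linarith

private theorem b18_main {d N K : ℕ} (hd : 3 ≤ d) {JJ x : ℝ} (hJ : 0 ≤ JJ) (hx : x = (N : ℝ) + 2) (h4 : 4 ≤ x)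
    (he : 1.57 * Real.log x + x ^ (1 / 200 : ℝ) + 1 / 2 ≤ x ^ (0.01 : ℝ) / 8) (hK : (K : ℝ) ≤ x ^ (1 / 200 : ℝ)) :
    (N + 2) * (N + 1) / (M N 0.44) *
        Eb d N (2 * K + 1) (x ^ (-0.495 : ℝ)) (x ^ (-0.16 : ℝ)) (x ^ (-0.28 : ℝ)) (x ^ (-0.37 : ℝ)) (x ^ (-0.53 : ℝ)) JJ ≤
      (1 + 2 * (16 ^ (2 - th : ℝ) * JJ + (20 ^ (1 - th : ℝ) * JJ) ^ 2) +
        294 * (3 * (120 * th⁻¹ ^ (d - 2) * (√(d : ℝ)) ^ (3 / 2 : ℝ) * JJ) + 3 * 2 ^ d * JJ) + 2 ^ d) * x ^ (-0.01 : ℝ) := by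
  have hx0 : 0 < x := by linarith
  have hx1 : 1 ≤ x := by linarith
  have hN : x / 2 ≤ N := by linarith
  have hN0 : (0 : ℝ) < N := by linarith
  have hth : th = 1 / 1000 := rfl
  have hs2 : (x ^ (-0.495 : ℝ)) ^ 2 = x ^ (-0.99 : ℝ) := by
    rw [← Real.rpow_natCast, ← Real.rpow_mul hx0.le]; congr 1; norm_num
  -- the prefactor
  have hP : ((N : ℝ) + 2) * (N + 1) / (M N 0.44) ≤ x ^ (1.56 : ℝ) := by
    have hM : x ^ (0.44 : ℝ) ≤ (M N 0.44 : ℝ) := by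
      unfold M
      rw [← hx]
      exact Nat.le_ceil _
    have hM0 : 0 < x ^ (0.44 : ℝ) := Real.rpow_pos_of_pos hx0 _
    rw [div_le_iff₀ (by linarith)]
    have h1 : x ^ (1.56 : ℝ) * x ^ (0.44 : ℝ) = x * x := by
      rw [← Real.rpow_add hx0, show (1.56 : ℝ) + 0.44 = (2 : ℕ) by norm_num, Real.rpow_natCast]; ring
    calc ((N : ℝ) + 2) * (N + 1) ≤ x * x := by
          rw [← hx]; exact mul_le_mul_of_nonneg_left (by linarith) hx0.le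
      _ = x ^ (1.56 : ℝ) * x ^ (0.44 : ℝ) := h1.symm
      _ ≤ x ^ (1.56 : ℝ) * (M N 0.44 : ℝ) := mul_le_mul_of_nonneg_left hM (Real.rpow_nonneg hx0.le _)
  -- the exponential
  have hA : Real.exp (((2 * K + 1 : ℕ) : ℝ) / 2 - N * (x ^ (-0.495 : ℝ)) ^ 2 / 4) ≤ x ^ (-1.57 : ℝ) := by
    rw [hs2, Real.rpow_def_of_pos hx0 (-1.57)]
    refine Real.exp_le_exp.2 ?_
    have h1 : x ^ (0.01 : ℝ) / 2 ≤ N * x ^ (-0.99 : ℝ) := by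
      have h2 : x ^ (0.01 : ℝ) = x * x ^ (-0.99 : ℝ) := by
        nth_rewrite 2 [← Real.rpow_one x]
        rw [← Real.rpow_add hx0]; congr 1; norm_num
      rw [h2]
      have h3 : 0 ≤ x ^ (-0.99 : ℝ) := Real.rpow_nonneg hx0.le _
      nlinarith
    push_cast
    linarith
  -- the sides
  have hB1 : (16 * (x ^ (-0.495 : ℝ)) ^ 2) ^ (2 - th : ℝ) ≤ 16 ^ (2 - th : ℝ) * x ^ (-1.57 : ℝ) := by
    rw [hs2, Real.mul_rpow (by norm_num) (Real.rpow_nonneg hx0.le _), ← Real.rpow_mul hx0.le]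
    refine mul_le_mul_of_nonneg_left (Real.rpow_le_rpow_of_exponent_le hx1 ?_) (by positivity)
    rw [hth]; norm_num
  have hB2 : ((20 * (x ^ (-0.495 : ℝ)) ^ 2) ^ (1 - th : ℝ) * JJ) ^ 2 ≤ (20 ^ (1 - th : ℝ) * JJ) ^ 2 * x ^ (-1.57 : ℝ) := by
    rw [hs2, Real.mul_rpow (by norm_num) (Real.rpow_nonneg hx0.le _), ← Real.rpow_mul hx0.le]
    have h1 : (20 ^ (1 - th : ℝ) * x ^ (-0.99 * (1 - th) : ℝ) * JJ) ^ 2 =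
        (20 ^ (1 - th : ℝ) * JJ) ^ 2 * x ^ (-0.99 * (1 - th) * 2 : ℝ) := by
      have h2 : x ^ (-0.99 * (1 - th) * 2 : ℝ) = (x ^ (-0.99 * (1 - th) : ℝ)) ^ 2 := by
        rw [← Real.rpow_natCast, ← Real.rpow_mul hx0.le]; norm_num
      rw [h2]; ring
    rw [h1]
    refine mul_le_mul_of_nonneg_left (Real.rpow_le_rpow_of_exponent_le hx1 ?_) (by positivity)
    rw [hth]; norm_num
  -- the weight
  have hW : (2 * ((2 * K + 1 : ℕ) : ℝ) + 1) ^ 2 * 3 / N ≤ 294 * x ^ (-0.99 : ℝ) := by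
    have h1 : 1 ≤ x ^ (1 / 200 : ℝ) := Real.one_le_rpow hx1 (by norm_num)
    have h2 : 2 * ((2 * K + 1 : ℕ) : ℝ) + 1 ≤ 7 * x ^ (1 / 200 : ℝ) := by push_cast; linarith
    have h3 : (2 * ((2 * K + 1 : ℕ) : ℝ) + 1) ^ 2 ≤ 49 * x ^ (0.01 : ℝ) := by
      have h4 : x ^ (0.01 : ℝ) = (x ^ (1 / 200 : ℝ)) ^ 2 := by
        rw [← Real.rpow_natCast, ← Real.rpow_mul hx0.le]; congr 1; norm_num
      rw [h4]
      calc (2 * ((2 * K + 1 : ℕ) : ℝ) + 1) ^ 2 ≤ (7 * x ^ (1 / 200 : ℝ)) ^ 2 := pow_le_pow_left₀ (by positivity) h2 2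
        _ = _ := by ring
    have h5 : x ^ (0.01 : ℝ) = x ^ (-0.99 : ℝ) * x := by
      nth_rewrite 3 [← Real.rpow_one x]
      rw [← Real.rpow_add hx0]; congr 1; norm_num
    rw [div_le_iff₀ hN0]
    have h6 : 0 ≤ x ^ (-0.99 : ℝ) := Real.rpow_nonneg hx0.le _
    calc (2 * ((2 * K + 1 : ℕ) : ℝ) + 1) ^ 2 * 3 ≤ 49 * x ^ (0.01 : ℝ) * 3 := by linarith
      _ = 294 * x ^ (-0.99 : ℝ) * (x / 2) := by rw [h5]; ring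
      _ ≤ 294 * x ^ (-0.99 : ℝ) * N := mul_le_mul_of_nonneg_left hN (by positivity)
  have hF0 : 0 ≤ 120 * th⁻¹ ^ (d - 2) * (√(d : ℝ)) ^ (3 / 2 : ℝ) * JJ := by
    rw [hth]; positivity
  set CF := 120 * th⁻¹ ^ (d - 2) * (√(d : ℝ)) ^ (3 / 2 : ℝ) * JJ with hCF
  have hF1 : Fb d (x ^ (-0.495 : ℝ)) 1 (x ^ (-0.16 : ℝ)) JJ ≤ CF * x ^ (-0.58 : ℝ) := by
    have h1 := b18_Fb (d := d) (x := x) (a := 0.495) (b := 0) (c := 0.16) (JJ := JJ) hx0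
    rw [neg_zero, Real.rpow_zero] at h1
    rw [h1]
    refine mul_le_mul_of_nonneg_left (Real.rpow_le_rpow_of_exponent_le hx1 ?_) hF0
    rw [hth]; norm_num
  have hF2 : Fb d (x ^ (-0.495 : ℝ)) (x ^ (-0.16 : ℝ)) (x ^ (-0.28 : ℝ)) JJ ≤ CF * x ^ (-0.58 : ℝ) := by
    rw [b18_Fb hx0]
    refine mul_le_mul_of_nonneg_left (Real.rpow_le_rpow_of_exponent_le hx1 ?_) hF0
    rw [hth]; norm_num
  have hF3 : Fb d (x ^ (-0.495 : ℝ)) (x ^ (-0.28 : ℝ)) (x ^ (-0.37 : ℝ)) JJ ≤ CF * x ^ (-0.58 : ℝ) := by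
    rw [b18_Fb hx0]
    refine mul_le_mul_of_nonneg_left (Real.rpow_le_rpow_of_exponent_le hx1 ?_) hF0
    rw [hth]; norm_num
  have hd3 : (3 : ℝ) ≤ d := by exact_mod_cast hd
  have hG : 3 / x ^ (-0.53 : ℝ) * (2 * x ^ (-0.37 : ℝ)) ^ d * JJ ≤ 3 * 2 ^ d * JJ * x ^ (-0.58 : ℝ) := by
    have h1 : (2 * x ^ (-0.37 : ℝ)) ^ d = 2 ^ d * x ^ (-0.37 * d : ℝ) := by
      rw [mul_pow, ← Real.rpow_natCast (x ^ (-0.37 : ℝ)), ← Real.rpow_mul hx0.le]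
    have h2 : (3 : ℝ) / x ^ (-0.53 : ℝ) = 3 * x ^ (0.53 : ℝ) := by
      rw [show (-0.53 : ℝ) = -(0.53 : ℝ) by norm_num, Real.rpow_neg hx0.le, div_inv_eq_mul]
    have h3 : x ^ (0.53 : ℝ) * x ^ (-0.37 * d : ℝ) ≤ x ^ (-0.58 : ℝ) := by
      rw [← Real.rpow_add hx0]
      exact Real.rpow_le_rpow_of_exponent_le hx1 (by linarith)
    rw [h1, h2]
    calc 3 * x ^ (0.53 : ℝ) * (2 ^ d * x ^ (-0.37 * d : ℝ)) * JJ = 3 * 2 ^ d * JJ * (x ^ (0.53 : ℝ) * x ^ (-0.37 * d : ℝ)) := by ring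
      _ ≤ _ := mul_le_mul_of_nonneg_left h3 (by positivity)
  have hD : (2 * x ^ (-0.53 : ℝ)) ^ d ≤ 2 ^ d * x ^ (-1.57 : ℝ) := by
    rw [mul_pow, ← Real.rpow_natCast (x ^ (-0.53 : ℝ)), ← Real.rpow_mul hx0.le]
    refine mul_le_mul_of_nonneg_left (Real.rpow_le_rpow_of_exponent_le hx1 (by linarith)) (by positivity)
  have e1 : x ^ (1.56 : ℝ) * x ^ (-1.57 : ℝ) = x ^ (-0.01 : ℝ) := by
    rw [← Real.rpow_add hx0]; congr 1; norm_num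
  have e2 : x ^ (-1.57 : ℝ) = x ^ (-0.99 : ℝ) * x ^ (-0.58 : ℝ) := by
    rw [← Real.rpow_add hx0]; congr 1; norm_num
  have hFs : Fb d (x ^ (-0.495 : ℝ)) 1 (x ^ (-0.16 : ℝ)) JJ + Fb d (x ^ (-0.495 : ℝ)) (x ^ (-0.16 : ℝ)) (x ^ (-0.28 : ℝ)) JJ +
      Fb d (x ^ (-0.495 : ℝ)) (x ^ (-0.28 : ℝ)) (x ^ (-0.37 : ℝ)) JJ + 3 / x ^ (-0.53 : ℝ) * (2 * x ^ (-0.37 : ℝ)) ^ d * JJ ≤
      (3 * CF + 3 * 2 ^ d * JJ) * x ^ (-0.58 : ℝ) := by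
    linarith
  have hF1' : 0 ≤ (3 * CF + 3 * 2 ^ d * JJ) * x ^ (-0.58 : ℝ) := by positivity
  have hC : (2 * ((2 * K + 1 : ℕ) : ℝ) + 1) ^ 2 * 3 / N *
      (Fb d (x ^ (-0.495 : ℝ)) 1 (x ^ (-0.16 : ℝ)) JJ + Fb d (x ^ (-0.495 : ℝ)) (x ^ (-0.16 : ℝ)) (x ^ (-0.28 : ℝ)) JJ +
        Fb d (x ^ (-0.495 : ℝ)) (x ^ (-0.28 : ℝ)) (x ^ (-0.37 : ℝ)) JJ + 3 / x ^ (-0.53 : ℝ) * (2 * x ^ (-0.37 : ℝ)) ^ d * JJ) ≤
      294 * (3 * CF + 3 * 2 ^ d * JJ) * x ^ (-1.57 : ℝ) := by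
    calc _ ≤ (2 * ((2 * K + 1 : ℕ) : ℝ) + 1) ^ 2 * 3 / N * ((3 * CF + 3 * 2 ^ d * JJ) * x ^ (-0.58 : ℝ)) :=
          mul_le_mul_of_nonneg_left hFs (by positivity)
      _ ≤ 294 * x ^ (-0.99 : ℝ) * ((3 * CF + 3 * 2 ^ d * JJ) * x ^ (-0.58 : ℝ)) := mul_le_mul_of_nonneg_right hW hF1'
      _ = _ := by rw [e2]; ring
  have hE : Eb d N (2 * K + 1) (x ^ (-0.495 : ℝ)) (x ^ (-0.16 : ℝ)) (x ^ (-0.28 : ℝ)) (x ^ (-0.37 : ℝ)) (x ^ (-0.53 : ℝ)) JJ ≤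
      (1 + 2 * (16 ^ (2 - th : ℝ) * JJ + (20 ^ (1 - th : ℝ) * JJ) ^ 2) +
        294 * (3 * CF + 3 * 2 ^ d * JJ) + 2 ^ d) * x ^ (-1.57 : ℝ) := by
    unfold Eb
    have hB1' := mul_le_mul_of_nonneg_right hB1 hJ
    have h9 : ∀ p q r t : ℝ, (1 + 2 * (p * JJ + q) + r + t) * x ^ (-1.57 : ℝ) =
        x ^ (-1.57 : ℝ) + 2 * (p * x ^ (-1.57 : ℝ) * JJ + q * x ^ (-1.57 : ℝ)) + r * x ^ (-1.57 : ℝ) + t * x ^ (-1.57 : ℝ) := by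
      intro p q r t; ring
    rw [h9]
    exact add_le_add (add_le_add (add_le_add hA (mul_le_mul_of_nonneg_left (add_le_add hB1' hB2) (by norm_num))) hC) hD
  have hR : 0 ≤ (1 + 2 * (16 ^ (2 - th : ℝ) * JJ + (20 ^ (1 - th : ℝ) * JJ) ^ 2) +
        294 * (3 * CF + 3 * 2 ^ d * JJ) + 2 ^ d) * x ^ (-1.57 : ℝ) := by positivity
  calc _ ≤ (N + 2) * (N + 1) / (M N 0.44) * ((1 + 2 * (16 ^ (2 - th : ℝ) * JJ + (20 ^ (1 - th : ℝ) * JJ) ^ 2) +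
        294 * (3 * CF + 3 * 2 ^ d * JJ) + 2 ^ d) * x ^ (-1.57 : ℝ)) := mul_le_mul_of_nonneg_left hE (by positivity)
    _ ≤ x ^ (1.56 : ℝ) * ((1 + 2 * (16 ^ (2 - th : ℝ) * JJ + (20 ^ (1 - th : ℝ) * JJ) ^ 2) +
        294 * (3 * CF + 3 * 2 ^ d * JJ) + 2 ^ d) * x ^ (-1.57 : ℝ)) := mul_le_mul_of_nonneg_right hP hR
    _ = _ := by rw [← e1]; ring

theorem num_col {d : ℕ} (hd : 3 ≤ d) {JJ : ℝ} (hJ : 0 ≤ JJ) :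
    ∀ᶠ N : ℕ in atTop, ∀ K : ℕ, (K : ℝ) ≤ ((N : ℝ) + 2) ^ (1 / 200 : ℝ) →
      (N + 2) * (N + 1) / (M N 0.44) *
        Eb d N (2 * K + 1) (((N : ℝ) + 2) ^ (-0.495 : ℝ)) (((N : ℝ) + 2) ^ (-0.16 : ℝ))
          (((N : ℝ) + 2) ^ (-0.28 : ℝ)) (((N : ℝ) + 2) ^ (-0.37 : ℝ)) (((N : ℝ) + 2) ^ (-0.53 : ℝ)) JJ ≤
        ((N : ℝ) + 2) ^ (-(1 / 150) : ℝ) := by
  have ht : Tendsto (fun N : ℕ => (N : ℝ) + 2) atTop atTop := tendsto_atTop_add_const_right _ _ tendsto_natCast_atTop_atTop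
  have hc : Tendsto (fun N : ℕ => ((N : ℝ) + 2) ^ (0.01 - 1 / 150 : ℝ)) atTop atTop := (tendsto_rpow_atTop (by norm_num)).comp ht
  filter_upwards [ht.eventually b18_exp, ht.eventually_ge_atTop 4,
    hc.eventually_ge_atTop (1 + 2 * (16 ^ (2 - th : ℝ) * JJ + (20 ^ (1 - th : ℝ) * JJ) ^ 2) +
        294 * (3 * (120 * th⁻¹ ^ (d - 2) * (√(d : ℝ)) ^ (3 / 2 : ℝ) * JJ) + 3 * 2 ^ d * JJ) + 2 ^ d)] with N h1 h2 h3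
  intro K hK
  refine (b18_main hd hJ rfl h2 h1 hK).trans ?_
  have hx0 : (0 : ℝ) < (N : ℝ) + 2 := by linarith
  calc _ ≤ ((N : ℝ) + 2) ^ (0.01 - 1 / 150 : ℝ) * ((N : ℝ) + 2) ^ (-0.01 : ℝ) :=
        mul_le_mul_of_nonneg_right h3 (Real.rpow_nonneg hx0.le _)
    _ = _ := by rw [← Real.rpow_add hx0]; congr 1; norm_num

end Pool.Agent.Helper14.RO
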