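import Pool.Agent.Helper14.RO.Defs

/-!
# The numerical bounds: definitions
-/

namespace Pool.Agent.Helper14.RO

open Filter

/-- The bound for one level of distances. -/
noncomputable def Fb (d : ℕ) (s ε δ JJ : ℝ) : ℝ :=
  3 / δ * (40 * th⁻¹ ^ (d - 2) * (s * √(d * ε)) ^ (3 / 2 : ℝ) * s ^ (-4 * th)) * JJ

/-- The bound for the probability of a near collision of two points. -/
noncomputable def Eb (d N K : ℕ) (s δ₁ δ₂ δ₃ δ₄ JJ : ℝ) : ℝ :=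
  Real.exp (K / 2 - N * s ^ 2 / 4) + 2 * ((16 * s ^ 2) ^ (2 - th) * JJ + ((20 * s ^ 2) ^ (1 - th) * JJ) ^ 2) +
    (2 * K + 1) ^ 2 * 3 / N *
      (Fb d s 1 δ₁ JJ + Fb d s δ₁ δ₂ JJ + Fb d s δ₂ δ₃ JJ + 3 / δ₄ * (2 * δ₃) ^ d * JJ) + (2 * δ₄) ^ d

/-- `(N + 2) ^ e`, rounded up. -/
noncomputable def M (N : ℕ) (e : ℝ) : ℕ := ⌈((N : ℝ) + 2) ^ e⌉₊

end Pool.Agent.Helper14.RO
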