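import Pool.Agent.Helper14.RO.B06
import Pool.Agent.Helper14.RO.B09
import Pool.Agent.Helper14.RO.B12
import Pool.Agent.Helper14.RO.B28

/-!
# Block 19: the probability of a near collision of two random points
-/

namespace Pool.Agent.Helper14.RO

open MeasureTheory Set
open scoped ENNReal

theorem b19_ae (d : ℕ) : ∀ᵐ z ∂((mu d).prod (mu d)), z.1 ∈ Cube d ∧ z.2 ∈ Cube d := by
  have h1 : ∀ᵐ z ∂((mu d).prod (mu d)), z.1 ∈ Cube d :=
    Measure.quasiMeasurePreserving_fst.ae (ae_cube d)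
  have h2 : ∀ᵐ z ∂((mu d).prod (mu d)), z.2 ∈ Cube d :=
    Measure.quasiMeasurePreserving_snd.ae (ae_cube d)
  filter_upwards [h1, h2] with z h1 h2 using ⟨h1, h2⟩

theorem b19_norm {d : ℕ} {a b : Fin d → ℝ} (ha : a ∈ Cube d) (hb : b ∈ Cube d) : ‖a - b‖ ≤ 1 := by
  rw [pi_norm_le_iff_of_nonneg zero_le_one]
  intro i
  rw [Pi.sub_apply, Real.norm_eq_abs, abs_le]
  have h1 := ha i
  have h2 := hb i
  constructor <;> linarith [h1.1, h1.2, h2.1, h2.2]

/-- The integrand. -/
noncomputable def b19_G {d : ℕ} (z : (Fin d → ℝ) × (Fin d → ℝ)) : ℝ≥0∞ :=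
  ENNReal.ofReal (1 / √(pp z.1 z.2 * qq z.1 z.2))

/-- One level. -/
def b19_L (d : ℕ) (s δ ε : ℝ) : Set ((Fin d → ℝ) × (Fin d → ℝ)) :=
  {z | Bal s z.1 z.2 ∧ δ < ‖z.1 - z.2‖ ∧ ‖z.1 - z.2‖ ≤ ε}

theorem b19_meas_norm (d : ℕ) : Measurable fun z : (Fin d → ℝ) × (Fin d → ℝ) => ‖z.1 - z.2‖ :=
  (measurable_fst.sub measurable_snd).norm

theorem b19_meas_L (d : ℕ) (s δ ε : ℝ) : MeasurableSet (b19_L d s δ ε) :=
  (meas_Bal s).inter ((measurableSet_lt measurable_const (b19_meas_norm d)).inter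
    (measurableSet_le (b19_meas_norm d) measurable_const))

theorem b19_meas_G (d : ℕ) : Measurable (b19_G : (Fin d → ℝ) × (Fin d → ℝ) → ℝ≥0∞) := by
  unfold b19_G
  exact (measurable_const.div ((meas_pp d).mul (meas_qq d)).sqrt).ennreal_ofReal

theorem b19_ofReal {x : ℝ} (hx : 0 ≤ x) (d : ℕ) :
    ENNReal.ofReal x * J d = ENNReal.ofReal (x * (J d).toReal) := by
  rw [ENNReal.ofReal_mul hx, ENNReal.ofReal_toReal (J_ne_top d)]

theorem E_col {d N K : ℕ} (hd : 2 ≤ d) (hN : 0 < N) {s δ₁ δ₂ δ₃ δ₄ : ℝ} (hs : 0 < s) (h1 : 0 < δ₁)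
    (h2 : 0 < δ₂) (h3 : 0 < δ₃) (h4 : 0 < δ₄) :
    ∫⁻ z, nu d N {w | (z.1, z.2, w) ∈ Col K} ∂((mu d).prod (mu d)) ≤
      ENNReal.ofReal (Eb d N K s δ₁ δ₂ δ₃ δ₄ (J d).toReal) := by
  set P := (mu d).prod (mu d) with hP
  set c := ENNReal.ofReal ((2 * K + 1) ^ 2 * 3 / N) with hc
  set e := ENNReal.ofReal (Real.exp (K / 2 - N * s ^ 2 / 4)) with he
  set A₁ : Set ((Fin d → ℝ) × (Fin d → ℝ)) := {z | pp z.1 z.2 < 4 * s ^ 2} with hA1
  set A₂ : Set ((Fin d → ℝ) × (Fin d → ℝ)) := {z | qq z.1 z.2 < 4 * s ^ 2} with hA2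
  set A₃ : Set ((Fin d → ℝ) × (Fin d → ℝ)) := {z | ‖z.1 - z.2‖ ≤ δ₄} with hA3
  have mA1 : MeasurableSet A₁ := measurableSet_lt (meas_pp d) measurable_const
  have mA2 : MeasurableSet A₂ := measurableSet_lt (meas_qq d) measurable_const
  have mA3 : MeasurableSet A₃ := measurableSet_le (b19_meas_norm d) measurable_const
  have key : ∀ᵐ z ∂P, nu d N {w | (z.1, z.2, w) ∈ Col K} ≤
      e + (A₁.indicator 1 z + (A₂.indicator 1 z + (A₃.indicator 1 z +
        c * ((b19_L d s δ₁ 1).indicator b19_G z + ((b19_L d s δ₂ δ₁).indicator b19_G z +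
          ((b19_L d s δ₃ δ₂).indicator b19_G z + (b19_L d s δ₄ δ₃).indicator b19_G z)))))) := by
    filter_upwards [b19_ae d] with z hz
    by_cases hz3 : z ∈ A₃
    · calc nu d N {w | (z.1, z.2, w) ∈ Col K} ≤ 1 := prob_le_one
        _ = A₃.indicator 1 z := by rw [indicator_of_mem hz3]; rfl
        _ ≤ _ := by
          refine le_trans ?_ (self_le_add_left _ _)
          refine le_trans ?_ (self_le_add_left _ _)
          refine le_trans ?_ (self_le_add_left _ _)
          exact self_le_add_right _ _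
    · have hz4 : δ₄ < ‖z.1 - z.2‖ := by
        rw [hA3, mem_setOf_eq, not_le] at hz3
        exact hz3
      refine (pair_col hN hz.1 hz.2 hs).trans ?_
      rw [← he]
      refine add_le_add le_rfl (add_le_add le_rfl (add_le_add le_rfl ?_))
      refine le_trans ?_ (self_le_add_left _ _)
      refine mul_le_mul' le_rfl ?_
      by_cases hB : z ∈ {z : (Fin d → ℝ) × (Fin d → ℝ) | Bal s z.1 z.2}
      · rw [show ((z.1, z.2) : (Fin d → ℝ) × (Fin d → ℝ)) = z from rfl, indicator_of_mem hB]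
        change b19_G z ≤ _
        by_cases c1 : δ₁ < ‖z.1 - z.2‖
        · have : z ∈ b19_L d s δ₁ 1 := ⟨hB, c1, b19_norm hz.1 hz.2⟩
          rw [indicator_of_mem this]
          exact self_le_add_right _ _
        · by_cases c2 : δ₂ < ‖z.1 - z.2‖
          · have : z ∈ b19_L d s δ₂ δ₁ := ⟨hB, c2, not_lt.1 c1⟩
            rw [indicator_of_mem this]
            exact (self_le_add_right _ _).trans (self_le_add_left _ _)
          · by_cases c3 : δ₃ < ‖z.1 - z.2‖
            · have : z ∈ b19_L d s δ₃ δ₂ := ⟨hB, c3, not_lt.1 c2⟩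
              rw [indicator_of_mem this]
              exact ((self_le_add_right _ _).trans (self_le_add_left _ _)).trans (self_le_add_left _ _)
            · have : z ∈ b19_L d s δ₄ δ₃ := ⟨hB, hz4, not_lt.1 c3⟩
              rw [indicator_of_mem this]
              exact ((self_le_add_left _ _).trans (self_le_add_left _ _)).trans (self_le_add_left _ _)
      · rw [show ((z.1, z.2) : (Fin d → ℝ) × (Fin d → ℝ)) = z from rfl, indicator_of_notMem hB]
        exact zero_le
  refine (lintegral_mono_ae key).trans ?_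
  have mind : ∀ δ ε : ℝ, Measurable ((b19_L d s δ ε).indicator (b19_G (d := d))) := fun δ ε =>
    (b19_meas_G d).indicator (b19_meas_L d s δ ε)
  rw [lintegral_add_left measurable_const, lintegral_add_left (measurable_one.indicator mA1),
    lintegral_add_left (measurable_one.indicator mA2), lintegral_add_left (measurable_one.indicator mA3),
    lintegral_const_mul' _ _ ENNReal.ofReal_ne_top,
    lintegral_add_left (mind _ _), lintegral_add_left (mind _ _), lintegral_add_left (mind _ _),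
    lintegral_indicator_one mA1, lintegral_indicator_one mA2, lintegral_indicator_one mA3,
    lintegral_indicator (b19_meas_L _ _ _ _), lintegral_indicator (b19_meas_L _ _ _ _),
    lintegral_indicator (b19_meas_L _ _ _ _), lintegral_indicator (b19_meas_L _ _ _ _),
    lintegral_const, measure_univ, mul_one]
  set JJ := (J d).toReal with hJJ
  have hJ0 : 0 ≤ JJ := ENNReal.toReal_nonneg
  have hd0 : 0 < d := by omega
  have hs2 : 0 < 4 * s ^ 2 := by positivity
  have t1 : P A₁ ≤ ENNReal.ofReal ((16 * s ^ 2) ^ (2 - th) * JJ + ((20 * s ^ 2) ^ (1 - th) * JJ) ^ 2) := by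
    refine (small_pp hd hs2).trans ?_
    rw [show 4 * (4 * s ^ 2) = 16 * s ^ 2 by ring, show 5 * (4 * s ^ 2) = 20 * s ^ 2 by ring,
      b19_ofReal (by positivity), b19_ofReal (by positivity), ← ENNReal.ofReal_pow (by positivity),
      ← ENNReal.ofReal_add (by positivity) (by positivity)]
  have t2 : P A₂ ≤ ENNReal.ofReal ((16 * s ^ 2) ^ (2 - th) * JJ + ((20 * s ^ 2) ^ (1 - th) * JJ) ^ 2) := by
    refine (small_qq hd hs2).trans ?_
    rw [show 4 * (4 * s ^ 2) = 16 * s ^ 2 by ring, show 5 * (4 * s ^ 2) = 20 * s ^ 2 by ring,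
      b19_ofReal (by positivity), b19_ofReal (by positivity), ← ENNReal.ofReal_pow (by positivity),
      ← ENNReal.ofReal_add (by positivity) (by positivity)]
  have t3 : P A₃ ≤ ENNReal.ofReal ((2 * δ₄) ^ d) := ball2 h4.le
  have fr : ∀ {δ ε : ℝ}, 0 < δ → 0 < ε →
      ∫⁻ z in b19_L d s δ ε, b19_G z ∂P ≤ ENNReal.ofReal (Fb d s ε δ JJ) := by
    intro δ ε hδ hε
    refine (far hd hs hδ hε).trans ?_
    have hth : 0 < th := by unfold th; norm_num
    rw [b19_ofReal (by positivity), ← hJJ]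
    exact le_of_eq rfl
  have nr : ∫⁻ z in b19_L d s δ₄ δ₃, b19_G z ∂P ≤ ENNReal.ofReal (3 / δ₄ * (2 * δ₃) ^ d * JJ) := by
    refine (near hd0 hs h4 h3).trans ?_
    rw [b19_ofReal (by positivity), ← hJJ]
  have hth : 0 < th := by unfold th; norm_num
  have hFb : ∀ {δ ε : ℝ}, 0 < δ → 0 < ε → 0 ≤ Fb d s ε δ JJ := by
    intro δ ε hδ hε
    unfold Fb
    positivity
  have f1 := hFb h1 one_pos
  have f2 := hFb h2 h1
  have f3 := hFb h3 h2
  have f4 : 0 ≤ 3 / δ₄ * (2 * δ₃) ^ d * JJ := by positivity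
  calc e + (P A₁ + (P A₂ + (P A₃ + c * (∫⁻ z in b19_L d s δ₁ 1, b19_G z ∂P +
        (∫⁻ z in b19_L d s δ₂ δ₁, b19_G z ∂P + (∫⁻ z in b19_L d s δ₃ δ₂, b19_G z ∂P +
          ∫⁻ z in b19_L d s δ₄ δ₃, b19_G z ∂P)))))) ≤
      e + (ENNReal.ofReal ((16 * s ^ 2) ^ (2 - th) * JJ + ((20 * s ^ 2) ^ (1 - th) * JJ) ^ 2) +
        (ENNReal.ofReal ((16 * s ^ 2) ^ (2 - th) * JJ + ((20 * s ^ 2) ^ (1 - th) * JJ) ^ 2) +
        (ENNReal.ofReal ((2 * δ₄) ^ d) + c * (ENNReal.ofReal (Fb d s 1 δ₁ JJ) +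
        (ENNReal.ofReal (Fb d s δ₁ δ₂ JJ) + (ENNReal.ofReal (Fb d s δ₂ δ₃ JJ) +
          ENNReal.ofReal (3 / δ₄ * (2 * δ₃) ^ d * JJ))))))) := by
        gcongr
        · exact fr h1 one_pos
        · exact fr h2 h1
        · exact fr h3 h2
    _ = ENNReal.ofReal (Eb d N K s δ₁ δ₂ δ₃ δ₄ JJ) := by
        rw [he, hc, ← ENNReal.ofReal_add f3 f4, ← ENNReal.ofReal_add f2 (by positivity),
          ← ENNReal.ofReal_add f1 (by positivity), ← ENNReal.ofReal_mul (by positivity),
          ← ENNReal.ofReal_add (by positivity) (by positivity),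
          ← ENNReal.ofReal_add (by positivity) (by positivity),
          ← ENNReal.ofReal_add (by positivity) (by positivity),
          ← ENNReal.ofReal_add (by positivity) (by positivity)]
        congr 1
        unfold Eb
        ring

theorem E_tw {d N m : ℕ} (hd : 3 ≤ d) {κ y : ℝ} (hκ : 0 < κ) (hy : 4 * κ ≤ y) :
    ∫⁻ z, nu d N {w | (z.1, z.2, w) ∈ (Tw m ∩ {z | y ≤ X z.1 ∨ y ≤ Y z.1} : Set _)}
        ∂((mu d).prod (mu d)) ≤
      ENNReal.ofReal (Real.exp (m - N * κ / 2) + 2 * ((4 * κ) ^ d * y ^ (3 - d - 2 * th) * (J d).toReal)) := by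
  set P := (mu d).prod (mu d) with hP
  set A : Set ((Fin d → ℝ) × (Fin d → ℝ)) :=
    {z | pp z.1 z.2 < κ ∧ qq z.1 z.2 < κ ∧ (y ≤ X z.1 ∨ y ≤ Y z.1)} with hA
  have mA : MeasurableSet A := by
    refine (measurableSet_lt (meas_pp d) measurable_const).inter
      ((measurableSet_lt (meas_qq d) measurable_const).inter ?_)
    exact (measurableSet_le measurable_const ((meas_X d).comp measurable_fst)).union
      (measurableSet_le measurable_const ((meas_Y d).comp measurable_fst))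
  have hy0 : 0 < y := by linarith
  have key : ∀ᵐ z ∂P, nu d N {w | (z.1, z.2, w) ∈ (Tw m ∩ {z | y ≤ X z.1 ∨ y ≤ Y z.1} : Set _)} ≤
      ENNReal.ofReal (Real.exp (m - N * κ / 2)) + A.indicator 1 z := by
    filter_upwards [b19_ae d] with z hz
    by_cases hyz : y ≤ X z.1 ∨ y ≤ Y z.1
    · refine (measure_mono (fun w hw => hw.1)).trans ((pair_tw hz.1 hz.2 κ).trans ?_)
      refine add_le_add le_rfl ?_
      by_cases hz2 : z ∈ {z : (Fin d → ℝ) × (Fin d → ℝ) | pp z.1 z.2 < κ ∧ qq z.1 z.2 < κ}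
      · have : z ∈ A := ⟨hz2.1, hz2.2, hyz⟩
        rw [indicator_of_mem this]
        exact indicator_le_self' (by simp) _
      · rw [show ((z.1, z.2) : (Fin d → ℝ) × (Fin d → ℝ)) = z from rfl, indicator_of_notMem hz2]
        exact zero_le
    · have : {w | (z.1, z.2, w) ∈ (Tw m ∩ {z | y ≤ X z.1 ∨ y ≤ Y z.1} : Set _)} =
          (∅ : Set (Fin N → Fin d → ℝ)) := by
        ext w
        simp only [mem_setOf_eq, mem_inter_iff, mem_empty_iff_false, iff_false, not_and]
        exact fun _ => hyz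
      rw [this, measure_empty]
      exact zero_le
  refine (lintegral_mono_ae key).trans ?_
  rw [lintegral_add_left measurable_const, lintegral_indicator_one mA, lintegral_const, measure_univ, mul_one,
    ENNReal.ofReal_add (by positivity) (by positivity)]
  refine add_le_add le_rfl ((small_both hd hκ hy).trans ?_)
  rw [b19_ofReal (by positivity), ENNReal.ofReal_mul (by norm_num : (0:ℝ) ≤ 2)]
  simp

end Pool.Agent.Helper14.RO
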