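import Pool.Agent.Helper14.RO.Defs
import Pool.Agent.Helper14.RO.B27

/-!
# Block 23: a random order contains the standard example
-/

namespace Pool.Agent.Helper14.RO

open MeasureTheory Set
open scoped ENNReal

/-- A box of side one quarter. -/
def b23_box {d : ℕ} (a : Fin d → ℝ) : Set (Fin d → ℝ) :=
  Set.pi univ fun i => Ioo (a i) (a i + 1 / 4)

theorem b23_mu1 (x : ℝ) (h0 : 0 ≤ x) (h1 : x + 1 / 4 ≤ 1) :
    mu1 (Ioo x (x + 1 / 4)) = ENNReal.ofReal (1 / 4) := by
  have h : Ioo x (x + 1 / 4) ∩ Ioo (0 : ℝ) 1 = Ioo x (x + 1 / 4) := by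
    apply inter_eq_left.2
    exact Ioo_subset_Ioo h0 h1
  rw [mu1, Measure.restrict_apply measurableSet_Ioo, h, Real.volume_Ioo]
  congr 1
  ring

theorem b23_mu {d : ℕ} (a : Fin d → ℝ) (h0 : ∀ i, 0 ≤ a i) (h1 : ∀ i, a i + 1 / 4 ≤ 1) :
    mu d (b23_box a) = ENNReal.ofReal ((1 / 4) ^ d) := by
  rw [mu, b23_box, Measure.pi_pi]
  have : ∀ i ∈ (Finset.univ : Finset (Fin d)), mu1 (Ioo (a i) (a i + 1 / 4)) =
      ENNReal.ofReal (1 / 4) := fun i _ => b23_mu1 (a i) (h0 i) (h1 i)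
  rw [Finset.prod_congr rfl this, Finset.prod_const, Finset.card_univ, Fintype.card_fin,
    ENNReal.ofReal_pow (by norm_num)]

theorem b23_meas {d : ℕ} (a : Fin d → ℝ) : MeasurableSet (b23_box a) :=
  MeasurableSet.univ_pi fun _ => measurableSet_Ioo

theorem b23_miss {d n : ℕ} (a : Fin d → ℝ) (h0 : ∀ i, 0 ≤ a i) (h1 : ∀ i, a i + 1 / 4 ≤ 1) :
    nu d n {ω | ∀ k, ω k ∉ b23_box a} = ENNReal.ofReal ((1 - (1 / 4) ^ d) ^ n) := by
  have hs : {ω : Fin n → Fin d → ℝ | ∀ k, ω k ∉ b23_box a} = Set.pi univ fun _ => (b23_box a)ᶜ := by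
    ext ω
    simp [Set.mem_pi]
  have hq : ((1 : ℝ) / 4) ^ d ≤ 1 := pow_le_one₀ (by norm_num) (by norm_num)
  rw [hs, nu, Measure.pi_pi, Finset.prod_const, Finset.card_univ, Fintype.card_fin,
    prob_compl_eq_one_sub (b23_meas a), b23_mu a h0 h1, ENNReal.ofReal_pow (n := n) (by linarith),
    ENNReal.ofReal_sub _ (by positivity), ENNReal.ofReal_one]

theorem hasS_prob {d n : ℕ} :
    nu d n {ω | ¬ HasS d (rel ω)} ≤ ENNReal.ofReal (2 * d * (1 - (1 / 4) ^ d) ^ n) := by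
  classical
  let aA : Fin d → Fin d → ℝ := fun j i => if i = j then 1 / 2 else 0
  let aB : Fin d → Fin d → ℝ := fun j i => if i = j then 1 / 4 else 3 / 4
  have hA0 : ∀ j i, 0 ≤ aA j i := by
    intro j i; simp only [aA]; split_ifs <;> norm_num
  have hA1 : ∀ j i, aA j i + 1 / 4 ≤ 1 := by
    intro j i; simp only [aA]; split_ifs <;> norm_num
  have hB0 : ∀ j i, 0 ≤ aB j i := by
    intro j i; simp only [aB]; split_ifs <;> norm_num
  have hB1 : ∀ j i, aB j i + 1 / 4 ≤ 1 := by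
    intro j i; simp only [aB]; split_ifs <;> norm_num
  have hsub : {ω : Fin n → Fin d → ℝ | ¬ HasS d (rel ω)} ⊆
      ⋃ j : Fin d, ({ω | ∀ k, ω k ∉ b23_box (aA j)} ∪ {ω | ∀ k, ω k ∉ b23_box (aB j)}) := by
    intro ω hω
    by_contra hcon
    apply hω
    have h1 : ∀ j : Fin d, (∃ k, ω k ∈ b23_box (aA j)) ∧ (∃ k, ω k ∈ b23_box (aB j)) := by
      intro j
      have h2 : ω ∉ ({ω | ∀ k, ω k ∉ b23_box (aA j)} ∪ {ω | ∀ k, ω k ∉ b23_box (aB j)} :
          Set (Fin n → Fin d → ℝ)) := fun h => hcon (mem_iUnion.2 ⟨j, h⟩)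
      constructor
      · by_contra h3
        exact h2 (Or.inl (by intro k hk; exact h3 ⟨k, hk⟩))
      · by_contra h3
        exact h2 (Or.inr (by intro k hk; exact h3 ⟨k, hk⟩))
    choose A hA using fun j => (h1 j).1
    choose B hB using fun j => (h1 j).2
    refine ⟨A, B, fun j l => ?_⟩
    have hAi : ∀ j i, aA j i < ω (A j) i ∧ ω (A j) i < aA j i + 1 / 4 := by
      intro j i
      exact (hA j) i (mem_univ i)
    have hBi : ∀ j i, aB j i < ω (B j) i ∧ ω (B j) i < aB j i + 1 / 4 := by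
      intro j i
      exact (hB j) i (mem_univ i)
    constructor
    · intro h e
      subst e
      have h3 := h j
      have h4 := (hAi j j).1
      have h5 := (hBi j j).2
      simp only [aA, aB, if_true] at h4 h5
      linarith
    · intro hne i
      have h4 := (hAi j i).2
      have h5 := (hBi l i).1
      simp only [aA, aB] at h4 h5
      by_cases hij : i = j
      · have hil : i ≠ l := fun h => hne (hij.symm.trans h)
        rw [if_pos hij] at h4
        rw [if_neg hil] at h5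
        linarith
      · rw [if_neg hij] at h4
        split_ifs at h5 <;> linarith
  have hq : ((1 : ℝ) / 4) ^ d ≤ 1 := pow_le_one₀ (by norm_num) (by norm_num)
  have hq' : 0 ≤ (1 - (1 / 4 : ℝ) ^ d) ^ n := pow_nonneg (by linarith) n
  calc nu d n {ω | ¬ HasS d (rel ω)}
      ≤ nu d n (⋃ j : Fin d, ({ω | ∀ k, ω k ∉ b23_box (aA j)} ∪ {ω | ∀ k, ω k ∉ b23_box (aB j)})) :=
        measure_mono hsub
    _ ≤ ∑ j : Fin d, nu d n ({ω | ∀ k, ω k ∉ b23_box (aA j)} ∪ {ω | ∀ k, ω k ∉ b23_box (aB j)}) :=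
        measure_iUnion_fintype_le _ _
    _ ≤ ∑ _j : Fin d, ENNReal.ofReal (2 * (1 - (1 / 4) ^ d) ^ n) := by
        apply Finset.sum_le_sum
        intro j _
        refine (measure_union_le _ _).trans ?_
        rw [b23_miss _ (hA0 j) (hA1 j), b23_miss _ (hB0 j) (hB1 j),
          ← ENNReal.ofReal_add hq' hq']
        apply ENNReal.ofReal_le_ofReal
        linarith
    _ = ENNReal.ofReal (2 * d * (1 - (1 / 4) ^ d) ^ n) := by
        rw [Finset.sum_const, Finset.card_univ, Fintype.card_fin, nsmul_eq_mul,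
          ← ENNReal.ofReal_natCast, ← ENNReal.ofReal_mul (by positivity)]
        congr 1
        ring

end Pool.Agent.Helper14.RO
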