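import Pool.Agent.Helper14.RO.B28

/-!
# Block 25: the numerical estimate for near twins
-/

namespace Pool.Agent.Helper14.RO

open Filter

theorem b25_ev (C : ℝ) : ∀ᶠ x : ℝ in atTop, 4 ≤ x ∧ 20 ≤ x ^ (1 / 150 : ℝ) ∧
    x ^ 2 * Real.exp (-x ^ (1 / 100 : ℝ)) ≤ x ^ (-(1 / 150) : ℝ) / 2 ∧
    C * x ^ (-(1 / 100) : ℝ) ≤ x ^ (-(1 / 150) : ℝ) / 2 := by
  have h1 : ∀ᶠ x : ℝ in atTop, 20 ≤ x ^ (1 / 150 : ℝ) :=
    (tendsto_rpow_atTop (by norm_num : (0 : ℝ) < 1 / 150)).eventually_ge_atTop 20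
  have h2 : ∀ᶠ x : ℝ in atTop, (x ^ (1 / 100 : ℝ)) ^ 300 * Real.exp (-x ^ (1 / 100 : ℝ)) ≤ 1 / 2 := by
    have h := (Real.tendsto_pow_mul_exp_neg_atTop_nhds_zero 300).comp
      (tendsto_rpow_atTop (by norm_num : (0 : ℝ) < 1 / 100))
    exact h.eventually_le_const (by norm_num)
  have h3 : ∀ᶠ x : ℝ in atTop, C * x ^ (-(1 / 300) : ℝ) ≤ 1 / 2 := by
    have h := (tendsto_rpow_neg_atTop (by norm_num : (0 : ℝ) < 1 / 300)).const_mul C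
    rw [mul_zero] at h
    exact h.eventually_le_const (by norm_num)
  filter_upwards [eventually_ge_atTop (4 : ℝ), h1, h2, h3] with x hx h1 h2 h3
  have hx0 : 0 < x := by linarith
  have hp : 0 < x ^ (-(1 / 150) : ℝ) := Real.rpow_pos_of_pos hx0 _
  refine ⟨hx, h1, ?_, ?_⟩
  · have e1 : (x ^ (1 / 100 : ℝ)) ^ 300 = x ^ 3 := by
      rw [← Real.rpow_natCast, ← Real.rpow_mul hx0.le, ← Real.rpow_natCast]
      norm_num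
    rw [e1] at h2
    have h4 : x ^ (-1 : ℝ) ≤ x ^ (-(1 / 150) : ℝ) :=
      Real.rpow_le_rpow_of_exponent_le (by linarith) (by norm_num)
    rw [Real.rpow_neg_one] at h4
    have e2 : x ^ 2 * Real.exp (-x ^ (1 / 100 : ℝ)) = x⁻¹ * (x ^ 3 * Real.exp (-x ^ (1 / 100 : ℝ))) := by
      field_simp
    rw [e2]
    calc x⁻¹ * (x ^ 3 * Real.exp (-x ^ (1 / 100 : ℝ))) ≤ x⁻¹ * (1 / 2) :=
          mul_le_mul_of_nonneg_left h2 (inv_nonneg.2 hx0.le)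
      _ ≤ x ^ (-(1 / 150) : ℝ) / 2 := by linarith
  · have e3 : x ^ (-(1 / 100) : ℝ) = x ^ (-(1 / 300) : ℝ) * x ^ (-(1 / 150) : ℝ) := by
      rw [← Real.rpow_add hx0]
      norm_num
    rw [e3, ← mul_assoc]
    calc C * x ^ (-(1 / 300) : ℝ) * x ^ (-(1 / 150) : ℝ) ≤ 1 / 2 * x ^ (-(1 / 150) : ℝ) :=
          mul_le_mul_of_nonneg_right h3 hp.le
      _ = _ := by ring

theorem num_tw {d : ℕ} (hd : 3 ≤ d) {JJ : ℝ} (hJ : 0 ≤ JJ) {e₁ e₂ e₃ : ℝ} (h0 : 1 / 100 < e₁)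
    (h1 : e₁ + 1 / 150 < 1 + e₂) (h2 : 2 + 3 * e₂ + 0.00104 - e₃ < -(1 / 100)) (h3 : e₂ < -0.52) (h4 : 0 ≤ e₃) :
    ∀ᶠ N : ℕ in atTop, ∀ K : ℕ, (K : ℝ) ≤ ((N : ℝ) + 2) ^ (1 / 200 : ℝ) →
      (N + 2) * (N + 1) / (M N e₃) *
        (Real.exp ((M N e₁ + 2 * K : ℕ) - N * (((N : ℝ) + 2) ^ e₂) / 2) +
          2 * ((4 * ((N : ℝ) + 2) ^ e₂) ^ d * (((N : ℝ) + 2) ^ (-0.52 : ℝ)) ^ (3 - d - 2 * th) * JJ)) ≤
        ((N : ℝ) + 2) ^ (-(1 / 150) : ℝ) := by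
  have ht : Tendsto (fun N : ℕ => (N : ℝ) + 2) atTop atTop :=
    tendsto_atTop_add_const_right _ _ tendsto_natCast_atTop_atTop
  filter_upwards [ht.eventually (b25_ev (2 * 4 ^ d * JJ))] with N hN K hK
  obtain ⟨x, hx⟩ : ∃ x : ℝ, x = (N : ℝ) + 2 := ⟨_, rfl⟩
  have eN : (N : ℝ) = x - 2 := by rw [hx]; ring
  rw [← hx] at hN hK
  obtain ⟨hx4, ha, hb, hc⟩ := hN
  have hx0 : 0 < x := by linarith
  have hx1 : 1 ≤ x := by linarith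
  -- the prefactor
  have hM3 : x ^ e₃ ≤ (M N e₃ : ℝ) := by
    have h := Nat.le_ceil (((N : ℝ) + 2) ^ e₃)
    rw [← hx] at h
    unfold M
    rw [← hx]
    exact h
  have hp3 : 0 < x ^ e₃ := Real.rpow_pos_of_pos hx0 _
  have hp3' : 1 ≤ x ^ e₃ := Real.one_le_rpow hx1 h4
  have hMpos : 0 < (M N e₃ : ℝ) := lt_of_lt_of_le hp3 hM3
  have hpre : ((N : ℝ) + 2) * ((N : ℝ) + 1) / (M N e₃) ≤ x ^ 2 / x ^ e₃ := by
    rw [eN]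
    have e : (x - 2 + 2) * (x - 2 + 1) ≤ x ^ 2 := by nlinarith
    have e0 : 0 ≤ x ^ 2 := sq_nonneg x
    exact div_le_div₀ e0 e hp3 hM3
  have hpre0 : 0 ≤ ((N : ℝ) + 2) * ((N : ℝ) + 1) / (M N e₃) := by positivity
  have hpre2 : x ^ 2 / x ^ e₃ ≤ x ^ 2 := div_le_self (sq_nonneg x) hp3'
  -- the exponential
  have hM1 : (M N e₁ : ℝ) ≤ x ^ e₁ + 1 := by
    unfold M
    rw [← hx]
    exact (Nat.ceil_lt_add_one (Real.rpow_nonneg hx0.le _)).le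
  have hK2 : (K : ℝ) ≤ x ^ e₁ := hK.trans (Real.rpow_le_rpow_of_exponent_le hx1 (by linarith))
  have hone : 1 ≤ x ^ e₁ := Real.one_le_rpow hx1 (by linarith)
  have hN2 : 20 * x ^ e₁ ≤ x ^ (1 + e₂) := by
    have h5 : x ^ (e₁ + 1 / 150) ≤ x ^ (1 + e₂) := Real.rpow_le_rpow_of_exponent_le hx1 h1.le
    rw [Real.rpow_add hx0] at h5
    have h6 : 20 * x ^ e₁ ≤ x ^ e₁ * x ^ (1 / 150 : ℝ) := by
      rw [mul_comm]
      exact mul_le_mul_of_nonneg_left ha (by linarith)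
    exact h6.trans h5
  have hexp : Real.exp ((M N e₁ + 2 * K : ℕ) - N * (((N : ℝ) + 2) ^ e₂) / 2) ≤ Real.exp (-x ^ (1 / 100 : ℝ)) := by
    rw [Real.exp_le_exp]
    push_cast
    rw [← hx, eN]
    have h7 : x ^ (1 + e₂) = x * x ^ e₂ := by
      rw [Real.rpow_add hx0, Real.rpow_one]
    have h8 : 0 < x ^ e₂ := Real.rpow_pos_of_pos hx0 _
    have h9 : x ^ (1 + e₂) / 4 ≤ (x - 2) * x ^ e₂ / 2 := by
      rw [h7]
      nlinarith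
    have h10 : x ^ (1 / 100 : ℝ) ≤ x ^ e₁ := Real.rpow_le_rpow_of_exponent_le hx1 h0.le
    linarith
  -- the power
  have hpow : (4 * x ^ e₂) ^ d * (x ^ (-0.52 : ℝ)) ^ (3 - d - 2 * th) = 4 ^ d * x ^ (e₂ * d + (-0.52) * (3 - d - 2 * th)) := by
    rw [mul_pow, ← Real.rpow_mul hx0.le, Real.rpow_add hx0, Real.rpow_mul hx0.le e₂ (d : ℝ), Real.rpow_natCast]
    ring
  have hd' : (3 : ℝ) ≤ d := by exact_mod_cast hd
  have hex : e₂ * d + (-0.52) * (3 - d - 2 * th) + (2 - e₃) ≤ -(1 / 100) := by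
    unfold th
    nlinarith
  have hterm2 : x ^ 2 / x ^ e₃ * (2 * ((4 * x ^ e₂) ^ d * (x ^ (-0.52 : ℝ)) ^ (3 - d - 2 * th) * JJ)) ≤
      2 * 4 ^ d * JJ * x ^ (-(1 / 100) : ℝ) := by
    have e : x ^ 2 / x ^ e₃ * (2 * ((4 * x ^ e₂) ^ d * (x ^ (-0.52 : ℝ)) ^ (3 - d - 2 * th) * JJ)) =
        2 * 4 ^ d * JJ * x ^ (e₂ * d + (-0.52) * (3 - d - 2 * th) + (2 - e₃)) := by
      rw [hpow, Real.rpow_add hx0 _ (2 - e₃), Real.rpow_sub hx0, Real.rpow_two]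
      ring
    rw [e]
    refine mul_le_mul_of_nonneg_left (Real.rpow_le_rpow_of_exponent_le hx1 hex) (by positivity)
  have hnn : 0 ≤ 2 * ((4 * x ^ e₂) ^ d * (x ^ (-0.52 : ℝ)) ^ (3 - d - 2 * th) * JJ) := by
    rw [hpow]
    positivity
  have hg : ((N : ℝ) + 2) * ((N : ℝ) + 1) / (M N e₃) *
        (Real.exp ((M N e₁ + 2 * K : ℕ) - N * (((N : ℝ) + 2) ^ e₂) / 2) +
          2 * ((4 * ((N : ℝ) + 2) ^ e₂) ^ d * (((N : ℝ) + 2) ^ (-0.52 : ℝ)) ^ (3 - d - 2 * th) * JJ)) ≤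
      x ^ 2 * Real.exp (-x ^ (1 / 100 : ℝ)) + 2 * 4 ^ d * JJ * x ^ (-(1 / 100) : ℝ) := by
    rw [mul_add]
    refine add_le_add ?_ ?_
    · exact mul_le_mul (hpre.trans hpre2) hexp (Real.exp_pos _).le (sq_nonneg x)
    · rw [← hx] at hpre ⊢
      exact (mul_le_mul_of_nonneg_right hpre hnn).trans hterm2
  rw [← hx] at hg ⊢
  linarith

end Pool.Agent.Helper14.RO
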