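import Pool.Agent.Helper14.RO.B28

/-!
# Block 26: other numerical estimates
-/

namespace Pool.Agent.Helper14.RO

open Filter

lemma b26_x : Tendsto (fun N : ℕ => (N : ℝ) + 2) atTop atTop :=
  tendsto_atTop_add_const_right _ _ tendsto_natCast_atTop_atTop

/-- A smaller exponent wins against any constant. -/
lemma b26_gen {a b : ℝ} (hab : a < b) (C : ℝ) :
    ∀ᶠ N : ℕ in atTop, C * ((N : ℝ) + 2) ^ a ≤ ((N : ℝ) + 2) ^ b := by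
  have h := ((tendsto_rpow_atTop (sub_pos.2 hab)).comp b26_x).eventually_ge_atTop C
  filter_upwards [h] with N hN
  have hx : (0 : ℝ) < (N : ℝ) + 2 := by positivity
  have h1 : ((N : ℝ) + 2) ^ b = ((N : ℝ) + 2) ^ (b - a) * ((N : ℝ) + 2) ^ a := by
    rw [← Real.rpow_add hx]; congr 1; ring
  rw [h1]
  exact mul_le_mul_of_nonneg_right hN (Real.rpow_nonneg hx.le _)

theorem num_G {JJ : ℝ} (hJ : 0 ≤ JJ) :
    ∀ᶠ N : ℕ in atTop, (N + 2) * ((((N : ℝ) + 2) ^ (-0.52 : ℝ)) ^ (2 - 2 * th) * JJ) ≤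
      ((N : ℝ) + 2) ^ (-(1 / 150) : ℝ) := by
  have hab : (1 + -0.52 * (2 - 2 * th) : ℝ) < -(1 / 150) := by unfold th; norm_num
  filter_upwards [b26_gen hab JJ] with N hN
  have hx : (0 : ℝ) < (N : ℝ) + 2 := by positivity
  refine le_trans (le_of_eq ?_) hN
  rw [← Real.rpow_mul hx.le, Real.rpow_add hx, Real.rpow_one]
  ring

theorem num_S (d : ℕ) :
    ∀ᶠ N : ℕ in atTop, 2 * (d : ℝ) * (1 - (1 / 4) ^ d) ^ (N + 2) ≤ ((N : ℝ) + 2) ^ (-(1 / 150) : ℝ) := by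
  have hq0 : (0 : ℝ) < (1 / 4) ^ d := by positivity
  have hq1 : ((1 : ℝ) / 4) ^ d ≤ 1 := pow_le_one₀ (by norm_num) (by norm_num)
  have hr : |1 - ((1 : ℝ) / 4) ^ d| < 1 := by
    rw [abs_lt]; constructor <;> linarith
  have h := ((tendsto_pow_const_mul_const_pow_of_abs_lt_one 1 hr).const_mul (2 * (d : ℝ))).comp
    (tendsto_add_atTop_nat 2)
  have h' : ∀ᶠ N : ℕ in atTop, 2 * (d : ℝ) * (((N + 2 : ℕ) : ℝ) ^ 1 *
      (1 - (1 / 4) ^ d) ^ (N + 2)) < 1 := by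
    have := h.eventually (gt_mem_nhds (by rw [mul_zero]; exact one_pos))
    simpa [Function.comp_def] using this
  filter_upwards [h'] with N hN
  have hx : (0 : ℝ) < (N : ℝ) + 2 := by positivity
  have hx1 : (1 : ℝ) ≤ (N : ℝ) + 2 := by
    have : (0 : ℝ) ≤ N := Nat.cast_nonneg N
    linarith
  have hle : ((N : ℝ) + 2) ^ ((1 : ℝ) / 150) ≤ (N : ℝ) + 2 := by
    calc ((N : ℝ) + 2) ^ ((1 : ℝ) / 150) ≤ ((N : ℝ) + 2) ^ (1 : ℝ) :=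
          Real.rpow_le_rpow_of_exponent_le hx1 (by norm_num)
      _ = (N : ℝ) + 2 := Real.rpow_one _
  have hr0 : (0 : ℝ) ≤ (1 - (1 / 4) ^ d) ^ (N + 2) := pow_nonneg (by linarith) _
  rw [Real.rpow_neg hx.le, ← one_div, le_div_iff₀ (Real.rpow_pos_of_pos hx _)]
  calc 2 * (d : ℝ) * (1 - (1 / 4) ^ d) ^ (N + 2) * ((N : ℝ) + 2) ^ ((1 : ℝ) / 150)
      ≤ 2 * (d : ℝ) * (1 - (1 / 4) ^ d) ^ (N + 2) * ((N : ℝ) + 2) :=
        mul_le_mul_of_nonneg_left hle (by positivity)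
    _ = 2 * (d : ℝ) * (((N + 2 : ℕ) : ℝ) ^ 1 * (1 - (1 / 4) ^ d) ^ (N + 2)) := by
        push_cast; ring
    _ ≤ 1 := hN.le

theorem num_side {e : ℝ} (he : e < -0.52) :
    ∀ᶠ N : ℕ in atTop, 4 * ((N : ℝ) + 2) ^ e ≤ ((N : ℝ) + 2) ^ (-0.52 : ℝ) := b26_gen he 4

theorem num_final :
    ∀ᶠ N : ℕ in atTop, 6 * ((N : ℝ) + 2) ^ (-(1 / 150) : ℝ) ≤ ((N : ℝ) + 2) ^ (-(1 / 200) : ℝ) :=
  b26_gen (by norm_num) 6

end Pool.Agent.Helper14.RO
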