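import Mathlib
import Pool.Agent.Helper87.PD.Defs

/-!
# Random d-dimensional orders: the definitions used in the statement (MP_dbf53e_co, helper14)
-/

namespace Pool.Agent.Helper14.RO

/-- The order given by a tuple of permutations. -/
def ord {d n : ℕ} (σ : Fin d → Equiv.Perm (Fin n)) (u v : Fin n) : Prop := ∀ i, σ i u ≤ σ i v

open Pool.Agent.Helper87.PD in
/-- `r` is determined, up to isomorphism among all ordered sets on `n` points, by the isomorphism types of any
ordered subsets with at least `n - K` points which cover all pairs: if `s` is an ordered set with subsets `A' i`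
which cover all pairs of points and are isomorphic to subsets `A i` of `r` with at least `n - K` points, then `s`
is isomorphic to `r`. -/
def Det {n : ℕ} (K : ℕ) (r : Fin n → Fin n → Prop) : Prop :=
  ∀ s : Fin n → Fin n → Prop, IsPO s → ∀ (ι : Type) (A A' : ι → Finset (Fin n)),
    (∀ i, n ≤ (A i).card + K) → (∀ i, Iso (res r (A i)) (res s (A' i))) →
    (∀ u v, ∃ i, u ∈ A' i ∧ v ∈ A' i) → Iso r s

end Pool.Agent.Helper14.RO
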