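import Mathlib
import Pool.Agent.Helper14.RO.Core

/-!
# Random d-dimensional orders: definitions (MP_dbf53e_co, helper14)

The points are uniform in the cube; the order is the product order.
-/

namespace Pool.Agent.Helper14.RO

open MeasureTheory Set
open scoped ENNReal

/-- A small exponent. -/
noncomputable def th : ℝ := 1 / 1000

/-- Lebesgue measure on the unit interval. -/
noncomputable def mu1 : Measure ℝ := volume.restrict (Ioo (0 : ℝ) 1)

instance : IsProbabilityMeasure mu1 := ⟨by simp [mu1]⟩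

/-- The uniform measure on the cube. -/
noncomputable def mu (d : ℕ) : Measure (Fin d → ℝ) := Measure.pi fun _ => mu1

instance (d : ℕ) : IsProbabilityMeasure (mu d) := by unfold mu; infer_instance

/-- The law of `m` independent points of the cube. -/
noncomputable def nu (d m : ℕ) : Measure (Fin m → Fin d → ℝ) := Measure.pi fun _ => mu d

instance (d m : ℕ) : IsProbabilityMeasure (nu d m) := by unfold nu; infer_instance

/-- The open cube. -/
def Cube (d : ℕ) : Set (Fin d → ℝ) := {a | ∀ i, a i ∈ Ioo (0 : ℝ) 1}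

/-- The volume of the set of points below `a`. -/
def X {d : ℕ} (a : Fin d → ℝ) : ℝ := ∏ i, a i

/-- The volume of the set of points above `a`. -/
def Y {d : ℕ} (a : Fin d → ℝ) : ℝ := ∏ i, (1 - a i)

/-- The volume of the set of points below exactly one of `a`, `b`. -/
def pp {d : ℕ} (a b : Fin d → ℝ) : ℝ := X a + X b - 2 * X (a ⊓ b)

/-- The volume of the set of points above exactly one of `a`, `b`. -/
def qq {d : ℕ} (a b : Fin d → ℝ) : ℝ := Y a + Y b - 2 * Y (a ⊔ b)

open Classical in
/-- Is `w` below `a` minus is `w` below `b`. -/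
noncomputable def ff {d : ℕ} (a b w : Fin d → ℝ) : ℤ :=
  (if w ≤ a then 1 else 0) - (if w ≤ b then 1 else 0)

open Classical in
/-- Is `w` above `a` minus is `w` above `b`. -/
noncomputable def gg {d : ℕ} (a b w : Fin d → ℝ) : ℤ :=
  (if a ≤ w then 1 else 0) - (if b ≤ w then 1 else 0)

/-- The basic integral; it is finite. -/
noncomputable def J (d : ℕ) : ℝ≥0∞ := ∫⁻ a, ENNReal.ofReal ((X a * Y a) ^ (th - 1)) ∂mu d

/-- The pairs of points whose numbers of smaller points, and of larger points, have close means. -/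
def Bal {d : ℕ} (s : ℝ) (a b : Fin d → ℝ) : Prop :=
  4 * s ^ 2 ≤ pp a b ∧ 4 * s ^ 2 ≤ qq a b ∧ (X a - X b) ^ 2 ≤ s ^ 2 * pp a b ∧
    (Y a - Y b) ^ 2 ≤ s ^ 2 * qq a b

/-- The order on the indices of the points. -/
def rel {d m : ℕ} (ω : Fin m → Fin d → ℝ) (u v : Fin m) : Prop := ω u ≤ ω v

/-- The pair event `C` for the points `u` and `u.succAbove v`, and all the other points. -/
def ev {d N : ℕ} (ω : Fin (N + 2) → Fin d → ℝ) (u : Fin (N + 2)) (v : Fin (N + 1)) :
    (Fin d → ℝ) × (Fin d → ℝ) × (Fin N → Fin d → ℝ) :=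
  (ω u, ω (u.succAbove v), fun k => ω (u.succAbove (v.succAbove k)))

open Classical in
/-- The number of pairs `u, v` of points with the event `C`. -/
noncomputable def cnt {d N : ℕ} (C : Set ((Fin d → ℝ) × (Fin d → ℝ) × (Fin N → Fin d → ℝ)))
    (ω : Fin (N + 2) → Fin d → ℝ) : ℕ :=
  (Finset.univ.filter fun t : Fin (N + 2) × Fin (N + 1) => ev ω t.1 t.2 ∈ C).card

/-- Near collision: the numbers of smaller points, and of larger points, differ by at most `K`. -/
def Col {d N : ℕ} (K : ℕ) : Set ((Fin d → ℝ) × (Fin d → ℝ) × (Fin N → Fin d → ℝ)) :=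
  {z | |∑ k, ff z.1 z.2.1 (z.2.2 k)| ≤ K ∧ |∑ k, gg z.1 z.2.1 (z.2.2 k)| ≤ K}

open Classical in
/-- Near twins: at most `m` of the other points distinguish the two. -/
def Tw {d N : ℕ} (m : ℕ) : Set ((Fin d → ℝ) × (Fin d → ℝ) × (Fin N → Fin d → ℝ)) :=
  {z | (Finset.univ.filter fun k => ff z.1 z.2.1 (z.2.2 k) ≠ 0 ∨ gg z.1 z.2.1 (z.2.2 k) ≠ 0).card ≤ m}

/-- `r` has no partial automorphism with at most `K` points deleted other than the restrictions of the identity. -/
def Rig {n : ℕ} (K : ℕ) (r : Fin n → Fin n → Prop) : Prop :=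
  ∀ (D : Finset (Fin n)) (g : Fin n → Fin n), D.card ≤ K → (∀ a ∈ D, g a = a) →
    (∀ a b, a ∉ D → b ∉ D → g a = g b → a = b) → (∀ a b, a ∉ D → b ∉ D → (r a b ↔ r (g a) (g b))) →
    ∀ a, g a = a

end Pool.Agent.Helper14.RO
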