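import Pool.Agent.Helper14.RO.B13
import Pool.Agent.Helper14.RO.B14
import Pool.Agent.Helper14.RO.B15
import Pool.Agent.Helper14.RO.B16
import Pool.Agent.Helper14.RO.B17
import Pool.Agent.Helper14.RO.B18
import Pool.Agent.Helper14.RO.B19
import Pool.Agent.Helper14.RO.B23
import Pool.Agent.Helper14.RO.B25
import Pool.Agent.Helper14.RO.B26

/-!
# Random d-dimensional orders: the main theorem
-/

namespace Pool.Agent.Helper14.RO

open MeasureTheory Set Filter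
open scoped ENNReal

/-- The points which are not in the corner `X < y`, `Y < y`. -/
def main_C (d N : ℕ) (y : ℝ) : Set ((Fin d → ℝ) × (Fin d → ℝ) × (Fin N → Fin d → ℝ)) :=
  {z | y ≤ X z.1 ∨ y ≤ Y z.1}

theorem main_meas_C (d N : ℕ) (y : ℝ) : MeasurableSet (main_C d N y) :=
  (measurableSet_le measurable_const ((meas_X d).comp measurable_fst)).union
    (measurableSet_le measurable_const ((meas_Y d).comp measurable_fst))

theorem main_cnt {d N m : ℕ} {y : ℝ} {ω : Fin (N + 2) → Fin d → ℝ}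
    (h : ∀ u, y ≤ X (ω u) ∨ y ≤ Y (ω u)) : cnt (Tw m ∩ main_C d N y) ω = cnt (Tw m) ω := by
  classical
  unfold cnt
  congr 1
  ext t
  simp only [Finset.mem_filter, Finset.mem_univ, true_and, mem_inter_iff]
  exact ⟨fun h1 => h1.1, fun h1 => ⟨h1, h t.1⟩⟩

theorem main_M_pos (N : ℕ) (e : ℝ) : 0 < M N e := by
  unfold M
  exact Nat.ceil_pos.2 (by positivity)

theorem main_M_zero (N : ℕ) : M N 0 = 1 := by
  unfold M
  rw [Real.rpow_zero, Nat.ceil_one]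

/-- The probability of many pairs of near twins. -/
theorem main_tw {d : ℕ} (hd : 3 ≤ d) {e₁ e₂ e₃ : ℝ} (h0 : 1 / 100 < e₁)
    (h1 : e₁ + 1 / 150 < 1 + e₂) (h2 : 2 + 3 * e₂ + 0.00104 - e₃ < -(1 / 100)) (h3 : e₂ < -0.52) (h4 : 0 ≤ e₃) :
    ∀ᶠ N : ℕ in atTop, ∀ K : ℕ, (K : ℝ) ≤ ((N : ℝ) + 2) ^ (1 / 200 : ℝ) →
      nu d (N + 2) {ω | (M N e₃ : ℝ) ≤
        cnt (Tw (M N e₁ + 2 * K) ∩ main_C d N (((N : ℝ) + 2) ^ (-0.52 : ℝ))) ω} ≤
        ENNReal.ofReal (((N : ℝ) + 2) ^ (-(1 / 150) : ℝ)) := by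
  have hJ : 0 ≤ (J d).toReal := ENNReal.toReal_nonneg
  filter_upwards [num_tw hd hJ h0 h1 h2 h3 h4, num_side h3] with N hN hs K hK
  have hx : (0 : ℝ) < (N : ℝ) + 2 := by positivity
  have hM : (0 : ℝ) < (M N e₃ : ℝ) := by exact_mod_cast main_M_pos N e₃
  have hκ : 0 < ((N : ℝ) + 2) ^ e₂ := Real.rpow_pos_of_pos hx _
  refine (markov ((meas_Tw _).inter (main_meas_C d N _)) hM).trans ?_
  refine (mul_le_mul' le_rfl (E_tw (m := M N e₁ + 2 * K) hd hκ hs)).trans ?_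
  rw [← ENNReal.ofReal_mul (by positivity)]
  exact ENNReal.ofReal_le_ofReal (hN K hK)

/-- The probability of many near collisions. -/
theorem main_col {d : ℕ} (hd : 3 ≤ d) :
    ∀ᶠ N : ℕ in atTop, ∀ K : ℕ, (K : ℝ) ≤ ((N : ℝ) + 2) ^ (1 / 200 : ℝ) →
      nu d (N + 2) {ω | (M N 0.44 : ℝ) ≤ cnt (Col (2 * K + 1)) ω} ≤
        ENNReal.ofReal (((N : ℝ) + 2) ^ (-(1 / 150) : ℝ)) := by
  have hJ : 0 ≤ (J d).toReal := ENNReal.toReal_nonneg
  filter_upwards [num_col hd hJ, eventually_gt_atTop 0] with N hN hN0 K hK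
  have hx : (0 : ℝ) < (N : ℝ) + 2 := by positivity
  have hM : (0 : ℝ) < (M N 0.44 : ℝ) := by exact_mod_cast main_M_pos N _
  refine (markov (meas_Col _) hM).trans ?_
  refine (mul_le_mul' le_rfl (E_col (d := d) (N := N) (K := 2 * K + 1) (by omega) hN0
    (Real.rpow_pos_of_pos hx (-0.495)) (Real.rpow_pos_of_pos hx (-0.16)) (Real.rpow_pos_of_pos hx (-0.28))
    (Real.rpow_pos_of_pos hx (-0.37)) (Real.rpow_pos_of_pos hx (-0.53)))).trans ?_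
  rw [← ENNReal.ofReal_mul (by positivity)]
  exact ENNReal.ofReal_le_ofReal (hN K hK)

theorem main_prob {d : ℕ} (hd : 3 ≤ d) :
    ∀ᶠ N : ℕ in atTop, ∀ K : ℕ, (K : ℝ) ≤ ((N : ℝ) + 2) ^ (1 / 200 : ℝ) →
      nu d (N + 2) {ω | ¬ (Rig (2 * K) (rel ω) ∧ HasS d (rel ω))} ≤
        ENNReal.ofReal (((N : ℝ) + 2) ^ (-(1 / 200) : ℝ)) := by
  have hJ : 0 ≤ (J d).toReal := ENNReal.toReal_nonneg
  filter_upwards [main_col hd,
    main_tw hd (e₁ := 0.44) (e₂ := -0.55) (e₃ := 0.37) (by norm_num) (by norm_num) (by norm_num) (by norm_num)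
      (by norm_num),
    main_tw hd (e₁ := 0.37) (e₂ := -0.62) (e₃ := 0.16) (by norm_num) (by norm_num) (by norm_num) (by norm_num)
      (by norm_num),
    main_tw hd (e₁ := 0.16) (e₂ := -0.83) (e₃ := 0) (by norm_num) (by norm_num) (by norm_num) (by norm_num)
      (by norm_num),
    num_G hJ, num_S d, num_final] with N hc ht1 ht2 ht3 hG hS hF K hK
  have hx : (0 : ℝ) < (N : ℝ) + 2 := by positivity
  set y := ((N : ℝ) + 2) ^ (-0.52 : ℝ) with hy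
  have hy0 : 0 < y := Real.rpow_pos_of_pos hx _
  set z := ((N : ℝ) + 2) ^ (-(1 / 150) : ℝ) with hz
  have hz0 : 0 ≤ z := (Real.rpow_pos_of_pos hx _).le
  set E₁ : Set (Fin (N + 2) → Fin d → ℝ) := {ω | (M N 0.44 : ℝ) ≤ cnt (Col (2 * K + 1)) ω} with hE1
  set E₂ : Set (Fin (N + 2) → Fin d → ℝ) :=
    {ω | (M N 0.37 : ℝ) ≤ cnt (Tw (M N 0.44 + 2 * K) ∩ main_C d N y) ω} with hE2
  set E₃ : Set (Fin (N + 2) → Fin d → ℝ) :=
    {ω | (M N 0.16 : ℝ) ≤ cnt (Tw (M N 0.37 + 2 * K) ∩ main_C d N y) ω} with hE3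
  set E₄ : Set (Fin (N + 2) → Fin d → ℝ) :=
    {ω | (M N 0 : ℝ) ≤ cnt (Tw (M N 0.16 + 2 * K) ∩ main_C d N y) ω} with hE4
  set E₅ : Set (Fin (N + 2) → Fin d → ℝ) := {ω | ∃ u, ω u ∈ {a : Fin d → ℝ | X a < y ∧ Y a < y}} with hE5
  set E₆ : Set (Fin (N + 2) → Fin d → ℝ) := {ω | ¬ HasS d (rel ω)} with hE6
  have hsub : {ω : Fin (N + 2) → Fin d → ℝ | ¬ (Rig (2 * K) (rel ω) ∧ HasS d (rel ω))} ⊆
      E₁ ∪ (E₂ ∪ (E₃ ∪ (E₄ ∪ (E₅ ∪ E₆)))) := by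
    intro ω hω
    by_contra hn
    simp only [mem_union, not_or] at hn
    obtain ⟨n1, n2, n3, n4, n5, n6⟩ := hn
    apply hω
    refine ⟨?_, not_not.1 n6⟩
    have hall : ∀ u, y ≤ X (ω u) ∨ y ≤ Y (ω u) := by
      intro u
      by_contra hu
      rw [not_or, not_le, not_le] at hu
      exact n5 ⟨u, hu⟩
    rw [hE1, mem_setOf_eq, not_le] at n1
    rw [hE2, mem_setOf_eq, not_le, main_cnt hall] at n2
    rw [hE3, mem_setOf_eq, not_le, main_cnt hall] at n3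
    rw [hE4, mem_setOf_eq, not_le, main_cnt hall, main_M_zero] at n4
    have k1 : cnt (Col (2 * K + 1)) ω < M N 0.44 := by exact_mod_cast n1
    have k2 : cnt (Tw (M N 0.44 + 2 * K)) ω < M N 0.37 := by exact_mod_cast n2
    have k3 : cnt (Tw (M N 0.37 + 2 * K)) ω < M N 0.16 := by exact_mod_cast n3
    have k4 : cnt (Tw (M N 0.16 + 2 * K)) ω < 1 := by exact_mod_cast n4
    exact rig_of_cnt ω k1.le k2.le k3.le (by omega)
  have b5 : nu d (N + 2) E₅ ≤ ENNReal.ofReal z := by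
    have mA : MeasurableSet {a : Fin d → ℝ | X a < y ∧ Y a < y} :=
      (measurableSet_lt (meas_X d) measurable_const).inter (measurableSet_lt (meas_Y d) measurable_const)
    refine (single mA).trans ?_
    refine (mul_le_mul' le_rfl (tail_XY d hy0)).trans ?_
    rw [b19_ofReal (by positivity)]
    rw [show (((N + 2 : ℕ) : ℝ≥0∞)) = ENNReal.ofReal ((N : ℝ) + 2) by
      rw [← ENNReal.ofReal_natCast]; push_cast; rfl, ← ENNReal.ofReal_mul (by positivity)]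
    exact ENNReal.ofReal_le_ofReal hG
  have b6 : nu d (N + 2) E₆ ≤ ENNReal.ofReal z := hasS_prob.trans (ENNReal.ofReal_le_ofReal hS)
  calc nu d (N + 2) {ω | ¬ (Rig (2 * K) (rel ω) ∧ HasS d (rel ω))} ≤
      nu d (N + 2) (E₁ ∪ (E₂ ∪ (E₃ ∪ (E₄ ∪ (E₅ ∪ E₆))))) := measure_mono hsub
    _ ≤ ENNReal.ofReal z + (ENNReal.ofReal z + (ENNReal.ofReal z + (ENNReal.ofReal z +
        (ENNReal.ofReal z + ENNReal.ofReal z)))) := by
        refine (measure_union_le _ _).trans (add_le_add (hc K hK) ?_)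
        refine (measure_union_le _ _).trans (add_le_add (ht1 K hK) ?_)
        refine (measure_union_le _ _).trans (add_le_add (ht2 K hK) ?_)
        refine (measure_union_le _ _).trans (add_le_add (ht3 K hK) ?_)
        exact (measure_union_le _ _).trans (add_le_add b5 b6)
    _ = ENNReal.ofReal (6 * z) := by
        rw [← ENNReal.ofReal_add hz0 hz0, ← ENNReal.ofReal_add hz0 (by positivity),
          ← ENNReal.ofReal_add hz0 (by positivity), ← ENNReal.ofReal_add hz0 (by positivity),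
          ← ENNReal.ofReal_add hz0 (by positivity)]
        congr 1
        ring
    _ ≤ _ := ENNReal.ofReal_le_ofReal hF

open Pool.Agent.Helper87.PD

theorem main_count {d : ℕ} (hd : 3 ≤ d) :
    ∃ N₀ : ℕ, ∀ n ≥ N₀,
      (Nat.card {σ : Fin d → Equiv.Perm (Fin n) //
          ¬ (Det ⌊(n : ℝ) ^ (1 / 200 : ℝ)⌋₊ (ord σ) ∧ dim (ord σ) = d)} : ℝ) ≤
        (n : ℝ) ^ (-(1 / 200) : ℝ) * Nat.card (Fin d → Equiv.Perm (Fin n)) := by
  obtain ⟨N₁, hN₁⟩ := eventually_atTop.1 (main_prob hd)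
  refine ⟨N₁ + 2, fun n hn => ?_⟩
  obtain ⟨N, rfl⟩ : ∃ N, n = N + 2 := ⟨n - 2, by omega⟩
  have hx : (0 : ℝ) < (N : ℝ) + 2 := by positivity
  have hcast : ((N + 2 : ℕ) : ℝ) = (N : ℝ) + 2 := by push_cast; ring
  rw [hcast]
  set K := ⌊((N : ℝ) + 2) ^ (1 / 200 : ℝ)⌋₊ with hK
  have hKle : (K : ℝ) ≤ ((N : ℝ) + 2) ^ (1 / 200 : ℝ) := Nat.floor_le (by positivity)
  have h1 := hN₁ N (by omega) K hKle
  have h2 := transfer (d := d) (n := N + 2) fun r => ¬ (Rig (2 * K) r ∧ HasS d r)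
  have h3 : Nat.card {σ : Fin d → Equiv.Perm (Fin (N + 2)) // ¬ (Det K (ord σ) ∧ dim (ord σ) = d)} ≤
      Nat.card {σ : Fin d → Equiv.Perm (Fin (N + 2)) // ¬ (Rig (2 * K) (ord σ) ∧ HasS d (ord σ))} := by
    refine Nat.card_le_card_of_injective
      (fun σ => ⟨σ.1, fun h => σ.2 ⟨det_of_rig h.1, dim_ord σ.1 h.2⟩⟩) ?_
    intro σ τ h
    exact Subtype.ext (congrArg (fun t : {σ : Fin d → Equiv.Perm (Fin (N + 2)) //
      ¬ (Rig (2 * K) (ord σ) ∧ HasS d (ord σ))} => t.1) h)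
  have h4 : (Nat.card {σ : Fin d → Equiv.Perm (Fin (N + 2)) //
      ¬ (Rig (2 * K) (ord σ) ∧ HasS d (ord σ))} : ℝ≥0∞) ≤
      ENNReal.ofReal (Nat.card (Fin d → Equiv.Perm (Fin (N + 2))) * ((N : ℝ) + 2) ^ (-(1 / 200) : ℝ)) := by
    rw [h2, ENNReal.ofReal_mul (by positivity), ENNReal.ofReal_natCast]
    exact mul_le_mul' le_rfl h1
  have h5 : (Nat.card {σ : Fin d → Equiv.Perm (Fin (N + 2)) //
      ¬ (Rig (2 * K) (ord σ) ∧ HasS d (ord σ))} : ℝ) ≤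
      Nat.card (Fin d → Equiv.Perm (Fin (N + 2))) * ((N : ℝ) + 2) ^ (-(1 / 200) : ℝ) := by
    rw [← ENNReal.ofReal_natCast] at h4
    exact (ENNReal.ofReal_le_ofReal_iff (by positivity)).1 h4
  calc (Nat.card {σ : Fin d → Equiv.Perm (Fin (N + 2)) // ¬ (Det K (ord σ) ∧ dim (ord σ) = d)} : ℝ) ≤
      Nat.card {σ : Fin d → Equiv.Perm (Fin (N + 2)) // ¬ (Rig (2 * K) (ord σ) ∧ HasS d (ord σ))} := by
        exact_mod_cast h3
    _ ≤ _ := h5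
    _ = _ := mul_comm _ _

theorem main : ∀ d : ℕ, 3 ≤ d → ∃ N₀ : ℕ, ∀ n ≥ N₀,
    (Nat.card {σ : Fin d → Equiv.Perm (Fin n) //
          ¬ (Det ⌊(n : ℝ) ^ (1 / 200 : ℝ)⌋₊ (ord σ) ∧ dim (ord σ) = d)} : ℝ) ≤
        (n : ℝ) ^ (-(1 / 200) : ℝ) * Nat.card (Fin d → Equiv.Perm (Fin n)) ∧
    ∀ r s : Fin n → Fin n → Prop, Det ⌊(n : ℝ) ^ (1 / 200 : ℝ)⌋₊ r → IsPO s →
      (SameDeck r s → Iso r s ∧ dim r = dim s) ∧
      (∀ x y : Fin 3 → Fin n, Function.Injective y → (∀ i, Iso (del r (x i)) (del s (y i))) →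
        Iso r s ∧ dim r = dim s) ∧
      ∀ k ≤ ⌊(n : ℝ) ^ (1 / 200 : ℝ)⌋₊, SameKDeck k r s → Iso r s ∧ dim r = dim s := by
  intro d hd
  obtain ⟨N₀, hN₀⟩ := main_count hd
  refine ⟨N₀ + 4, fun n hn => ⟨hN₀ n (by omega), fun r s hr hs => ?_⟩⟩
  have hn1 : (1 : ℝ) ≤ n := by exact_mod_cast (by omega : 1 ≤ n)
  refine conseq ?_ ?_ hr hs
  · rw [Nat.one_le_floor_iff]
    exact Real.one_le_rpow hn1 (by norm_num)
  · -- `n ^ (1/200) ≤ n ^ (1/2) ≤ n / 2`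
    have h4 : (4 : ℝ) ≤ n := by exact_mod_cast (by omega : 4 ≤ n)
    have h1 : (n : ℝ) ^ (1 / 200 : ℝ) ≤ (n : ℝ) ^ (1 / 2 : ℝ) :=
      Real.rpow_le_rpow_of_exponent_le hn1 (by norm_num)
    have h2 : (n : ℝ) ^ (1 / 2 : ℝ) ≤ n - 2 := by
      rw [← Real.sqrt_eq_rpow]
      rw [Real.sqrt_le_left (by linarith)]
      nlinarith
    have h3 : (⌊(n : ℝ) ^ (1 / 200 : ℝ)⌋₊ : ℝ) ≤ n - 2 :=
      (Nat.floor_le (by positivity)).trans (h1.trans h2)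
    have h5 : ((⌊(n : ℝ) ^ (1 / 200 : ℝ)⌋₊ + 2 : ℕ) : ℝ) ≤ n := by
      push_cast
      linarith
    exact_mod_cast h5

end Pool.Agent.Helper14.RO
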